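import Mathlib

/-!
# Common definitions for the bellows theorem in hyperbolic spaces
-/

namespace Pool.Agent.W576

open MeasureTheory

/-- signs of the Lorentz form: `-1` on the coordinate `0`, `1` elsewhere -/
def eta {R : Type*} [Ring R] {d : ℕ} (i : Fin d) : R := if (i : ℕ) = 0 then -1 else 1

/-- Lorentz form `-x₀y₀ + x₁y₁ + ...` -/
def lor {R : Type*} [CommRing R] {d : ℕ} (x y : Fin d → R) : R := ∑ i, eta i * (x i * y i)

/-- the open orthant -/
def orth (ι : Type*) : Set (ι → ℝ) := {s | ∀ i, 0 < s i}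

/-- the quadratic form of a matrix -/
def qf {ι : Type*} [Fintype ι] (G : Matrix ι ι ℝ) (s : ι → ℝ) : ℝ := ∑ i, ∑ j, G i j * (s i * s j)

/-- the Gaussian orthant integral -/
noncomputable def I0 {ι : Type*} [Fintype ι] (G : Matrix ι ι ℝ) : ℝ :=
  ∫ s in orth ι, Real.exp (qf G s)

/-- first moments -/
noncomputable def J1 {ι : Type*} [Fintype ι] (G : Matrix ι ι ℝ) (i : ι) : ℝ :=
  ∫ s in orth ι, s i * Real.exp (qf G s)

/-- second moments -/
noncomputable def J2 {ι : Type*} [Fintype ι] (G : Matrix ι ι ℝ) (i j : ι) : ℝ :=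
  ∫ s in orth ι, s i * s j * Real.exp (qf G s)

/-- Gram matrix -/
def gram {R : Type*} [CommRing R] {ι : Type*} {d : ℕ} (v : ι → Fin d → R) : Matrix ι ι R :=
  fun i j => lor (v i) (v j)

/-- future timelike vectors -/
def Fut {d : ℕ} (x : Fin (d + 1) → ℝ) : Prop := 0 < x 0 ∧ lor x x < 0

/-- matrices preserving the Lorentz form, with determinant one -/
def IsSO {R : Type*} [CommRing R] {d : ℕ} (g : Matrix (Fin d) (Fin d) R) : Prop :=
  (∀ x y : Fin d → R, lor (g.mulVec x) (g.mulVec y) = lor x y) ∧ g.det = 1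

/-- signed (unnormalised) volume of the simplex with the given vertex vectors -/
noncomputable def SV {d : ℕ} (v : Fin d → Fin d → ℝ) : ℝ := (Matrix.of v).det * I0 (gram v)

/-- zero extension of coordinate vectors -/
def pad {R : Type*} [Zero R] {b N : ℕ} (x : Fin b → R) : Fin N → R :=
  fun i => if h : (i : ℕ) < b then x ⟨i, h⟩ else 0

/-- A discrete place of the field `K`, trivial on the complex numbers: a discrete valuation ring
`O` with uniformiser `t` and residue map `red` to a field `κ`. -/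
structure Place (K : Type*) [Field K] [Algebra ℂ K] (κ : Type*) [Field κ] where
  O : Subring K
  t : K
  red : O →+* κ
  alg : ∀ z : ℂ, algebraMap ℂ K z ∈ O
  t_mem : t ∈ O
  t_ne : t ≠ 0
  t_inv : t⁻¹ ∉ O
  red_ker : ∀ x : O, red x = 0 ↔ t⁻¹ * (x : K) ∈ O
  zpow : ∀ x : K, x ≠ 0 → ∃ m : ℤ, t ^ m * x ∈ O ∧ (t ^ m * x)⁻¹ ∈ O

end Pool.Agent.W576
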