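import Pool.Agent.W576.Defs

/-!
# More definitions for the bellows theorem: flux, split coordinates, lattices
-/

namespace Pool.Agent.W576

open MeasureTheory

/-- derivative kernel: flux of the linear velocity field `w` through the simplex `u` -/
noncomputable def TT {a : ℕ} (u w : Fin a → Fin (a + 1) → ℝ) : ℝ :=
  ∑ i, (Matrix.of (Fin.cons (w i) u : Fin (a + 1) → Fin (a + 1) → ℝ)).det * J1 (gram u) i

/-- contraction of the skew matrix `X` with the determinant and the vectors `f` -/
noncomputable def Delta {a : ℕ} (X : Matrix (Fin (a + 2)) (Fin (a + 2)) ℝ)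
    (f : Fin a → Fin (a + 2) → ℝ) : ℝ :=
  (1 / 2) * ∑ c, eta c * (Matrix.of (Fin.cons (Pi.single c 1)
    (Fin.cons (X.mulVec (Pi.single c 1)) f) : Fin (a + 2) → Fin (a + 2) → ℝ)).det

/-- split index type: `r+1` orthonormal coordinates, and two isotropic coordinates
`.inl (.inr ())` and `.inr ()`. -/
abbrev SI (r : ℕ) := (Fin (r + 1) ⊕ Unit) ⊕ Unit

/-- the quadratic form in split coordinates -/
def sform {K : Type*} [CommRing K] {r : ℕ} (x y : SI r → K) : K :=
  (∑ i : Fin (r + 1), eta i * (x (.inl (.inl i)) * y (.inl (.inl i)))) +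
    2 * (x (.inl (.inr ())) * y (.inr ()) + x (.inr ()) * y (.inl (.inr ())))

/-- a real vector of `r+1` coordinates as a vector in split coordinates -/
def emb {K : Type*} [Field K] [Algebra ℂ K] {r : ℕ} (x : Fin (r + 1) → ℝ) : SI r → K :=
  Sum.elim (Sum.elim (fun i => algebraMap ℂ K (x i : ℂ)) (fun _ => 0)) (fun _ => 0)

/-- the embedding of the real numbers in the residue field of a place -/
noncomputable def Place.rho {K : Type*} [Field K] [Algebra ℂ K] {κ : Type*} [Field κ]
    (p : Place K κ) : ℝ →+* κ :=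
  p.red.comp (((algebraMap ℂ K).codRestrict p.O p.alg).comp Complex.ofRealHom)

/-- the standard self-dual lattice number `m` -/
def Place.L {K : Type*} [Field K] [Algebra ℂ K] {κ : Type*} [Field κ]
    (p : Place K κ) {r : ℕ} (m : ℤ) (x : SI r → K) : Prop :=
  (∀ i, x (.inl (.inl i)) ∈ p.O) ∧ p.t ^ m * x (.inl (.inr ())) ∈ p.O ∧
    p.t ^ (-m) * x (.inr ()) ∈ p.O

/-- the sum of the lattices number `0` and `1` -/
def Place.Ms {K : Type*} [Field K] [Algebra ℂ K] {κ : Type*} [Field κ]
    (p : Place K κ) {r : ℕ} (x : SI r → K) : Prop :=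
  (∀ i, x (.inl (.inl i)) ∈ p.O) ∧ p.t * x (.inl (.inr ())) ∈ p.O ∧ x (.inr ()) ∈ p.O

/-- self-dual sets for the split form -/
def SelfDual {K : Type*} [Field K] [Algebra ℂ K] {κ : Type*} [Field κ]
    (p : Place K κ) {r : ℕ} (L : Set (SI r → K)) : Prop :=
  ∀ x, x ∈ L ↔ ∀ y ∈ L, sform x y ∈ p.O

/-- absorbing sets -/
def Absorb {K : Type*} [Field K] [Algebra ℂ K] {κ : Type*} [Field κ]
    (p : Place K κ) {r : ℕ} (L : Set (SI r → K)) : Prop :=
  ∀ x : SI r → K, ∃ a : ℕ, p.t ^ a • x ∈ L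

end Pool.Agent.W576
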