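import Pool.Agent.W576.Defs2

/-!
# Configurations of frames
-/

namespace Pool.Agent.W576

/-- the set of vertices of a tuple -/
def rng {a m : ℕ} (σ : Fin a → Fin m) : Finset (Fin m) := Finset.univ.image σ

/-- vertex sets of the simplices in the support of a chain -/
def supp {a m : ℕ} (c : (Fin a → Fin m) → ℤ) : Set (Finset (Fin m)) :=
  {s | ∃ σ, c σ ≠ 0 ∧ rng σ = s}

/-- configurations of frames: one matrix in `SO` for every simplex of the chain, with the
incidence conditions at the common vertices; `v` is the real reference configuration -/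
structure IsConf {R : Type*} [CommRing R] (ρ : ℝ →+* R) {r m : ℕ} (v : Fin m → Fin (r + 3) → ℝ)
    (c : (Fin (r + 2) → Fin m) → ℤ)
    (g : Finset (Fin m) → Matrix (Fin (r + 3)) (Fin (r + 3)) R) : Prop where
  so : ∀ s ∈ supp c, IsSO (g s)
  inc : ∀ s ∈ supp c, ∀ s' ∈ supp c, ∀ j, j ∈ s → j ∈ s' →
    (g s).mulVec (fun i => ρ (v j i)) = (g s').mulVec (fun i => ρ (v j i))

/-- index `r+1` of `Fin (r+3)` -/
def ia (r : ℕ) : Fin (r + 3) := ⟨r + 1, by omega⟩

/-- index `r+2` of `Fin (r+3)` -/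
def ib (r : ℕ) : Fin (r + 3) := ⟨r + 2, by omega⟩

/-- the isotropic vector `h (e_{r+1} + i e_{r+2})` for a real frame `h`, in a `ℂ`-algebra -/
noncomputable def epl {R : Type*} [CommRing R] [Algebra ℂ R] {r : ℕ}
    (h : Matrix (Fin (r + 3)) (Fin (r + 3)) ℝ) : Fin (r + 3) → R :=
  fun i => algebraMap ℂ R ((h i (ia r) : ℂ) + Complex.I * (h i (ib r) : ℂ))

/-- the isotropic vector `h (e_{r+1} - i e_{r+2})` for a real frame `h`, in a `ℂ`-algebra -/
noncomputable def emi {R : Type*} [CommRing R] [Algebra ℂ R] {r : ℕ}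
    (h : Matrix (Fin (r + 3)) (Fin (r + 3)) ℝ) : Fin (r + 3) → R :=
  fun i => algebraMap ℂ R ((h i (ia r) : ℂ) - Complex.I * (h i (ib r) : ℂ))

/-- the exponential of the relative rotation of the frames `g` and `g'` around the face with
adapted frame `h` -/
noncomputable def zz {R : Type*} [CommRing R] [Algebra ℂ R] {r : ℕ}
    (h : Matrix (Fin (r + 3)) (Fin (r + 3)) ℝ) (g g' : Matrix (Fin (r + 3)) (Fin (r + 3)) R) : R :=
  algebraMap ℂ R (1 / 2) * lor (g.mulVec (epl h)) (g'.mulVec (emi h))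

/-- real numbers in a `ℂ`-algebra -/
noncomputable def reHom (R : Type*) [CommRing R] [Algebra ℂ R] : ℝ →+* R :=
  (algebraMap ℂ R).comp Complex.ofRealHom

/-- data attached to the nondegenerate `(r+1)`-tuples of vertices: an adapted frame `h`, the
coordinates `x` and a reference simplex `ref` -/
structure FaceData {r m : ℕ} (v : Fin m → Fin (r + 3) → ℝ) (c : (Fin (r + 2) → Fin m) → ℤ)
    (T : Finset (Fin (r + 1) → Fin m))
    (h : (Fin (r + 1) → Fin m) → Matrix (Fin (r + 3)) (Fin (r + 3)) ℝ)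
    (x : (Fin (r + 1) → Fin m) → Fin (r + 1) → Fin (r + 1) → ℝ)
    (ref : (Fin (r + 1) → Fin m) → Finset (Fin m)) : Prop where
  mem_T : ∀ τ, τ ∈ T ↔ LinearIndependent ℝ (fun i => v (τ i)) ∧ ∃ s ∈ supp c, ∀ i, τ i ∈ s
  so : ∀ τ ∈ T, IsSO (h τ)
  coord : ∀ τ ∈ T, ∀ i, v (τ i) = (h τ).mulVec (pad (x τ i))
  det_pos : ∀ τ ∈ T, 0 < (Matrix.of (x τ)).det
  ref_mem : ∀ τ ∈ T, ref τ ∈ supp c
  ref_sub : ∀ τ ∈ T, ∀ i, τ i ∈ ref τ

end Pool.Agent.W576
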