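import Pool.Agent.W576.Defs3

/-!
# Arcs of configurations: the angular velocities satisfy the volume weighted relation
-/

namespace Pool.Agent.W576.Arc

open Pool.Agent.W576

section Lor

variable {R : Type*} [CommRing R] {d : ℕ}

theorem lor_comm (x y : Fin d → R) : lor x y = lor y x := by
  unfold lor
  exact Finset.sum_congr rfl fun i _ => by ring

theorem lor_add_left (x y z : Fin d → R) : lor (x + y) z = lor x z + lor y z := by
  unfold lor
  rw [← Finset.sum_add_distrib]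
  exact Finset.sum_congr rfl fun i _ => by rw [Pi.add_apply]; ring

theorem lor_smul_left (a : R) (x z : Fin d → R) : lor (a • x) z = a * lor x z := by
  unfold lor
  rw [Finset.mul_sum]
  exact Finset.sum_congr rfl fun i _ => by rw [Pi.smul_apply, smul_eq_mul]; ring

theorem lor_add_right (x y z : Fin d → R) : lor z (x + y) = lor z x + lor z y := by
  rw [lor_comm, lor_add_left, lor_comm x, lor_comm y]

theorem lor_smul_right (a : R) (x z : Fin d → R) : lor z (a • x) = a * lor z x := by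
  rw [lor_comm, lor_smul_left, lor_comm x]

theorem lor_eq_dot (x y : Fin d → R) :
    lor x y = x ⬝ᵥ ((Matrix.diagonal (eta : Fin d → R)).mulVec y) := by
  unfold lor dotProduct
  refine Finset.sum_congr rfl fun i _ => ?_
  rw [Matrix.mulVec_diagonal]
  ring

theorem isometry_iff (M : Matrix (Fin d) (Fin d) R) :
    (∀ x y, lor (M.mulVec x) (M.mulVec y) = lor x y) ↔
      M.transpose * Matrix.diagonal (eta : Fin d → R) * M = Matrix.diagonal eta := by
  have key : ∀ x y, lor (M.mulVec x) (M.mulVec y) =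
      x ⬝ᵥ ((M.transpose * Matrix.diagonal (eta : Fin d → R) * M).mulVec y) := by
    intro x y
    rw [lor_eq_dot, Matrix.mulVec_mulVec, Matrix.dotProduct_mulVec, Matrix.dotProduct_mulVec,
      ← Matrix.vecMul_transpose, Matrix.vecMul_vecMul, ← mul_assoc]
  constructor
  · intro h
    ext i j
    have := h (Pi.single i 1) (Pi.single j 1)
    rw [key, lor_eq_dot] at this
    simp only [Matrix.mulVec_single_one, single_one_dotProduct, Matrix.col_apply] at this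
    exact this
  · intro h x y
    rw [key, h, ← lor_eq_dot]

theorem IsSO.map {S : Type*} [CommRing S] (f : R →+* S) {M : Matrix (Fin d) (Fin d) R}
    (h : IsSO M) : IsSO (M.map f) := by
  refine ⟨(isometry_iff _).2 ?_, ?_⟩
  · have h1 := (isometry_iff M).1 h.1
    have h2 := congrArg (fun A : Matrix (Fin d) (Fin d) R => A.map f) h1
    simp only [Matrix.map_mul, Matrix.transpose_map] at h2
    have h3 : (Matrix.diagonal (eta : Fin d → R)).map f = Matrix.diagonal (eta : Fin d → S) := by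
      rw [Matrix.diagonal_map (map_zero f)]
      congr 1
      ext i
      unfold eta
      split_ifs <;> simp
    rw [h3] at h2
    exact h2
  · have := h.2
    rw [← RingHom.mapMatrix_apply, ← RingHom.map_det, this, map_one]

end Lor

/-- complexification of a real matrix -/
theorem map_mulVec_epl {r : ℕ} (M h : Matrix (Fin (r + 3)) (Fin (r + 3)) ℝ) :
    (M.map (fun y : ℝ => (y : ℂ))).mulVec (epl h) =
      fun i => ((M.mulVec (h.mulVec (Pi.single (ia r) 1)) i : ℝ) : ℂ) +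
        Complex.I * ((M.mulVec (h.mulVec (Pi.single (ib r) 1)) i : ℝ) : ℂ) := by
  ext i
  simp only [Matrix.mulVec, dotProduct, Matrix.map_apply, epl, Pi.single_apply, mul_ite, mul_one,
    mul_zero, Finset.sum_ite_eq', Finset.mem_univ, if_true, Algebra.algebraMap_self,
    RingHom.id_apply]
  push_cast
  rw [Finset.mul_sum, ← Finset.sum_add_distrib]
  exact Finset.sum_congr rfl fun j _ => by ring

theorem map_mulVec_emi {r : ℕ} (M h : Matrix (Fin (r + 3)) (Fin (r + 3)) ℝ) :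
    (M.map (fun y : ℝ => (y : ℂ))).mulVec (emi h) =
      fun i => ((M.mulVec (h.mulVec (Pi.single (ia r) 1)) i : ℝ) : ℂ) -
        Complex.I * ((M.mulVec (h.mulVec (Pi.single (ib r) 1)) i : ℝ) : ℂ) := by
  ext i
  simp only [Matrix.mulVec, dotProduct, Matrix.map_apply, emi, Pi.single_apply, mul_ite, mul_one,
    mul_zero, Finset.sum_ite_eq', Finset.mem_univ, if_true, Algebra.algebraMap_self,
    RingHom.id_apply]
  push_cast
  rw [Finset.mul_sum, ← Finset.sum_sub_distrib]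
  exact Finset.sum_congr rfl fun j _ => by ring

theorem lor_cplx {d : ℕ} (a b a' b' : Fin d → ℝ) :
    lor (fun i => (a i : ℂ) + Complex.I * (b i : ℂ)) (fun i => (a' i : ℂ) - Complex.I * (b' i : ℂ)) =
      ((lor a a' + lor b b' : ℝ) : ℂ) + Complex.I * ((lor b a' - lor a b' : ℝ) : ℂ) := by
  have he : ∀ i : Fin d, (eta i : ℂ) = ((eta i : ℝ) : ℂ) := by
    intro i
    unfold eta
    split_ifs <;> simp
  unfold lor
  push_cast
  rw [← Finset.sum_add_distrib, ← Finset.sum_sub_distrib, Finset.mul_sum,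
    ← Finset.sum_add_distrib]
  refine Finset.sum_congr rfl fun i _ => ?_
  rw [he]
  have : Complex.I ^ 2 = -1 := Complex.I_sq
  ring_nf
  rw [this]
  ring

section Deriv

variable {𝔸 : Type*} [NormedCommRing 𝔸] [NormedAlgebra ℝ 𝔸] {d : ℕ}

theorem hasDerivAt_lor {x y : ℝ → Fin d → 𝔸} {x' y' : Fin d → 𝔸} {t : ℝ}
    (hx : ∀ i, HasDerivAt (fun t => x t i) (x' i) t)
    (hy : ∀ i, HasDerivAt (fun t => y t i) (y' i) t) :
    HasDerivAt (fun t => lor (x t) (y t)) (lor x' (y t) + lor (x t) y') t := by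
  unfold lor
  rw [← Finset.sum_add_distrib]
  refine HasDerivAt.fun_sum fun i _ => ?_
  exact (((hx i).mul (hy i)).const_mul (eta i)).congr_deriv (by ring)

theorem hasDerivAt_mulVec {M : ℝ → Matrix (Fin d) (Fin d) 𝔸} {M' : Matrix (Fin d) (Fin d) 𝔸}
    {t : ℝ} (hM : ∀ i j, HasDerivAt (fun t => M t i j) (M' i j) t) (w : Fin d → 𝔸) (i : Fin d) :
    HasDerivAt (fun t => (M t).mulVec w i) (M'.mulVec w i) t := by
  unfold Matrix.mulVec dotProduct
  exact HasDerivAt.fun_sum fun j _ => (hM i j).mul_const (w j)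

end Deriv

/-- logarithmic derivative calculus -/
theorem hasDerivAt_prod_log {ι : Type*} (s : Finset ι) (f : ι → ℝ → ℂ) (a : ι → ℂ) (t : ℝ)
    (h : ∀ i ∈ s, HasDerivAt (f i) (f i t * a i) t) :
    HasDerivAt (fun t => ∏ i ∈ s, f i t) ((∏ i ∈ s, f i t) * ∑ i ∈ s, a i) t := by
  classical
  induction s using Finset.induction_on with
  | empty => simpa using hasDerivAt_const t (1 : ℂ)
  | insert i s hi ih =>
    have h1 := h i (Finset.mem_insert_self i s)
    have h2 := ih fun j hj => h j (Finset.mem_insert_of_mem hj)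
    have h3 := h1.mul h2
    simp only [Finset.prod_insert hi, Finset.sum_insert hi]
    exact h3.congr_deriv (by ring)

theorem hasDerivAt_zpow_log {f : ℝ → ℂ} {a : ℂ} {t : ℝ} (h : HasDerivAt f (f t * a) t)
    (h0 : f t ≠ 0) (n : ℤ) : HasDerivAt (fun t => f t ^ n) (f t ^ n * (n * a)) t := by
  have h1 := (hasDerivAt_zpow n (f t) (Or.inl h0)).comp t h
  refine h1.congr_deriv ?_
  rw [zpow_sub_one₀ h0]
  field_simp

/-- linear algebra over the rational numbers -/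
theorem sum_eq_zero_of_rat {ι : Type*} (T : Finset ι) (l w : ι → ℝ)
    (h : ∀ f : ℝ →ₗ[ℚ] ℚ, ∑ i ∈ T, (f (l i) : ℝ) * w i = 0) : ∑ i ∈ T, l i * w i = 0 := by
  classical
  let b := Module.Basis.ofVectorSpace ℚ ℝ
  let I := T.biUnion fun i => (b.repr (l i)).support
  have hl : ∀ i ∈ T, l i = ∑ k ∈ I, (b.repr (l i) k : ℝ) * b k := by
    intro i hi
    have h1 := b.linearCombination_repr (l i)
    rw [Finsupp.linearCombination_apply, Finsupp.sum] at h1
    rw [← Finset.sum_subset (s₁ := (b.repr (l i)).support)]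
    · conv_lhs => rw [← h1]
      exact Finset.sum_congr rfl fun k _ => by rw [Rat.smul_def]
    · intro k hk
      exact Finset.mem_biUnion.2 ⟨i, hi, hk⟩
    · intro k _ hk
      rw [Finsupp.notMem_support_iff.1 hk]
      simp
  calc ∑ i ∈ T, l i * w i = ∑ i ∈ T, (∑ k ∈ I, (b.repr (l i) k : ℝ) * b k) * w i :=
        Finset.sum_congr rfl fun i hi => by rw [← hl i hi]
    _ = ∑ k ∈ I, b k * ∑ i ∈ T, ((b.coord k) (l i) : ℝ) * w i := by
        simp only [Finset.sum_mul, Finset.mul_sum]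
        rw [Finset.sum_comm]
        exact Finset.sum_congr rfl fun k _ => Finset.sum_congr rfl fun i _ => by
          rw [Module.Basis.coord_apply]; ring
    _ = 0 := Finset.sum_eq_zero fun k _ => by rw [h, mul_zero]

/-- complexification -/

theorem skew_vel {d : ℕ} (A : ℝ → Matrix (Fin d) (Fin d) ℝ) (A' : Matrix (Fin d) (Fin d) ℝ)
    {t : ℝ} (ht : t ∈ Set.Ioo (0:ℝ) 1) (hA : ∀ i j, HasDerivAt (fun t => A t i j) (A' i j) t)
    (hso : ∀ t ∈ Set.Icc (0:ℝ) 1, IsSO (A t)) (x y : Fin d → ℝ) :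
    lor (A'.mulVec x) ((A t).mulVec y) + lor ((A t).mulVec x) (A'.mulVec y) = 0 := by
  have h1 := hasDerivAt_lor (hasDerivAt_mulVec hA x) (hasDerivAt_mulVec hA y)
  have h2 : HasDerivAt (fun t => lor ((A t).mulVec x) ((A t).mulVec y)) 0 t := by
    refine (hasDerivAt_const t (lor x y)).congr_of_eventuallyEq ?_
    filter_upwards [Icc_mem_nhds ht.1 ht.2] with t' ht'
    exact (hso t' ht').1 x y
  exact h1.unique h2

theorem cx_isSO {d : ℕ} {M : Matrix (Fin d) (Fin d) ℝ} (h : IsSO M) : IsSO (Matrix.map M (fun y : ℝ => (y : ℂ))) :=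
  IsSO.map Complex.ofRealHom h

theorem lor_vel {r : ℕ} (H : Matrix (Fin (r + 3)) (Fin (r + 3)) ℝ)
    (A : ℝ → Matrix (Fin (r + 3)) (Fin (r + 3)) ℝ) (A' : Matrix (Fin (r + 3)) (Fin (r + 3)) ℝ)
    {t : ℝ} (ht : t ∈ Set.Ioo (0:ℝ) 1) (hA : ∀ i j, HasDerivAt (fun t => A t i j) (A' i j) t)
    (hso : ∀ t ∈ Set.Icc (0:ℝ) 1, IsSO (A t)) :
    lor ((Matrix.map A' (fun y : ℝ => (y : ℂ))).mulVec (epl H)) ((Matrix.map (A t) (fun y : ℝ => (y : ℂ))).mulVec (emi H)) =
      -2 * Complex.I * ((lor (A'.mulVec (H.mulVec (Pi.single (ia r) 1)))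
        ((A t).mulVec (H.mulVec (Pi.single (ib r) 1))) : ℝ) : ℂ) := by
  rw [map_mulVec_epl, map_mulVec_emi, lor_cplx]
  set a := H.mulVec (Pi.single (ia r) 1)
  set b := H.mulVec (Pi.single (ib r) 1)
  have h1 := skew_vel A A' ht hA hso a a
  have h2 := skew_vel A A' ht hA hso b b
  have h3 := skew_vel A A' ht hA hso a b
  have h1' : lor (A'.mulVec a) ((A t).mulVec a) = 0 := by
    rw [lor_comm ((A t).mulVec a)] at h1
    linarith
  have h2' : lor (A'.mulVec b) ((A t).mulVec b) = 0 := by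
    rw [lor_comm ((A t).mulVec b)] at h2
    linarith
  have h3' : lor (A'.mulVec b) ((A t).mulVec a) = - lor (A'.mulVec a) ((A t).mulVec b) := by
    rw [lor_comm (A'.mulVec b)]
    linarith
  rw [h1', h2', h3']
  push_cast
  ring

theorem lor_epl_emi {r : ℕ} (H : Matrix (Fin (r + 3)) (Fin (r + 3)) ℝ) (hH : IsSO H)
    (M : Matrix (Fin (r + 3)) (Fin (r + 3)) ℝ) (hM : IsSO M) :
    lor ((Matrix.map M (fun y : ℝ => (y : ℂ))).mulVec (epl H)) ((Matrix.map M (fun y : ℝ => (y : ℂ))).mulVec (emi H)) = 2 := by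
  rw [map_mulVec_epl, map_mulVec_emi, lor_cplx]
  have e : ∀ x y : Fin (r + 3) → ℝ, lor (M.mulVec (H.mulVec x)) (M.mulVec (H.mulVec y)) =
      lor x y := fun x y => by rw [hM.1, hH.1]
  rw [e, e, e, e]
  have ha : lor (Pi.single (ia r) 1 : Fin (r + 3) → ℝ) (Pi.single (ia r) 1) = 1 := by
    unfold lor
    rw [Finset.sum_eq_single (ia r)]
    · simp [eta, ia]
    · intro j _ hj
      simp [Pi.single_eq_of_ne hj]
    · simp
  have hb : lor (Pi.single (ib r) 1 : Fin (r + 3) → ℝ) (Pi.single (ib r) 1) = 1 := by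
    unfold lor
    rw [Finset.sum_eq_single (ib r)]
    · simp [eta, ib]
    · intro j _ hj
      simp [Pi.single_eq_of_ne hj]
    · simp
  have hab : lor (Pi.single (ia r) 1 : Fin (r + 3) → ℝ) (Pi.single (ib r) 1) = 0 := by
    unfold lor
    refine Finset.sum_eq_zero fun j _ => ?_
    by_cases hj : j = ia r
    · subst hj
      have : ia r ≠ ib r := by
        intro h
        have := congrArg Fin.val h
        simp [ia, ib] at this
      simp [Pi.single_eq_of_ne this]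
    · simp [Pi.single_eq_of_ne hj]
  rw [ha, hb, lor_comm (Pi.single (ib r) 1), hab]
  norm_num

theorem log_deriv_zz {r : ℕ} (H : Matrix (Fin (r + 3)) (Fin (r + 3)) ℝ) (hH : IsSO H)
    (A B : ℝ → Matrix (Fin (r + 3)) (Fin (r + 3)) ℝ)
    (A' B' : Matrix (Fin (r + 3)) (Fin (r + 3)) ℝ) {t : ℝ} (ht : t ∈ Set.Ioo (0:ℝ) 1)
    (hA : ∀ i j, HasDerivAt (fun t => A t i j) (A' i j) t)
    (hB : ∀ i j, HasDerivAt (fun t => B t i j) (B' i j) t)
    (hAso : ∀ t ∈ Set.Icc (0:ℝ) 1, IsSO (A t)) (hBso : ∀ t ∈ Set.Icc (0:ℝ) 1, IsSO (B t))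
    (hrot : ∀ t ∈ Set.Icc (0:ℝ) 1, zz H (Matrix.map (A t) (fun y : ℝ => (y : ℂ))) (Matrix.map (B t) (fun y : ℝ => (y : ℂ))) * zz H (Matrix.map (B t) (fun y : ℝ => (y : ℂ))) (Matrix.map (A t) (fun y : ℝ => (y : ℂ))) = 1 ∧
      (Matrix.map (A t) (fun y : ℝ => (y : ℂ))).mulVec (epl H) = zz H (Matrix.map (A t) (fun y : ℝ => (y : ℂ))) (Matrix.map (B t) (fun y : ℝ => (y : ℂ))) • (Matrix.map (B t) (fun y : ℝ => (y : ℂ))).mulVec (epl H) ∧
      (Matrix.map (A t) (fun y : ℝ => (y : ℂ))).mulVec (emi H) = zz H (Matrix.map (B t) (fun y : ℝ => (y : ℂ))) (Matrix.map (A t) (fun y : ℝ => (y : ℂ))) • (Matrix.map (B t) (fun y : ℝ => (y : ℂ))).mulVec (emi H)) :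
    HasDerivAt (fun t => zz H (Matrix.map (A t) (fun y : ℝ => (y : ℂ))) (Matrix.map (B t) (fun y : ℝ => (y : ℂ)))) (zz H (Matrix.map (A t) (fun y : ℝ => (y : ℂ))) (Matrix.map (B t) (fun y : ℝ => (y : ℂ))) *
      (-Complex.I * (((lor (A'.mulVec (H.mulVec (Pi.single (ia r) 1)))
        ((A t).mulVec (H.mulVec (Pi.single (ib r) 1))) -
        lor (B'.mulVec (H.mulVec (Pi.single (ia r) 1)))
        ((B t).mulVec (H.mulVec (Pi.single (ib r) 1))) : ℝ) : ℂ)))) t := by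
  have hcA : ∀ i j, HasDerivAt (fun t => (Matrix.map (A t) (fun y : ℝ => (y : ℂ))) i j) ((Matrix.map A' (fun y : ℝ => (y : ℂ))) i j) t :=
    fun i j => (hA i j).ofReal_comp
  have hcB : ∀ i j, HasDerivAt (fun t => (Matrix.map (B t) (fun y : ℝ => (y : ℂ))) i j) ((Matrix.map B' (fun y : ℝ => (y : ℂ))) i j) t :=
    fun i j => (hB i j).ofReal_comp
  have hUA := hasDerivAt_mulVec hcA (epl H)
  have hUB := hasDerivAt_mulVec hcB (epl H)
  have hVB := hasDerivAt_mulVec hcB (emi H)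
  have hz := (hasDerivAt_lor hUA hVB).const_mul (algebraMap ℂ ℂ (1 / 2))
  set z' := algebraMap ℂ ℂ (1 / 2) * (lor ((Matrix.map A' (fun y : ℝ => (y : ℂ))).mulVec (epl H)) ((Matrix.map (B t) (fun y : ℝ => (y : ℂ))).mulVec (emi H)) +
    lor ((Matrix.map (A t) (fun y : ℝ => (y : ℂ))).mulVec (epl H)) ((Matrix.map B' (fun y : ℝ => (y : ℂ))).mulVec (emi H))) with hz'
  have hz1 : HasDerivAt (fun t => zz H (Matrix.map (A t) (fun y : ℝ => (y : ℂ))) (Matrix.map (B t) (fun y : ℝ => (y : ℂ)))) z' t := hz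
  have htI : t ∈ Set.Icc (0:ℝ) 1 := ⟨ht.1.le, ht.2.le⟩
  obtain ⟨hr1, hr2, hr3⟩ := hrot t htI
  have hder : (Matrix.map A' (fun y : ℝ => (y : ℂ))).mulVec (epl H) = z' • (Matrix.map (B t) (fun y : ℝ => (y : ℂ))).mulVec (epl H) +
      zz H (Matrix.map (A t) (fun y : ℝ => (y : ℂ))) (Matrix.map (B t) (fun y : ℝ => (y : ℂ))) • (Matrix.map B' (fun y : ℝ => (y : ℂ))).mulVec (epl H) := by
    ext i
    have h1 := hUA i
    have h2 := hz1.mul (hUB i)
    have h3 : HasDerivAt (fun t => (Matrix.map (A t) (fun y : ℝ => (y : ℂ))).mulVec (epl H) i)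
        (z' * (Matrix.map (B t) (fun y : ℝ => (y : ℂ))).mulVec (epl H) i +
          zz H (Matrix.map (A t) (fun y : ℝ => (y : ℂ))) (Matrix.map (B t) (fun y : ℝ => (y : ℂ))) * (Matrix.map B' (fun y : ℝ => (y : ℂ))).mulVec (epl H) i) t := by
      refine h2.congr_of_eventuallyEq ?_
      filter_upwards [Icc_mem_nhds ht.1 ht.2] with t' ht'
      rw [(hrot t' ht').2.1]
      rfl
    exact h1.unique h3
  have hkey : lor ((Matrix.map A' (fun y : ℝ => (y : ℂ))).mulVec (epl H)) ((Matrix.map (A t) (fun y : ℝ => (y : ℂ))).mulVec (emi H)) =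
      z' * zz H (Matrix.map (B t) (fun y : ℝ => (y : ℂ))) (Matrix.map (A t) (fun y : ℝ => (y : ℂ))) * 2 +
      lor ((Matrix.map B' (fun y : ℝ => (y : ℂ))).mulVec (epl H)) ((Matrix.map (B t) (fun y : ℝ => (y : ℂ))).mulVec (emi H)) := by
    rw [hder, hr3, lor_smul_right, lor_add_left, lor_smul_left, lor_smul_left,
      lor_epl_emi H hH (B t) (hBso t htI)]
    linear_combination (lor ((Matrix.map B' (fun y : ℝ => (y : ℂ))).mulVec (epl H)) ((Matrix.map (B t) (fun y : ℝ => (y : ℂ))).mulVec (emi H))) * hr1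
  rw [lor_vel H A A' ht hA hAso, lor_vel H B B' ht hB hBso] at hkey
  refine hz1.congr_deriv ?_
  push_cast
  linear_combination (-z') * hr1 - (zz H (Matrix.map (A t) (fun y : ℝ => (y : ℂ))) (Matrix.map (B t) (fun y : ℝ => (y : ℂ))) / 2) * hkey

theorem exists_int_multiple {ι : Type*} [Finite ι] (f : ι → ℚ) :
    ∃ (N : ℤ) (e : ι → ℤ), N ≠ 0 ∧ ∀ i, (e i : ℚ) = N * f i := by
  obtain ⟨b, hb⟩ := IsLocalization.exist_integer_multiples_of_finite (nonZeroDivisors ℤ) f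
  choose e he using hb
  refine ⟨b, e, nonZeroDivisors.ne_zero b.2, fun i => ?_⟩
  have := he i
  rw [zsmul_eq_mul] at this
  rw [← this]
  simp

theorem arc_sum_zero
    (conf_rot : ∀ {K : Type} [Field K] [Algebra ℂ K] {r m : ℕ} (_ : Fin m → Fin (r+3) → ℝ)
      (x : Fin (r+1) → Fin (r+1) → ℝ) (h : Matrix (Fin (r+3)) (Fin (r+3)) ℝ) (_ : IsSO h)
      (_ : (Matrix.of x).det ≠ 0)
      (g g' : Matrix (Fin (r+3)) (Fin (r+3)) K) (_ : IsSO g) (_ : IsSO g')
      (_ : ∀ i, g.mulVec (fun l => reHom K (h.mulVec (pad (x i)) l)) =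
        g'.mulVec (fun l => reHom K (h.mulVec (pad (x i)) l))),
      zz h g g' * zz h g' g = 1 ∧ g.mulVec (epl h) = zz h g g' • g'.mulVec (epl h) ∧
        g.mulVec (emi h) = zz h g' g • g'.mulVec (emi h))
    (finite_values : ∀ {r m : ℕ} (v : Fin m → Fin (r+3) → ℝ) (c : (Fin (r+2) → Fin m) → ℤ)
      (T : Finset (Fin (r+1) → Fin m))
      (h : (Fin (r+1) → Fin m) → Matrix (Fin (r+3)) (Fin (r+3)) ℝ)
      (x : (Fin (r+1) → Fin m) → Fin (r+1) → Fin (r+1) → ℝ)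
      (ref : (Fin (r+1) → Fin m) → Finset (Fin m)) (_ : FaceData v c T h x ref)
      (e : (Fin (r+1) → Fin m) → ℤ)
      (_ : ∀ (K : Type) [Field K] [Algebra ℂ K] (κ : Type) [Field κ] (p : Place K κ)
        (g : Finset (Fin m) → Matrix (Fin (r+3)) (Fin (r+3)) K), IsConf (reHom K) v c g →
        ∀ n : (Fin (r+1) → Fin m) → Finset (Fin m) → ℤ,
        (∀ τ ∈ T, ∀ s ∈ supp c, (∀ i, τ i ∈ s) →
          p.t ^ (-(n τ s)) * zz (h τ) (g s) (g (ref τ)) ∈ p.O ∧
          (p.t ^ (-(n τ s)) * zz (h τ) (g s) (g (ref τ)))⁻¹ ∈ p.O) →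
        ∑ τ ∈ T, e τ * ∑ q, c (Fin.cons q τ) * n τ (rng (Fin.cons q τ : Fin (r+2) → Fin m)) = 0),
      ∃ F : Finset ℂ, ∀ g : Finset (Fin m) → Matrix (Fin (r+3)) (Fin (r+3)) ℝ,
        IsConf (RingHom.id ℝ) v c g →
        (∏ τ ∈ T, ∏ q : Fin m, (zz (h τ)
          ((g (rng (Fin.cons q τ : Fin (r+2) → Fin m))).map (fun y : ℝ => (y : ℂ)))
          ((g (ref τ)).map (fun y : ℝ => (y : ℂ)))) ^ (e τ * c (Fin.cons q τ))) ∈ F)
    (place_sum_zero : ∀ {K : Type} [Field K] [Algebra ℂ K] {κ : Type} [Field κ] (p : Place K κ)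
      {r m : ℕ} (_ : 1 ≤ r)
      (v : Fin m → Fin (r+3) → ℝ) (_ : ∀ j, Fut (v j)) (c : (Fin (r+2) → Fin m) → ℤ)
      (_ : ∀ (σ : Fin (r+2) → Fin m) (π : Equiv.Perm (Fin (r+2))),
        c (σ ∘ π) = ((Equiv.Perm.sign π : ℤˣ) : ℤ) * c σ)
      (_ : ∀ τ : Fin (r+1) → Fin m, ∑ q, c (Fin.cons q τ) = 0)
      (T : Finset (Fin (r+1) → Fin m))
      (h : (Fin (r+1) → Fin m) → Matrix (Fin (r+3)) (Fin (r+3)) ℝ)
      (x : (Fin (r+1) → Fin m) → Fin (r+1) → Fin (r+1) → ℝ)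
      (ref : (Fin (r+1) → Fin m) → Finset (Fin m)) (_ : FaceData v c T h x ref)
      (g : Finset (Fin m) → Matrix (Fin (r+3)) (Fin (r+3)) K) (_ : IsConf (reHom K) v c g)
      (n : (Fin (r+1) → Fin m) → Finset (Fin m) → ℤ)
      (_ : ∀ τ ∈ T, ∀ s ∈ supp c, (∀ i, τ i ∈ s) →
          p.t ^ (-(n τ s)) * zz (h τ) (g s) (g (ref τ)) ∈ p.O ∧
          (p.t ^ (-(n τ s)) * zz (h τ) (g s) (g (ref τ)))⁻¹ ∈ p.O),
      ∑ τ ∈ T, I0 (gram fun i => v (τ i)) * (Matrix.of (x τ)).det *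
        ((∑ q, c (Fin.cons q τ) * n τ (rng (Fin.cons q τ : Fin (r+2) → Fin m)) : ℤ) : ℝ) = 0)
    {r m : ℕ} (hr : 1 ≤ r)
    (v : Fin m → Fin (r+3) → ℝ) (hv : ∀ j, Fut (v j)) (c : (Fin (r+2) → Fin m) → ℤ)
    (hcalt : ∀ (σ : Fin (r+2) → Fin m) (π : Equiv.Perm (Fin (r+2))),
      c (σ ∘ π) = ((Equiv.Perm.sign π : ℤˣ) : ℤ) * c σ)
    (hccyc : ∀ τ : Fin (r+1) → Fin m, ∑ q, c (Fin.cons q τ) = 0)
    (T : Finset (Fin (r+1) → Fin m))
    (h : (Fin (r+1) → Fin m) → Matrix (Fin (r+3)) (Fin (r+3)) ℝ)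
    (x : (Fin (r+1) → Fin m) → Fin (r+1) → Fin (r+1) → ℝ)
    (ref : (Fin (r+1) → Fin m) → Finset (Fin m)) (hD : FaceData v c T h x ref)
    (g g' : ℝ → Finset (Fin m) → Matrix (Fin (r+3)) (Fin (r+3)) ℝ)
    (hg : ∀ t ∈ Set.Icc (0:ℝ) 1, IsConf (RingHom.id ℝ) v c (g t))
    (hg' : ∀ t ∈ Set.Icc (0:ℝ) 1, ∀ s i j, HasDerivAt (fun t => g t s i j) (g' t s i j) t)
    (t : ℝ) (ht : t ∈ Set.Ioo (0:ℝ) 1) :
    ∑ τ ∈ T, I0 (gram fun i => v (τ i)) * (Matrix.of (x τ)).det *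
      (∑ q, (c (Fin.cons q τ) : ℝ) *
        lor ((g' t (rng (Fin.cons q τ : Fin (r+2) → Fin m))).mulVec ((h τ).mulVec (Pi.single (ia r) 1)))
          ((g t (rng (Fin.cons q τ : Fin (r+2) → Fin m))).mulVec ((h τ).mulVec (Pi.single (ib r) 1)))) = 0 := by
  classical
  have htI : t ∈ Set.Icc (0:ℝ) 1 := ⟨ht.1.le, ht.2.le⟩
  -- reduction to rational linear functionals
  refine sum_eq_zero_of_rat T (fun τ => I0 (gram fun i => v (τ i)) * (Matrix.of (x τ)).det) _
    fun f => ?_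
  obtain ⟨N, e, hN, he⟩ := exists_int_multiple
    (fun τ : Fin (r+1) → Fin m => f (I0 (gram fun i => v (τ i)) * (Matrix.of (x τ)).det))
  -- membership in the support
  have hsupp : ∀ (τ : Fin (r+1) → Fin m) (q : Fin m), c (Fin.cons q τ) ≠ 0 →
      rng (Fin.cons q τ : Fin (r+2) → Fin m) ∈ supp c ∧
      ∀ i, τ i ∈ rng (Fin.cons q τ : Fin (r+2) → Fin m) := by
    intro τ q hc
    refine ⟨⟨_, hc, rfl⟩, fun i => ?_⟩
    unfold rng
    exact Finset.mem_image.2 ⟨i.succ, Finset.mem_univ _, by simp⟩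
  -- finitely many values
  obtain ⟨F, hF⟩ := finite_values v c T h x ref hD e (by
    intro K _ _ κ _ p gK hgK n hn
    have h1 := place_sum_zero p hr v hv c hcalt hccyc T h x ref hD gK hgK n hn
    have h2 := congrArg f h1
    rw [map_sum, map_zero] at h2
    have h3 : ∀ τ, f (I0 (gram fun i => v (τ i)) * (Matrix.of (x τ)).det *
        ((∑ q, c (Fin.cons q τ) * n τ (rng (Fin.cons q τ : Fin (r+2) → Fin m)) : ℤ) : ℝ)) =
        ((∑ q, c (Fin.cons q τ) * n τ (rng (Fin.cons q τ : Fin (r+2) → Fin m)) : ℤ) : ℚ) *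
        f (I0 (gram fun i => v (τ i)) * (Matrix.of (x τ)).det) := by
      intro τ
      rw [mul_comm, ← zsmul_eq_mul, map_zsmul, zsmul_eq_mul]
    simp only [h3] at h2
    have h4 : ((∑ τ ∈ T, e τ * ∑ q, c (Fin.cons q τ) *
        n τ (rng (Fin.cons q τ : Fin (r+2) → Fin m)) : ℤ) : ℚ) = 0 := by
      rw [Int.cast_sum]
      simp only [Int.cast_mul, he]
      have h5 := congrArg (fun z : ℚ => (N : ℚ) * z) h2
      simp only [mul_zero, Finset.mul_sum] at h5
      rw [← h5]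
      exact Finset.sum_congr rfl fun τ _ => by ring
    exact_mod_cast h4)
  -- rotations
  have hrot : ∀ τ ∈ T, ∀ s ∈ supp c, (∀ i, τ i ∈ s) → ∀ t ∈ Set.Icc (0:ℝ) 1,
      zz (h τ) (Matrix.map (g t s) (fun y : ℝ => (y : ℂ))) (Matrix.map (g t (ref τ)) (fun y : ℝ => (y : ℂ))) * zz (h τ) (Matrix.map (g t (ref τ)) (fun y : ℝ => (y : ℂ))) (Matrix.map (g t s) (fun y : ℝ => (y : ℂ))) = 1 ∧
      (Matrix.map (g t s) (fun y : ℝ => (y : ℂ))).mulVec (epl (h τ)) = zz (h τ) (Matrix.map (g t s) (fun y : ℝ => (y : ℂ))) (Matrix.map (g t (ref τ)) (fun y : ℝ => (y : ℂ))) •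
        (Matrix.map (g t (ref τ)) (fun y : ℝ => (y : ℂ))).mulVec (epl (h τ)) ∧
      (Matrix.map (g t s) (fun y : ℝ => (y : ℂ))).mulVec (emi (h τ)) = zz (h τ) (Matrix.map (g t (ref τ)) (fun y : ℝ => (y : ℂ))) (Matrix.map (g t s) (fun y : ℝ => (y : ℂ))) •
        (Matrix.map (g t (ref τ)) (fun y : ℝ => (y : ℂ))).mulVec (emi (h τ)) := by
    intro τ hτ s hs hτs t ht
    refine conf_rot v (x τ) (h τ) (hD.so τ hτ) (hD.det_pos τ hτ).ne' _ _
      (cx_isSO ((hg t ht).so s hs)) (cx_isSO ((hg t ht).so _ (hD.ref_mem τ hτ))) ?_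
    intro i
    have h1 := (hg t ht).inc s hs (ref τ) (hD.ref_mem τ hτ) (τ i) (hτs i) (hD.ref_sub τ hτ i)
    have h2 : ∀ M : Matrix (Fin (r+3)) (Fin (r+3)) ℝ,
        (Matrix.map M (fun y : ℝ => (y : ℂ))).mulVec (fun l => reHom ℂ ((h τ).mulVec (pad (x τ i)) l)) =
        fun l => ((M.mulVec (v (τ i)) l : ℝ) : ℂ) := by
      intro M
      rw [hD.coord τ hτ i]
      ext l
      simp only [Matrix.mulVec, dotProduct, Matrix.map_apply, reHom, RingHom.comp_apply,
        Algebra.algebraMap_self, RingHom.id_apply, Complex.ofRealHom_eq_coe]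
      push_cast
      rfl
    rw [h2, h2]
    ext l
    congr 1
    exact congrFun h1 l
  have hne : ∀ τ ∈ T, ∀ s ∈ supp c, (∀ i, τ i ∈ s) → ∀ t ∈ Set.Icc (0:ℝ) 1,
      zz (h τ) (Matrix.map (g t s) (fun y : ℝ => (y : ℂ))) (Matrix.map (g t (ref τ)) (fun y : ℝ => (y : ℂ))) ≠ 0 := by
    intro τ hτ s hs hτs t ht h0
    have := (hrot τ hτ s hs hτs t ht).1
    rw [h0, zero_mul] at this
    exact zero_ne_one this
  -- the product
  let W : ℝ → ℂ := fun t => ∏ τ ∈ T, ∏ q : Fin m, (zz (h τ)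
          (Matrix.map (g t (rng (Fin.cons q τ : Fin (r+2) → Fin m))) (fun y : ℝ => (y : ℂ))) (Matrix.map (g t (ref τ)) (fun y : ℝ => (y : ℂ)))) ^
          (e τ * c (Fin.cons q τ))
  have hWF : Set.MapsTo W (Set.Icc (0:ℝ) 1) (F : Set ℂ) := fun t ht => hF (g t) (hg t ht)
  have hcont : ContinuousOn W (Set.Icc (0:ℝ) 1) := by
    refine continuousOn_finsetProd _ fun τ hτ => continuousOn_finsetProd _ fun q _ => ?_
    by_cases hc : c (Fin.cons q τ) = 0
    · simp only [hc, mul_zero, zpow_zero]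
      exact continuousOn_const
    · obtain ⟨hs, hτs⟩ := hsupp τ q hc
      refine ContinuousOn.zpow₀ ?_ _ fun t ht => Or.inl (hne τ hτ _ hs hτs t ht)
      intro t' ht'
      have hcA : ∀ s i j, HasDerivAt (fun t => (Matrix.map (g t s) (fun y : ℝ => (y : ℂ))) i j) ((Matrix.map (g' t' s) (fun y : ℝ => (y : ℂ))) i j) t' :=
        fun s i j => (hg' t' ht' s i j).ofReal_comp
      exact (((hasDerivAt_lor (hasDerivAt_mulVec (hcA _) (epl (h τ)))
        (hasDerivAt_mulVec (hcA _) (emi (h τ)))).const_mul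
          (algebraMap ℂ ℂ (1 / 2))).continuousAt).continuousWithinAt
  have hconst : ∀ t' ∈ Set.Icc (0:ℝ) 1, W t' = W t := by
    intro t' ht'
    exact (isPreconnected_Icc).constant_of_mapsTo F.finite_toSet.isDiscrete hcont hWF ht' htI
  have hWne : W t ≠ 0 := by
    refine Finset.prod_ne_zero_iff.2 fun τ hτ => Finset.prod_ne_zero_iff.2 fun q _ => ?_
    by_cases hc : c (Fin.cons q τ) = 0
    · rw [hc, mul_zero, zpow_zero]
      exact one_ne_zero
    · obtain ⟨hs, hτs⟩ := hsupp τ q hc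
      exact zpow_ne_zero _ (hne τ hτ _ hs hτs t htI)
  -- its derivative
  let th : (Fin (r+1) → Fin m) → Finset (Fin m) → ℝ := fun τ s =>
    lor ((g' t s).mulVec ((h τ).mulVec (Pi.single (ia r) 1)))
      ((g t s).mulVec ((h τ).mulVec (Pi.single (ib r) 1)))
  have hder : HasDerivAt W (W t * ∑ τ ∈ T, ∑ q : Fin m, (((e τ * c (Fin.cons q τ) : ℤ) : ℂ) *
      (-Complex.I * ((th τ (rng (Fin.cons q τ : Fin (r+2) → Fin m)) - th τ (ref τ) : ℝ) : ℂ)))) t := by
    refine hasDerivAt_prod_log T _ _ t fun τ hτ => ?_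
    refine hasDerivAt_prod_log _ (fun q t => zz (h τ)
          (Matrix.map (g t (rng (Fin.cons q τ : Fin (r+2) → Fin m))) (fun y : ℝ => (y : ℂ))) (Matrix.map (g t (ref τ)) (fun y : ℝ => (y : ℂ))) ^
          (e τ * c (Fin.cons q τ))) _ t fun q _ => ?_
    by_cases hc : c (Fin.cons q τ) = 0
    · simp only [hc, mul_zero, zpow_zero, Int.cast_zero, zero_mul]
      exact hasDerivAt_const t (1 : ℂ)
    · obtain ⟨hs, hτs⟩ := hsupp τ q hc
      have hz := log_deriv_zz (h τ) (hD.so τ hτ) (fun t => g t (rng (Fin.cons q τ : Fin (r+2) → Fin m)))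
        (fun t => g t (ref τ)) (g' t (rng (Fin.cons q τ : Fin (r+2) → Fin m))) (g' t (ref τ)) ht
        (hg' t htI _) (hg' t htI _) (fun t ht => (hg t ht).so _ hs)
        (fun t ht => (hg t ht).so _ (hD.ref_mem τ hτ)) (hrot τ hτ _ hs hτs)
      exact hasDerivAt_zpow_log hz (hne τ hτ _ hs hτs t htI) _
  have hder0 : HasDerivAt W 0 t := by
    refine (hasDerivAt_const t (W t)).congr_of_eventuallyEq ?_
    filter_upwards [Icc_mem_nhds ht.1 ht.2] with t' ht'
    exact hconst t' ht'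
  have hsum := (mul_eq_zero.1 (hder.unique hder0)).resolve_left hWne
  have hsum2 : ∑ τ ∈ T, ∑ q : Fin m, ((e τ * c (Fin.cons q τ) : ℤ) : ℝ) *
      (th τ (rng (Fin.cons q τ : Fin (r+2) → Fin m)) - th τ (ref τ)) = 0 := by
    have h1 : ((∑ τ ∈ T, ∑ q : Fin m, ((e τ * c (Fin.cons q τ) : ℤ) : ℝ) *
      (th τ (rng (Fin.cons q τ : Fin (r+2) → Fin m)) - th τ (ref τ)) : ℝ) : ℂ) = 0 := by
      have h2 := congrArg (fun z : ℂ => Complex.I * z) hsum
      simp only [mul_zero, Finset.mul_sum] at h2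
      rw [← h2]
      push_cast
      refine Finset.sum_congr rfl fun τ _ => Finset.sum_congr rfl fun q _ => ?_
      linear_combination ((e τ : ℂ) * (c (Fin.cons q τ) : ℂ) *
        ((th τ (rng (Fin.cons q τ : Fin (r+2) → Fin m)) : ℂ) - (th τ (ref τ) : ℂ))) * Complex.I_sq
    exact_mod_cast h1
  have hsum3 : ∀ τ, ∑ q : Fin m, ((e τ * c (Fin.cons q τ) : ℤ) : ℝ) *
      (th τ (rng (Fin.cons q τ : Fin (r+2) → Fin m)) - th τ (ref τ)) =
      (e τ : ℝ) * ∑ q : Fin m, (c (Fin.cons q τ) : ℝ) *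
        th τ (rng (Fin.cons q τ : Fin (r+2) → Fin m)) := by
    intro τ
    have h1 : (∑ q : Fin m, (c (Fin.cons q τ) : ℝ)) = 0 := by
      have := hccyc τ
      exact_mod_cast this
    calc _ = (e τ : ℝ) * ∑ q : Fin m, (c (Fin.cons q τ) : ℝ) *
        th τ (rng (Fin.cons q τ : Fin (r+2) → Fin m)) -
        (e τ : ℝ) * th τ (ref τ) * ∑ q : Fin m, (c (Fin.cons q τ) : ℝ) := by
          rw [Finset.mul_sum, Finset.mul_sum, ← Finset.sum_sub_distrib]
          refine Finset.sum_congr rfl fun q _ => ?_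
          push_cast
          ring
      _ = _ := by rw [h1, mul_zero, sub_zero]
  simp only [hsum3] at hsum2
  have hNR : (N : ℝ) ≠ 0 := by exact_mod_cast hN
  have h6 : (N : ℝ) * ∑ τ ∈ T, ((f (I0 (gram fun i => v (τ i)) * (Matrix.of (x τ)).det) : ℚ) : ℝ) *
      (∑ q : Fin m, (c (Fin.cons q τ) : ℝ) *
        th τ (rng (Fin.cons q τ : Fin (r+2) → Fin m))) = 0 := by
    rw [← hsum2, Finset.mul_sum]
    refine Finset.sum_congr rfl fun τ _ => ?_
    have := he τ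
    have h7 : (e τ : ℝ) = (N : ℝ) *
        ((f (I0 (gram fun i => v (τ i)) * (Matrix.of (x τ)).det) : ℚ) : ℝ) := by
      exact_mod_cast congrArg (fun z : ℚ => (z : ℝ)) this
    rw [h7]
    ring
  exact (mul_eq_zero.1 h6).resolve_left hNR

end Pool.Agent.W576.Arc
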