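import Pool.Agent.W576.PlaceSum
import Pool.Agent.W365.ConfRot
import Pool.Agent.W358.BelS16
import Pool.Agent.W576.Arc
import Pool.Agent.W31.BelArc
import Pool.Agent.W31.BelGen

/-!
# The bellows theorem for simplicial cycles in hyperbolic space
-/

namespace Pool.Agent.W576

theorem conf_rot' : Pool.Agent.W358.Bel.ConfRot := by
  intro K _ _ r m v x h hh hx g g' hg hg' hinc
  exact Pool.Agent.W365.ConfRot.conf_rot v x h hh hx g g' hg hg' hinc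

theorem arc_sum_zero {r m : ℕ} (hr : 1 ≤ r)
    (v : Fin m → Fin (r+3) → ℝ) (hv : ∀ j, Fut (v j)) (c : (Fin (r+2) → Fin m) → ℤ)
    (hcalt : ∀ (σ : Fin (r+2) → Fin m) (π : Equiv.Perm (Fin (r+2))),
      c (σ ∘ π) = ((Equiv.Perm.sign π : ℤˣ) : ℤ) * c σ)
    (hccyc : ∀ τ : Fin (r+1) → Fin m, ∑ q, c (Fin.cons q τ) = 0)
    (T : Finset (Fin (r+1) → Fin m))
    (h : (Fin (r+1) → Fin m) → Matrix (Fin (r+3)) (Fin (r+3)) ℝ)
    (x : (Fin (r+1) → Fin m) → Fin (r+1) → Fin (r+1) → ℝ)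
    (ref : (Fin (r+1) → Fin m) → Finset (Fin m)) (hD : FaceData v c T h x ref)
    (g g' : ℝ → Finset (Fin m) → Matrix (Fin (r+3)) (Fin (r+3)) ℝ)
    (hg : ∀ t ∈ Set.Icc (0:ℝ) 1, IsConf (RingHom.id ℝ) v c (g t))
    (hg' : ∀ t ∈ Set.Icc (0:ℝ) 1, ∀ s i j, HasDerivAt (fun t => g t s i j) (g' t s i j) t)
    (t : ℝ) (ht : t ∈ Set.Ioo (0:ℝ) 1) :
    ∑ τ ∈ T, I0 (gram fun i => v (τ i)) * (Matrix.of (x τ)).det *
      (∑ q, (c (Fin.cons q τ) : ℝ) *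
        lor ((g' t (rng (Fin.cons q τ : Fin (r+2) → Fin m))).mulVec ((h τ).mulVec (Pi.single (ia r) 1)))
          ((g t (rng (Fin.cons q τ : Fin (r+2) → Fin m))).mulVec ((h τ).mulVec (Pi.single (ib r) 1)))) = 0 := by
  refine Pool.Agent.W576.Arc.arc_sum_zero ?_ ?_ ?_ hr v hv c hcalt hccyc T h x ref hD g g' hg hg'
    t ht
  · intro K _ _ r m v x h hh hx g g' hg hg' hinc
    exact Pool.Agent.W365.ConfRot.conf_rot v x h hh hx g g' hg hg' hinc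
  · intro r m v c T h x ref hD e H
    exact Pool.Agent.W358.Bel.finite_values conf_rot' v c T h x ref hD e H
  · intro K _ _ κ _ p r m hr v hv c hcalt hccyc T h x ref hD g hg n hn
    exact place_sum_zero p hr v hv c hcalt hccyc T h x ref hD g hg n hn

theorem vol_arc_const {r m : ℕ} (hr : 1 ≤ r)
    (v : Fin m → Fin (r+3) → ℝ) (hv : ∀ j, Fut (v j)) (c : (Fin (r+2) → Fin m) → ℤ)
    (hcalt : ∀ (σ : Fin (r+2) → Fin m) (π : Equiv.Perm (Fin (r+2))),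
      c (σ ∘ π) = ((Equiv.Perm.sign π : ℤˣ) : ℤ) * c σ)
    (hccyc : ∀ τ : Fin (r+1) → Fin m, ∑ q, c (Fin.cons q τ) = 0)
    (g g' : ℝ → Finset (Fin m) → Matrix (Fin (r+3)) (Fin (r+3)) ℝ)
    (hg : ∀ t ∈ Set.Icc (0:ℝ) 1, IsConf (RingHom.id ℝ) v c (g t))
    (hpos : ∀ t ∈ Set.Icc (0:ℝ) 1, ∀ s, 0 < g t s 0 0)
    (hg' : ∀ t ∈ Set.Icc (0:ℝ) 1, ∀ s i j, HasDerivAt (fun t => g t s i j) (g' t s i j) t) :
    ∑ σ : Fin (r+2) → Fin m, (c σ : ℝ) *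
      SV (Fin.cons (Pi.single 0 1) (fun i => (g 0 (rng σ)).mulVec (v (σ i))) :
        Fin (r+3) → Fin (r+3) → ℝ)
    = ∑ σ : Fin (r+2) → Fin m, (c σ : ℝ) *
      SV (Fin.cons (Pi.single 0 1) (fun i => (g 1 (rng σ)).mulVec (v (σ i))) :
        Fin (r+3) → Fin (r+3) → ℝ) := by
  refine Pool.Agent.W31.Bel.vol_arc_const ?_ hr v hv c hcalt hccyc g g' hg hpos hg'
  intro r m hr v hv c hcalt hccyc T h x ref hD g g' hg hg' t ht
  exact arc_sum_zero hr v hv c hcalt hccyc T h x ref hD g g' hg hg' t ht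

theorem bellows_general {r m : ℕ} (hr : 1 ≤ r) (c : (Fin (r+2) → Fin m) → ℤ)
    (hcalt : ∀ (σ : Fin (r+2) → Fin m) (π : Equiv.Perm (Fin (r+2))),
      c (σ ∘ π) = ((Equiv.Perm.sign π : ℤˣ) : ℤ) * c σ)
    (hccyc : ∀ τ : Fin (r+1) → Fin m, ∑ q, c (Fin.cons q τ) = 0)
    (y : ℝ → Fin m → Fin (r+3) → ℝ) (hy : Continuous y) (hF : ∀ t j, Fut (y t j))
    (hG : ∀ σ, c σ ≠ 0 → ∀ i j s t, lor (y s (σ i)) (y s (σ j)) = lor (y t (σ i)) (y t (σ j)))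
    (s t : ℝ) :
    ∑ σ : Fin (r+2) → Fin m, (c σ : ℝ) *
      SV (Fin.cons (Pi.single 0 1) (fun i => y s (σ i)) : Fin (r+3) → Fin (r+3) → ℝ)
    = ∑ σ : Fin (r+2) → Fin m, (c σ : ℝ) *
      SV (Fin.cons (Pi.single 0 1) (fun i => y t (σ i)) : Fin (r+3) → Fin (r+3) → ℝ) := by
  refine Pool.Agent.W31.Bel.bellows_general ?_ hr c hcalt hccyc y hy hF hG s t
  intro r m hr v hv c hcalt hccyc g g' hg hpos hg'
  exact vol_arc_const hr v hv c hcalt hccyc g g' hg hpos hg'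

end Pool.Agent.W576
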