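import Pool.Agent.W982.TA.Stm2

/-!
# Min-max area triangulations: soundness of tiles
-/

set_option autoImplicit false

namespace Pool.Agent.W982.TA

theorem s13_sigma (n : ℕ) (f : ℕ → Bool) :
    ∃ σ : ℕ, σ < 2 ^ n ∧ ∀ i < n, σ.testBit i = f i := by
  refine ⟨Nat.ofBits (fun i : Fin n => f i), Nat.ofBits_lt_two_pow _, ?_⟩
  intro i hi
  rw [Nat.testBit_ofBits_lt _ _ hi]

theorem s13_lt {α : Type} {l : List (List α)} {i : ℕ} {x : α} (h : x ∈ l.getD i []) :
    i < l.length ∧ l.getD i [] ∈ l := by
  by_cases hi : i < l.length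
  · refine ⟨hi, ?_⟩
    rw [List.getD_eq_getElem _ _ hi]
    exact List.getElem_mem hi
  · exfalso
    rw [List.getD_eq_default _ _ (by omega)] at h
    simp at h

theorem s13 (h10 : TaskS10) (h12 : TaskS12) : TaskS13 := by
  intro X Y M e o T hM hP hbd hT
  unfold tileOK at hT
  simp only [Bool.and_eq_true, List.all_eq_true] at hT
  obtain ⟨⟨⟨hcomp, hclaim⟩, hgoal⟩, -⟩ := hT
  have hc : ∀ i : ℕ, ∃ b : Bool, ∀ q ∈ T.comps.getD i [],
      if b = true then 0 < sg e (o.1 + q.1, o.2 + q.2) else sg e (o.1 + q.1, o.2 + q.2) < 0 := by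
    intro i
    by_cases hi : i < T.comps.length
    · have hmem : T.comps.getD i [] ∈ T.comps := by
        rw [List.getD_eq_getElem _ _ hi]
        exact List.getElem_mem hi
      exact h12 X Y M e o T.pat _ hM hP (hcomp _ hmem)
    · refine ⟨true, ?_⟩
      intro q hq
      rw [List.getD_eq_default _ _ (by omega)] at hq
      simp at hq
  choose f hf using hc
  obtain ⟨σ, hσ, hbits⟩ := s13_sigma T.comps.length f
  have hsig : ∀ (i : ℕ) (q : ℕ × ℕ), q ∈ T.comps.getD i [] →
      if σ.testBit i = true then 0 < sg e (o.1 + q.1, o.2 + q.2)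
        else sg e (o.1 + q.1, o.2 + q.2) < 0 := by
    intro i q hq
    rw [hbits i (s13_lt hq).1]
    exact hf i q hq
  have hviol : ∀ c ∈ T.claims, viol σ c = true → False := by
    intro c hc hv
    have hk := hclaim c hc
    unfold claimOK at hk
    rw [Bool.and_eq_true] at hk
    obtain ⟨hk1, hk2⟩ := hk
    rw [List.all_eq_true] at hk1
    refine h10 X Y M e o T.pat c.bd c.cells c.cert hM hP (hbd c hc) ?_ hk2
    intro q hq
    have h := hk1 q hq
    rw [Bool.or_eq_true, decide_eq_true_eq, List.any_eq_true] at h
    rcases h with h | ⟨a, ha, h⟩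
    · unfold SgOK
      rw [h]
      exact ⟨fun h' => absurd h' (by norm_num), fun h' => absurd h' (by norm_num)⟩
    · rw [Bool.and_eq_true, decide_eq_true_eq, List.contains_iff_mem] at h
      obtain ⟨ha2, hmem⟩ := h
      have hb : σ.testBit a.1 = a.2 := by
        unfold viol at hv
        rw [List.all_eq_true] at hv
        have := hv a ha
        simpa using this
      have hs := hsig a.1 (q.1, q.2.1) hmem
      rw [hb] at hs
      unfold SgOK
      rw [ha2]
      cases h2 : a.2
      · rw [h2] at hs
        refine ⟨fun h' => absurd h' (by norm_num), fun _ => ?_⟩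
        simpa using hs
      · rw [h2] at hs
        refine ⟨fun _ => ?_, fun h' => absurd h' (by norm_num)⟩
        simpa using hs
  constructor
  · intro g hg hall
    have hgo := hgoal g hg
    unfold goalOK at hgo
    rw [Bool.and_eq_true, List.all_eq_true, List.all_eq_true] at hgo
    obtain ⟨hg1, hg2⟩ := hgo
    have hg3 := hg2 σ (List.mem_range.2 hσ)
    rw [Bool.or_eq_true, List.any_eq_true, List.any_eq_true] at hg3
    rcases hg3 with ⟨c, hc, hv⟩ | ⟨a, ha, hne⟩
    · exact hviol c hc hv
    · have hmem := hg1 a ha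
      rw [List.contains_iff_mem] at hmem
      have hs := hsig a.1 a.2.1 hmem
      have hal := hall a ha
      unfold SgAt at hal
      have hne' : σ.testBit a.1 ≠ a.2.2 := by simpa using hne
      cases h1 : σ.testBit a.1 <;> cases h2 : a.2.2
      · exact hne' (h1.trans h2.symm)
      · rw [h1] at hs
        rw [h2] at hal
        simp only [if_true] at hal
        simp only [Bool.false_eq_true, if_false] at hs
        exact absurd hal (not_lt.2 hs.le)
      · rw [h1] at hs
        rw [h2] at hal
        simp only [if_true] at hs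
        simp only [Bool.false_eq_true, if_false] at hal
        exact absurd hs (not_lt.2 hal.le)
      · exact hne' (h1.trans h2.symm)
  · intro c hc q hq h0
    obtain ⟨b, hb⟩ := h12 X Y M e o T.pat c hM hP (hcomp c hc)
    have := hb q hq
    rw [h0] at this
    cases b <;> simp at this

end Pool.Agent.W982.TA
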