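import Pool.Agent.W217.BE.Stm3

/-!
Rank count along a free resolution of a torsion module over a domain.
-/

set_option autoImplicit false

namespace Pool.Agent.W576.BERKX

open Pool.Agent.W217.BE

theorem rn {B : Type} [CommRing B] [IsDomain B] {N : Type} [AddCommGroup N] [Module B N]
    {n : ℕ} (f : (Fin n → B) →ₗ[B] N) :
    Module.rank B (LinearMap.range f) < Cardinal.aleph0 ∧
    Module.finrank B (LinearMap.range f) + Module.finrank B (LinearMap.ker f) = n := by
  have h := LinearMap.rank_range_add_rank_ker f
  have h0 : Module.rank B (Fin n → B) = (n : Cardinal) := by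
    rw [rank_fun']
    simp
  rw [h0] at h
  have h1 : Module.rank B (LinearMap.range f) < Cardinal.aleph0 := by
    refine lt_of_le_of_lt ?_ (Cardinal.natCast_lt_aleph0 (n := n))
    rw [← h]
    exact self_le_add_right _ _
  have h2 : Module.rank B (LinearMap.ker f) < Cardinal.aleph0 := by
    refine lt_of_le_of_lt ?_ (Cardinal.natCast_lt_aleph0 (n := n))
    rw [← h]
    exact self_le_add_left _ _
  refine ⟨h1, ?_⟩
  rw [Module.finrank, Module.finrank, ← Cardinal.toNat_add h1 h2, h, Cardinal.toNat_natCast]

theorem main : RKX := by
  intro B _ _ N _ _ a ha haN r dX ε hres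
  obtain ⟨_, hk0, hk⟩ := hres
  have hε : Module.finrank B (LinearMap.range ε) = 0 := by
    have h1 : Module.rank B (LinearMap.range ε) = 0 := by
      rw [rank_eq_zero_iff]
      intro x
      refine ⟨a, ha, ?_⟩
      apply Subtype.ext
      exact haN x.1
    rw [Module.finrank, h1]
    simp
  have e0 := (rn ε).2
  rw [hε, ← hk0] at e0
  have e1 := (rn (dX 0)).2
  rw [← hk 0] at e1
  have e2 := (rn (dX 1)).2
  rw [← hk 1] at e2
  have e3 := (rn (dX 2)).2
  rw [← hk 2] at e3
  have e4 := (rn (dX 3)).2
  rw [← hk 3] at e4
  have e5 := (rn (dX 4)).2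
  constructor
  · rintro ⟨x, hx⟩
    have h3 : Module.finrank B (LinearMap.range (dX 2)) ≠ 0 := by
      intro h
      have h1 := (rn (dX 2)).1
      have h2 : Module.rank B (LinearMap.range (dX 2)) = 0 := by
        rw [Module.finrank, Cardinal.toNat_eq_zero] at h
        rcases h with h | h
        · exact h
        · exact absurd h1 (not_lt.2 h)
      rw [rank_eq_zero_iff] at h2
      obtain ⟨b, hb, hb2⟩ := h2 ⟨dX 2 x, x, rfl⟩
      have h4 : b • dX 2 x = 0 := congrArg Subtype.val hb2
      apply hx
      funext j
      have h5 := congrFun h4 j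
      exact (mul_eq_zero.1 h5).resolve_left hb
    change _ + _ = r 1 at e1
    change _ + Module.finrank B (LinearMap.range (dX 2)) = r 2 at e2
    change _ + Module.finrank B (LinearMap.range (dX 1)) = r 1 at e1
    have h6 : Module.finrank B (LinearMap.range (dX 0)) = r 0 := (zero_add _).symm.trans e0
    change Module.finrank B (LinearMap.range (dX 1)) + _ = r 2 at e2
    omega
  · intro h5
    change _ + Module.finrank B (LinearMap.range (dX 1)) = r 1 at e1
    change Module.finrank B (LinearMap.range (dX 1)) +
      Module.finrank B (LinearMap.range (dX 2)) = r 2 at e2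
    change Module.finrank B (LinearMap.range (dX 2)) +
      Module.finrank B (LinearMap.range (dX 3)) = r 3 at e3
    change Module.finrank B (LinearMap.range (dX 3)) +
      Module.finrank B (LinearMap.range (dX 4)) = r 4 at e4
    change Module.finrank B (LinearMap.range (dX 4)) + _ = r 5 at e5
    have h6 : Module.finrank B (LinearMap.range (dX 0)) = r 0 := (zero_add _).symm.trans e0
    omega

end Pool.Agent.W576.BERKX
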