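import Pool.Agent.W576.Split

/-!
# Orthogonal matrices over rings, and charts
-/

set_option linter.unusedSectionVars false

namespace Pool.Agent.W576

open Pool.Agent.W31.Bel

section so

variable {R : Type*} [CommRing R] {d : ℕ}

lemma lor_eq_dot (x y : Fin d → R) : lor x y = x ⬝ᵥ (Matrix.diagonal eta).mulVec y := by
  unfold lor dotProduct
  refine Finset.sum_congr rfl (fun i _ => ?_)
  rw [Matrix.mulVec_diagonal]; ring

lemma lor_single_left (i : Fin d) (y : Fin d → R) : lor (Pi.single i 1) y = eta i * y i := by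
  unfold lor
  rw [Finset.sum_eq_single i]
  · simp
  · intro b _ hb; simp [Pi.single_eq_of_ne hb]
  · simp

lemma lor_single_right (i : Fin d) (y : Fin d → R) : lor y (Pi.single i 1) = eta i * y i := by
  rw [lor_comm', lor_single_left]

lemma eta_mul_eta (i : Fin d) : (eta i : R) * eta i = 1 := by
  unfold eta; split_ifs <;> ring

lemma isSO_iff (g : Matrix (Fin d) (Fin d) R) :
    IsSO g ↔ g.transpose * Matrix.diagonal eta * g = Matrix.diagonal eta ∧ g.det = 1 := by
  unfold IsSO
  refine and_congr_left (fun _ => ?_)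
  constructor
  · intro h
    ext i j
    have h1 := h (Pi.single i 1) (Pi.single j 1)
    rw [lor_eq_dot, lor_eq_dot] at h1
    rw [Matrix.mul_assoc, Matrix.mul_apply]
    rw [Matrix.mulVec_single_one, Matrix.mulVec_single_one] at h1
    simp only [dotProduct, Matrix.mulVec_diagonal] at h1
    simp only [Matrix.diagonal_mul, Matrix.transpose_apply]
    have h2 : ∑ x, (Pi.single i (1:R) : Fin d → R) x * (eta x * (Pi.single j (1:R) : Fin d → R) x) =
        (Matrix.diagonal eta : Matrix (Fin d) (Fin d) R) i j := by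
      rw [Finset.sum_eq_single i]
      · rw [Matrix.diagonal_apply]
        by_cases hij : i = j
        · subst hij; simp
        · simp [hij]
      · intro b _ hb; simp [Pi.single_eq_of_ne hb]
      · simp
    rw [h2] at h1
    exact h1
  · intro h x y
    rw [lor_eq_dot, lor_eq_dot, Matrix.dotProduct_mulVec, Matrix.dotProduct_mulVec,
      Matrix.dotProduct_mulVec, ← Matrix.vecMul_transpose, Matrix.vecMul_vecMul,
      Matrix.vecMul_vecMul, ← Matrix.mul_assoc, h]

lemma IsSO.map {S : Type*} [CommRing S] {g : Matrix (Fin d) (Fin d) R} (hg : IsSO g) (f : R →+* S) :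
    IsSO (g.map f) := by
  rw [isSO_iff] at hg ⊢
  obtain ⟨h1, h2⟩ := hg
  have hJ : (Matrix.diagonal eta : Matrix (Fin d) (Fin d) R).map f = Matrix.diagonal eta := by
    ext i j
    simp only [Matrix.map_apply, Matrix.diagonal_apply]
    split_ifs with h
    · unfold eta; split_ifs <;> simp
    · simp
  constructor
  · rw [← hJ, ← Matrix.transpose_map, ← Matrix.map_mul, ← Matrix.map_mul, h1]
  · rw [← RingHom.mapMatrix_apply, ← RingHom.map_det, h2, map_one]

lemma IsSO.mul {g h : Matrix (Fin d) (Fin d) R} (hg : IsSO g) (hh : IsSO h) : IsSO (g * h) := by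
  refine ⟨fun x y => ?_, by rw [Matrix.det_mul, hg.2, hh.2, mul_one]⟩
  rw [← Matrix.mulVec_mulVec, ← Matrix.mulVec_mulVec, hg.1, hh.1]

lemma IsSO.inv_mul {g : Matrix (Fin d) (Fin d) R} (hg : IsSO g) : g⁻¹ * g = 1 :=
  Matrix.nonsing_inv_mul _ (by rw [hg.2]; exact isUnit_one)

lemma IsSO.mul_inv {g : Matrix (Fin d) (Fin d) R} (hg : IsSO g) : g * g⁻¹ = 1 :=
  Matrix.mul_nonsing_inv _ (by rw [hg.2]; exact isUnit_one)

lemma IsSO.mulVec_inv {g : Matrix (Fin d) (Fin d) R} (hg : IsSO g) (x : Fin d → R) :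
    g.mulVec (g⁻¹.mulVec x) = x := by
  rw [Matrix.mulVec_mulVec, hg.mul_inv, Matrix.one_mulVec]

lemma IsSO.inv_mulVec {g : Matrix (Fin d) (Fin d) R} (hg : IsSO g) (x : Fin d → R) :
    g⁻¹.mulVec (g.mulVec x) = x := by
  rw [Matrix.mulVec_mulVec, hg.inv_mul, Matrix.one_mulVec]

lemma IsSO.inv {g : Matrix (Fin d) (Fin d) R} (hg : IsSO g) : IsSO g⁻¹ := by
  refine ⟨fun x y => ?_, ?_⟩
  · rw [← hg.1, hg.mulVec_inv, hg.mulVec_inv]
  · have h := congrArg Matrix.det hg.inv_mul
    rw [Matrix.det_mul, hg.2, mul_one, Matrix.det_one] at h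
    exact h

lemma map_mulVec {S : Type*} [CommRing S] (f : R →+* S) (g : Matrix (Fin d) (Fin d) R)
    (x : Fin d → R) : (g.map f).mulVec (fun i => f (x i)) = fun i => f (g.mulVec x i) := by
  funext i
  simp [Matrix.mulVec, dotProduct, map_sum]

/-- a matrix in `SO` as a linear equivalence -/
noncomputable def soEquiv (g : Matrix (Fin d) (Fin d) R) (hg : IsSO g) :
    (Fin d → R) ≃ₗ[R] (Fin d → R) :=
  { (Matrix.mulVecLin g) with
    invFun := fun x => g⁻¹.mulVec x
    left_inv := fun x => hg.inv_mulVec x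
    right_inv := fun x => hg.mulVec_inv x }

lemma soEquiv_apply (g : Matrix (Fin d) (Fin d) R) (hg : IsSO g) (x : Fin d → R) :
    soEquiv g hg x = g.mulVec x := rfl

lemma soEquiv_symm_apply (g : Matrix (Fin d) (Fin d) R) (hg : IsSO g) (x : Fin d → R) :
    (soEquiv g hg).symm x = g⁻¹.mulVec x := rfl

end so

end Pool.Agent.W576
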