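import Pool.Agent.W576.Moves
import Pool.Agent.W365.BlockDet

/-!
# Isometries of the split form and edges
-/

set_option linter.unusedSectionVars false

namespace Pool.Agent.W576

open Pool.Agent.W31.Bel

section edge

variable {K : Type} [Field K] [Algebra ℂ K] {κ : Type} [Field κ] (p : Place K κ)
variable {r m : ℕ}

/-- basis-like vectors -/
noncomputable def vξ (a : K) : SI r → K := Sum.elim (Sum.elim (fun _ => 0) (fun _ => a)) (fun _ => 0)
noncomputable def vζ (a : K) : SI r → K := Sum.elim (Sum.elim (fun _ => 0) (fun _ => 0)) (fun _ => a)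
noncomputable def vi (i : Fin (r + 1)) : SI r → K :=
  Sum.elim (Sum.elim (Pi.single i 1) (fun _ => 0)) (fun _ => 0)

lemma sform_vξ (X : SI r → K) (a : K) : sform X (vξ a) = 2 * (X (.inr ()) * a) := by
  unfold sform vξ; simp

lemma sform_vζ (X : SI r → K) (a : K) : sform X (vζ a) = 2 * (X (.inl (.inr ())) * a) := by
  unfold sform vζ; simp

lemma sform_vi (X : SI r → K) (i : Fin (r + 1)) : sform X (vi i) = eta i * X (.inl (.inl i)) := by
  unfold sform vi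
  simp only [Sum.elim_inl, Sum.elim_inr, mul_zero, add_zero]
  rw [Finset.sum_eq_single i]
  · simp
  · intro b _ hb; simp [Pi.single_eq_of_ne hb]
  · simp

lemma half_mem' {x : K} (h : 2 * x ∈ p.O) : x ∈ p.O := Pool.Agent.W377.Side.half_mem p h

lemma L_vξ (b : ℤ) (a : K) : p.L b (vξ a : SI r → K) ↔ p.t ^ b * a ∈ p.O := by
  unfold Place.L vξ
  simp [p.O.zero_mem]

lemma L_vζ (b : ℤ) (a : K) : p.L b (vζ a : SI r → K) ↔ p.t ^ (-b) * a ∈ p.O := by
  unfold Place.L vζ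
  simp [p.O.zero_mem]

lemma L_vi (b : ℤ) (i : Fin (r + 1)) : p.L b (vi i : SI r → K) := by
  unfold Place.L vi
  refine ⟨fun j => ?_, by simp [p.O.zero_mem], by simp [p.O.zero_mem]⟩
  simp only [Sum.elim_inl]
  by_cases h : j = i
  · subst h; simp [p.O.one_mem]
  · simp [Pi.single_eq_of_ne h, p.O.zero_mem]

lemma two_mem : (2 : K) ∈ p.O := by
  have := p.O.add_mem p.O.one_mem p.O.one_mem
  rwa [one_add_one_eq_two] at this

lemma std_selfDual (a : ℤ) : SelfDual p {X : SI r → K | p.L a X} := by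
  intro X
  constructor
  · rintro ⟨h1, h2, h3⟩ Y ⟨h1', h2', h3'⟩
    unfold sform
    refine p.O.add_mem (p.O.sum_mem (fun i _ => p.O.mul_mem (eta_mem' p i)
      (p.O.mul_mem (h1 i) (h1' i)))) (p.O.mul_mem (two_mem p) ?_)
    have h : p.t ^ a * p.t ^ (-a) = 1 := by rw [← zpow_add₀ p.t_ne]; simp
    have e : X (.inl (.inr ())) * Y (.inr ()) + X (.inr ()) * Y (.inl (.inr ())) =
        (p.t ^ a * X (.inl (.inr ()))) * (p.t ^ (-a) * Y (.inr ())) +
        (p.t ^ (-a) * X (.inr ())) * (p.t ^ a * Y (.inl (.inr ()))) := by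
      linear_combination (-(X (.inl (.inr ())) * Y (.inr ())) -
        X (.inr ()) * Y (.inl (.inr ()))) * h
    rw [e]
    exact p.O.add_mem (p.O.mul_mem h2 h3') (p.O.mul_mem h3 h2')
  · intro h
    refine ⟨fun i => ?_, ?_, ?_⟩
    · have h1 := h (vi i) (L_vi p a i)
      rw [sform_vi] at h1
      have h2 := p.O.mul_mem (eta_mem' p i) h1
      rwa [← mul_assoc, eta_mul_eta, one_mul] at h2
    · have h1 := h (vζ (p.t ^ a)) (by
        change p.L a (vζ (p.t ^ a))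
        rw [L_vζ, ← zpow_add₀ p.t_ne]; simp [p.O.one_mem])
      rw [sform_vζ] at h1
      have h2 := half_mem' p h1
      rwa [mul_comm] at h2
    · have h1 := h (vξ (p.t ^ (-a))) (by
        change p.L a (vξ (p.t ^ (-a)))
        rw [L_vξ, ← zpow_add₀ p.t_ne]; simp [p.O.one_mem])
      rw [sform_vξ] at h1
      have h2 := half_mem' p h1
      rwa [mul_comm] at h2

lemma std_absorb (a : ℤ) : Absorb p {X : SI r → K | p.L a X} := by
  intro X
  obtain ⟨n, hn⟩ := Pool.Agent.W377.Side.exists_pow_all p (fun i => scv p a i * X i)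
  refine ⟨n, ?_⟩
  refine ⟨fun i => ?_, ?_, ?_⟩
  · have := hn (.inl (.inl i))
    simp only [scv, Sum.elim_inl, one_mul] at this
    simpa using this
  · have := hn (.inl (.inr ()))
    simp only [scv, Sum.elim_inl, Sum.elim_inr] at this
    rw [Pi.smul_apply, smul_eq_mul, mul_left_comm]; exact this
  · have := hn (.inr ())
    simp only [scv, Sum.elim_inr] at this
    rw [Pi.smul_apply, smul_eq_mul, mul_left_comm]; exact this

variable (Ω : (SI r → K) ≃ₗ[K] (SI r → K)) (hΩ : ∀ X Y, sform (Ω X) (Ω Y) = sform X Y)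

include hΩ in
lemma pull_selfDual (a : ℤ) : SelfDual p {X : SI r → K | p.L a (Ω X)} := by
  intro X
  have h := std_selfDual p (r := r) a (Ω X)
  constructor
  · intro hX Y hY
    have h1 := h.1 hX (Ω Y) hY
    rwa [hΩ] at h1
  · intro h1
    apply h.2
    intro Y hY
    have h2 := h1 (Ω.symm Y) (by change p.L a (Ω (Ω.symm Y)); simpa using hY)
    rw [← hΩ] at h2
    simpa using h2

lemma pull_absorb (a : ℤ) : Absorb p {X : SI r → K | p.L a (Ω X)} := by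
  intro X
  obtain ⟨n, hn⟩ := std_absorb p (r := r) a (Ω X)
  refine ⟨n, ?_⟩
  change p.L a (Ω (p.t ^ n • X))
  rw [map_smul]; exact hn

/-- two ways an edge can lie on a line -/
def Coh (b : ℤ) : Prop := (∀ X, p.L 0 (Ω X) ↔ p.L b X) ∧ (∀ X, p.L 1 (Ω X) ↔ p.L (b + 1) X)
def Swp (b : ℤ) : Prop := (∀ X, p.L 0 (Ω X) ↔ p.L (b + 1) X) ∧ (∀ X, p.L 1 (Ω X) ↔ p.L b X)

lemma L0_t {X : SI r → K} (h : p.L 0 X) : p.L 1 (p.t • X) := by
  rw [L0_iff] at h
  rw [L1_iff]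
  obtain ⟨h1, h2, h3⟩ := h
  refine ⟨fun i => p.O.mul_mem p.t_mem (h1 i), p.O.mul_mem p.t_mem (p.O.mul_mem p.t_mem h2), ?_⟩
  rw [Pi.smul_apply, smul_eq_mul, inv_mul_cancel_left₀ p.t_ne]; exact h3

lemma L1_t {X : SI r → K} (h : p.L 1 X) : p.L 0 (p.t • X) := by
  rw [L1_iff] at h
  rw [L0_iff]
  obtain ⟨h1, h2, h3⟩ := h
  refine ⟨fun i => p.O.mul_mem p.t_mem (h1 i), h2, ?_⟩
  have e : (p.t • X) (.inr ()) = p.t * p.t * (p.t⁻¹ * X (.inr ())) := by
    rw [Pi.smul_apply, smul_eq_mul, mul_assoc, mul_inv_cancel_left₀ p.t_ne]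
  rw [e]
  exact p.O.mul_mem (p.O.mul_mem p.t_mem p.t_mem) h3

include hΩ in
/-- classification of the position of the standard edge in another chart -/
lemma coh_or_swp (x : Fin (r + 1) → Fin (r + 1) → ℝ) (hx : (Matrix.of x).det ≠ 0)
    (h0 : ∀ i, p.L 0 (Ω (emb (x i)))) (h1 : ∀ i, p.L 1 (Ω (emb (x i)))) :
    ∃ b : ℤ, Coh p Ω b ∨ Swp p Ω b := by
  obtain ⟨a, ha⟩ := Pool.Agent.W63.S11.lattice_class p _ (pull_selfDual p Ω hΩ 0)
    (pull_absorb p Ω 0) x hx h0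
  obtain ⟨b, hb⟩ := Pool.Agent.W63.S11.lattice_class p _ (pull_selfDual p Ω hΩ 1)
    (pull_absorb p Ω 1) x hx h1
  change ∀ X, p.L 0 (Ω X) ↔ p.L a X at ha
  change ∀ X, p.L 1 (Ω X) ↔ p.L b X at hb
  have e1 : a ≤ b + 1 := by
    have h2 : p.L 0 (Ω (vξ (p.t ^ (-a)))) := by
      rw [ha, L_vξ, ← zpow_add₀ p.t_ne]; simp [p.O.one_mem]
    have h3 := L0_t p h2
    rw [← map_smul, hb] at h3
    have h4 : p.t • (vξ (p.t ^ (-a)) : SI r → K) = vξ (p.t ^ (1 - a)) := by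
      apply ext_SI
      · intro i; simp [vξ]
      · simp only [vξ, Pi.smul_apply, Sum.elim_inl, Sum.elim_inr, smul_eq_mul]
        rw [sub_eq_add_neg, zpow_add₀ p.t_ne, zpow_one]
      · simp [vξ]
    rw [h4, L_vξ, ← zpow_add₀ p.t_ne, p.tpow_mem_iff] at h3
    omega
  have e2 : b ≤ a + 1 := by
    have h2 : p.L 1 (Ω (vξ (p.t ^ (-b)))) := by
      rw [hb, L_vξ, ← zpow_add₀ p.t_ne]; simp [p.O.one_mem]
    have h3 := L1_t p h2
    rw [← map_smul, ha] at h3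
    have h4 : p.t • (vξ (p.t ^ (-b)) : SI r → K) = vξ (p.t ^ (1 - b)) := by
      apply ext_SI
      · intro i; simp [vξ]
      · simp only [vξ, Pi.smul_apply, Sum.elim_inl, Sum.elim_inr, smul_eq_mul]
        rw [sub_eq_add_neg, zpow_add₀ p.t_ne, zpow_one]
      · simp [vξ]
    rw [h4, L_vξ, ← zpow_add₀ p.t_ne, p.tpow_mem_iff] at h3
    omega
  have e3 : a ≠ b := by
    rintro rfl
    have h2 : ∀ Z : SI r → K, p.L 0 Z ↔ p.L 1 Z := by
      intro Z
      have h3 := ha (Ω.symm Z)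
      have h4 := hb (Ω.symm Z)
      rw [Ω.apply_symm_apply] at h3 h4
      rw [h3, h4]
    have h3 := (h2 (vξ (p.t ^ (-1 : ℤ)))).2 (by
      rw [L_vξ, ← zpow_add₀ p.t_ne]; simp [p.O.one_mem])
    rw [L_vξ, ← zpow_add₀ p.t_ne, p.tpow_mem_iff] at h3
    omega
  rcases lt_or_gt_of_ne e3 with h | h
  · have : b = a + 1 := by omega
    subst this
    exact ⟨a, Or.inl ⟨ha, hb⟩⟩
  · have : a = b + 1 := by omega
    subst this
    exact ⟨b, Or.inr ⟨ha, hb⟩⟩

include hΩ in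
lemma det_coh (hdet : LinearMap.det (Ω : (SI r → K) →ₗ[K] (SI r → K)) = 1) {b : ℤ}
    (hb : Coh p Ω b) (x : Fin (r + 1) → Fin (r + 1) → ℝ) :
    (Matrix.of fun i => resv p (Ω (emb (x i)))).det = p.rho (Matrix.of x).det := by
  set f : (SI r → K) →ₗ[K] (SI r → K) :=
    (Ω : (SI r → K) →ₗ[K] (SI r → K)) ∘ₗ
      ((Rm p (-b) : (SI r → K) ≃ₗ[K] (SI r → K)) : (SI r → K) →ₗ[K] (SI r → K)) with hf
  have hfa : ∀ X, f X = Ω (Rm p (-b) X) := fun X => rfl
  have hmv : ∀ X, (LinearMap.toMatrix' f).mulVec X = f X := fun X => LinearMap.toMatrix'_mulVec f X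
  have hfe : ∀ i, f (emb (x i)) = Ω (emb (x i)) := fun i => by rw [hfa, Rm_emb]
  have h0 : ∀ X, p.L 0 X → p.L 0 (f X) := by
    intro X hX
    rw [hfa, hb.1, L_Rm]; simpa using hX
  have h1 : ∀ X, p.L 1 X → p.L 1 (f X) := by
    intro X hX
    rw [hfa, hb.2, L_Rm]; simpa using hX
  have hmem : ∀ i j, f (emb (x i)) (.inl (.inl j)) ∈ p.O := fun i j => (h0 _ (L_emb p 0 (x i))).1 j
  have key := Pool.Agent.W365.BlockDet.block_det p (LinearMap.toMatrix' f)
    (fun X Y => by rw [hmv, hmv, hfa, hfa, hΩ, Rm_sform])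
    (by rw [LinearMap.det_toMatrix', hf, LinearMap.det_comp, hdet, Rm_det, one_mul])
    (fun X hX => by rw [hmv]; exact h0 X hX) (fun X hX => by rw [hmv]; exact h1 X hX) x
    (fun i j => ⟨f (emb (x i)) (.inl (.inl j)), hmem i j⟩) (fun i j => by rw [hmv])
  rw [← key]
  congr 1
  ext i j
  simp only [Matrix.of_apply, resv]
  rw [← hfe i, redv_mem p (hmem i j)]

include hΩ in
lemma det_swp (hdet : LinearMap.det (Ω : (SI r → K) →ₗ[K] (SI r → K)) = 1) {b : ℤ}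
    (hb : Swp p Ω b) (x : Fin (r + 1) → Fin (r + 1) → ℝ) :
    (Matrix.of fun i => resv p (Ω (emb (x i)))).det = - p.rho (Matrix.of x).det := by
  set f : (SI r → K) →ₗ[K] (SI r → K) :=
    (Ω : (SI r → K) →ₗ[K] (SI r → K)) ∘ₗ
      (((Rm p (-(b + 1)) : (SI r → K) ≃ₗ[K] (SI r → K)) : (SI r → K) →ₗ[K] (SI r → K)) ∘ₗ
        Sw) with hf
  have hfa : ∀ X, f X = Ω (Rm p (-(b + 1)) (Sw X)) := fun X => rfl
  have hmv : ∀ X, (LinearMap.toMatrix' f).mulVec X = f X := fun X => LinearMap.toMatrix'_mulVec f X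
  have hfe : ∀ i, f (emb (flipR (x i))) = Ω (emb (x i)) := fun i => by
    rw [hfa, Sw_emb, Rm_emb, flipR_flipR]
  have h0 : ∀ X, p.L 0 X → p.L 0 (f X) := by
    intro X hX
    rw [hfa, hb.1, L_Rm, L_Sw]; simpa using hX
  have h1 : ∀ X, p.L 1 X → p.L 1 (f X) := by
    intro X hX
    rw [hfa, hb.2, L_Rm, L_Sw]
    have : -(-(b + 1) + b) = 1 := by ring
    rw [this]; exact hX
  have hmem : ∀ i j, f (emb (flipR (x i))) (.inl (.inl j)) ∈ p.O :=
    fun i j => (h0 _ (L_emb p 0 (flipR (x i)))).1 j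
  have key := Pool.Agent.W365.BlockDet.block_det p (LinearMap.toMatrix' f)
    (fun X Y => by rw [hmv, hmv, hfa, hfa, hΩ, Rm_sform, Sw_sform])
    (by rw [LinearMap.det_toMatrix', hf, LinearMap.det_comp, LinearMap.det_comp, hdet, Rm_det,
      Sw_det, one_mul, one_mul])
    (fun X hX => by rw [hmv]; exact h0 X hX) (fun X hX => by rw [hmv]; exact h1 X hX)
    (fun i => flipR (x i))
    (fun i j => ⟨f (emb (flipR (x i))) (.inl (.inl j)), hmem i j⟩) (fun i j => by rw [hmv])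
  rw [det_flipR, map_neg] at key
  rw [← key]
  congr 1
  ext i j
  simp only [Matrix.of_apply, resv]
  rw [← hfe i, redv_mem p (hmem i j)]

/-- the sum of two adjacent lattices -/
lemma Ms_iff (X : SI r → K) : p.Ms X ↔ ∃ Y Z, p.L 0 Y ∧ p.L 1 Z ∧ X = Y + Z := by
  constructor
  · rintro ⟨h1, h2, h3⟩
    refine ⟨fun i => if i = .inl (.inr ()) then 0 else X i,
      fun i => if i = .inl (.inr ()) then X i else 0, ?_, ?_, ?_⟩
    · rw [L0_iff]
      refine ⟨fun i => by simpa using h1 i, by simp [p.O.zero_mem], by simpa using h3⟩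
    · rw [L1_iff]
      refine ⟨fun i => by simp [p.O.zero_mem], by simpa using h2, by simp [p.O.zero_mem]⟩
    · funext i
      simp only [Pi.add_apply]
      split_ifs <;> simp
  · rintro ⟨Y, Z, hY, hZ, rfl⟩
    rw [L0_iff] at hY
    rw [L1_iff] at hZ
    refine ⟨fun i => p.O.add_mem (hY.1 i) (hZ.1 i), ?_, ?_⟩
    · rw [Pi.add_apply, mul_add]
      exact p.O.add_mem (p.O.mul_mem p.t_mem hY.2.1) hZ.2.1
    · rw [Pi.add_apply]
      refine p.O.add_mem hY.2.2 ?_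
      have := p.O.mul_mem p.t_mem hZ.2.2
      rwa [mul_inv_cancel_left₀ p.t_ne] at this

/-- the sum of the lattices number `b` and `b+1`, in coordinates -/
lemma sum_iff (b : ℤ) (X : SI r → K) : (∃ Y Z, p.L b Y ∧ p.L (b + 1) Z ∧ X = Y + Z) ↔
    ((∀ i, X (.inl (.inl i)) ∈ p.O) ∧ p.t ^ (b + 1) * X (.inl (.inr ())) ∈ p.O ∧
      p.t ^ (-b) * X (.inr ()) ∈ p.O) := by
  constructor
  · rintro ⟨Y, Z, ⟨hY1, hY2, hY3⟩, ⟨hZ1, hZ2, hZ3⟩, rfl⟩
    refine ⟨fun i => p.O.add_mem (hY1 i) (hZ1 i), ?_, ?_⟩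
    · rw [Pi.add_apply, mul_add]
      refine p.O.add_mem ?_ hZ2
      rw [zpow_add₀ p.t_ne, zpow_one, mul_comm (p.t ^ b), mul_assoc]
      exact p.O.mul_mem p.t_mem hY2
    · rw [Pi.add_apply, mul_add]
      refine p.O.add_mem hY3 ?_
      have e : p.t ^ (-b) * Z (.inr ()) = p.t * (p.t ^ (-(b + 1)) * Z (.inr ())) := by
        rw [← mul_assoc]; congr 1
        rw [← zpow_one_add₀ p.t_ne]; congr 1; ring
      rw [e]
      exact p.O.mul_mem p.t_mem hZ3
  · rintro ⟨h1, h2, h3⟩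
    refine ⟨fun i => if i = .inl (.inr ()) then 0 else X i,
      fun i => if i = .inl (.inr ()) then X i else 0, ?_, ?_, ?_⟩
    · refine ⟨fun i => by simpa using h1 i, by simp [p.O.zero_mem], by simpa using h3⟩
    · refine ⟨fun i => by simp [p.O.zero_mem], by simpa using h2, by simp [p.O.zero_mem]⟩
    · funext i
      simp only [Pi.add_apply]
      split_ifs <;> simp

/-- side of a lattice of the line, coherent case -/
lemma chi_coh {b P : ℤ} (hb : Coh p Ω b) (L : Set (SI r → K)) (hL : ∀ X, Ω X ∈ L ↔ p.L P X) :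
    Chi p L ↔ b < P := by
  have hMs : ∀ X, p.Ms (Ω X) ↔ ((∀ i, X (.inl (.inl i)) ∈ p.O) ∧
      p.t ^ (b + 1) * X (.inl (.inr ())) ∈ p.O ∧ p.t ^ (-b) * X (.inr ()) ∈ p.O) := by
    intro X
    rw [Ms_iff, ← sum_iff]
    constructor
    · rintro ⟨Y, Z, hY, hZ, h⟩
      refine ⟨Ω.symm Y, Ω.symm Z, ?_, ?_, ?_⟩
      · rw [← hb.1]; simpa using hY
      · rw [← hb.2]; simpa using hZ
      · rw [← map_add, ← h]; simp
    · rintro ⟨Y, Z, hY, hZ, h⟩
      exact ⟨Ω Y, Ω Z, (hb.1 Y).2 hY, (hb.2 Z).2 hZ, by rw [h, map_add]⟩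
  constructor
  · intro h
    by_contra hcon
    have h1 : p.L P (vζ (p.t ^ b) : SI r → K) := by
      rw [L_vζ, ← zpow_add₀ p.t_ne, p.tpow_mem_iff]; omega
    have h2 : p.Ms (Ω (vζ (p.t ^ b))) := by
      rw [hMs]
      refine ⟨fun i => by simp [vζ, p.O.zero_mem], by simp [vζ, p.O.zero_mem], ?_⟩
      simp only [vζ, Sum.elim_inr]
      rw [← zpow_add₀ p.t_ne]; simp [p.O.one_mem]
    have h3 := h _ ((hL _).2 h1) h2
    rw [hb.2, L_vζ, ← zpow_add₀ p.t_ne, p.tpow_mem_iff] at h3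
    omega
  · intro hbP Y hY hMY
    obtain ⟨X, rfl⟩ := Ω.surjective Y
    rw [hL] at hY
    rw [hMs] at hMY
    rw [hb.2]
    refine ⟨hMY.1, hMY.2.1, ?_⟩
    have e : p.t ^ (-(b + 1)) * X (.inr ()) = p.t ^ (P - (b + 1)) * (p.t ^ (-P) * X (.inr ())) := by
      rw [← mul_assoc, ← zpow_add₀ p.t_ne]; congr 2; ring
    rw [e]
    exact p.O.mul_mem (p.tpow_mem (by omega)) hY.2.2

/-- side of a lattice of the line, swapped case -/
lemma chi_swp {b P : ℤ} (hb : Swp p Ω b) (L : Set (SI r → K)) (hL : ∀ X, Ω X ∈ L ↔ p.L P X) :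
    Chi p L ↔ ¬ b < P := by
  have hMs : ∀ X, p.Ms (Ω X) ↔ ((∀ i, X (.inl (.inl i)) ∈ p.O) ∧
      p.t ^ (b + 1) * X (.inl (.inr ())) ∈ p.O ∧ p.t ^ (-b) * X (.inr ()) ∈ p.O) := by
    intro X
    rw [Ms_iff, ← sum_iff]
    constructor
    · rintro ⟨Y, Z, hY, hZ, h⟩
      refine ⟨Ω.symm Z, Ω.symm Y, ?_, ?_, ?_⟩
      · rw [← hb.2]; simpa using hZ
      · rw [← hb.1]; simpa using hY
      · rw [← map_add, add_comm Z, ← h]; simp
    · rintro ⟨Y, Z, hY, hZ, h⟩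
      exact ⟨Ω Z, Ω Y, (hb.1 Z).2 hZ, (hb.2 Y).2 hY, by rw [h, map_add, add_comm]⟩
  constructor
  · intro h hbP
    have h1 : p.L P (vξ (p.t ^ (-(b + 1))) : SI r → K) := by
      rw [L_vξ, ← zpow_add₀ p.t_ne, p.tpow_mem_iff]; omega
    have h2 : p.Ms (Ω (vξ (p.t ^ (-(b + 1))))) := by
      rw [hMs]
      refine ⟨fun i => by simp [vξ, p.O.zero_mem], ?_, by simp [vξ, p.O.zero_mem]⟩
      simp only [vξ, Sum.elim_inl, Sum.elim_inr]
      rw [← zpow_add₀ p.t_ne]; simp [p.O.one_mem]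
    have h3 := h _ ((hL _).2 h1) h2
    rw [hb.2, L_vξ, ← zpow_add₀ p.t_ne, p.tpow_mem_iff] at h3
    omega
  · intro hbP Y hY hMY
    obtain ⟨X, rfl⟩ := Ω.surjective Y
    rw [hL] at hY
    rw [hMs] at hMY
    rw [hb.2]
    refine ⟨hMY.1, ?_, hMY.2.2⟩
    have e : p.t ^ b * X (.inl (.inr ())) = p.t ^ (b - P) * (p.t ^ P * X (.inl (.inr ()))) := by
      rw [← mul_assoc, ← zpow_add₀ p.t_ne]; congr 2; ring
    rw [e]
    exact p.O.mul_mem (p.tpow_mem (by omega)) hY.2.1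

end edge

end Pool.Agent.W576
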