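import Mathlib

/-!
# Polyhedra with vertices in the closed Klein ball and their flexions

Hyperbolic space `Λ^n` is the open unit ball of `ℝ^n` (Klein model), the absolute is the unit sphere.
Geodesic simplices are Euclidean convex hulls.
-/

namespace Pool.Agent.W576.Ideal

open MeasureTheory

/-- The Lorentz form `-x₀y₀ + x₁y₁ + ... + xₙyₙ` on `ℝ^{n+1}`. -/
def form {n : ℕ} (x y : Fin (n + 1) → ℝ) : ℝ := -(x 0 * y 0) + ∑ i : Fin n, x i.succ * y i.succ

/-- The vector `(1, x)`; it is time-like for `x` in `Λ^n` and light-like for `x` on the absolute. -/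
def lift {n : ℕ} (x : Fin n → ℝ) : Fin (n + 1) → ℝ := Fin.cons 1 x

/-- Isometries of `Λ^n`: linear maps preserving the Lorentz form and the future light cone. -/
def IsIsometry {n : ℕ} (g : Matrix (Fin (n + 1)) (Fin (n + 1)) ℝ) : Prop :=
  (∀ x y, form (g.mulVec x) (g.mulVec y) = form x y) ∧ 0 < g 0 0

/-- The isometry `g` sends the point `x` of the closed ball to the point `y`. -/
def Sends {n : ℕ} (g : Matrix (Fin (n + 1)) (Fin (n + 1)) ℝ) (x y : Fin n → ℝ) : Prop :=
  ∃ a : ℝ, 0 < a ∧ g.mulVec (lift x) = a • lift y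

/-- The hyperbolic volume measure on `Λ^n` in the Klein model. -/
noncomputable def hypVol (n : ℕ) : Measure (Fin n → ℝ) :=
  volume.withDensity (fun x => ENNReal.ofReal ((1 - ∑ j, (x j) ^ 2) ^ (-((n : ℝ) + 1) / 2)))

/-- Two facets, given by their sets of vertices, that have a common codimension one face `τ`. -/
def Adjacent {d m : ℕ} (c : (Fin (d + 1) → Fin m) → ℤ) (s s' : Finset (Fin m)) : Prop :=
  ∃ (τ : Fin d → Fin m) (q q' : Fin m), c (Fin.cons q τ) ≠ 0 ∧ c (Fin.cons q' τ) ≠ 0 ∧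
    s = Finset.univ.image (Fin.cons q τ : Fin (d + 1) → Fin m) ∧
    s' = Finset.univ.image (Fin.cons q' τ : Fin (d + 1) → Fin m)

/-- A finite oriented closed `d`-dimensional simplicial pseudomanifold on the vertex set `Fin m`:
`c σ = 1` if the tuple `σ` lists the vertices of a facet in the positive order, `c σ = -1` if it lists
the vertices of a facet in the negative order, and `c σ = 0` if it is not the list of vertices of a
facet. -/
structure IsPseudomanifold {d m : ℕ} (c : (Fin (d + 1) → Fin m) → ℤ) : Prop where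
  values : ∀ σ, c σ = 0 ∨ c σ = 1 ∨ c σ = -1
  alternating : ∀ (σ : Fin (d + 1) → Fin m) (π : Equiv.Perm (Fin (d + 1))),
    c (σ ∘ π) = ((Equiv.Perm.sign π : ℤˣ) : ℤ) * c σ
  /-- every codimension one face lies in exactly two facets, which induce opposite orientations -/
  closed : ∀ τ : Fin d → Fin m, (∃ q, c (Fin.cons q τ) ≠ 0) →
    ∃ q q', c (Fin.cons q τ) = 1 ∧ c (Fin.cons q' τ) = -1 ∧
      ∀ q'', c (Fin.cons q'' τ) ≠ 0 → q'' = q ∨ q'' = q'
  /-- every vertex lies in a facet -/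
  pure : ∀ j : Fin m, ∃ σ, c σ ≠ 0 ∧ ∃ i, σ i = j
  /-- strong connectedness -/
  connected : ∀ σ σ' : Fin (d + 1) → Fin m, c σ ≠ 0 → c σ' ≠ 0 →
    Relation.ReflTransGen (Adjacent c) (Finset.univ.image σ) (Finset.univ.image σ')

/-- The generalised oriented volume of the polyhedron in `Λ^{d+1}` with vertices `P j`: the sum over
the positively listed facets `σ` of the signed hyperbolic volumes of the simplices with vertices `0`
and `P (σ i)`.  (Every facet is listed `(d+1)!` times.) -/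
noncomputable def genVol {d m : ℕ} (c : (Fin (d + 1) → Fin m) → ℤ)
    (P : Fin m → (Fin (d + 1) → ℝ)) : ℝ :=
  (1 / ((d + 1).factorial : ℝ)) * ∑ σ : Fin (d + 1) → Fin m, (c σ : ℝ) *
    Real.sign (Matrix.det (Matrix.of (fun i j => P (σ i) j))) *
    (hypVol (d + 1) (convexHull ℝ (insert 0 (Set.range (fun i => P (σ i)))))).toReal

/-- A flexion `P t`, `t ∈ [0,1]`, of an unbounded polyhedron of finite volume in `Λ^{d+1}`. -/
structure IsUnboundedFlexion {d m : ℕ} (c : (Fin (d + 1) → Fin m) → ℤ)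
    (P : ℝ → Fin m → (Fin (d + 1) → ℝ)) : Prop where
  continuous : ContinuousOn P (Set.Icc 0 1)
  /-- the vertices are in `Λ^{d+1}` or on the absolute -/
  closedBall : ∀ t ∈ Set.Icc (0 : ℝ) 1, ∀ j, ∑ i, (P t j i) ^ 2 ≤ 1
  /-- some vertex is on the absolute -/
  unbounded : ∀ t ∈ Set.Icc (0 : ℝ) 1, ∃ j, ∑ i, (P t j i) ^ 2 = 1
  /-- finite volume -/
  finite : ∀ t ∈ Set.Icc (0 : ℝ) 1, ∀ σ, c σ ≠ 0 →
    hypVol (d + 1) (convexHull ℝ (insert 0 (Set.range (fun i => P t (σ i))))) < ⊤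
  /-- for every simplex `σ` all the simplices `P t σ` are congruent -/
  congruent : ∀ σ, c σ ≠ 0 → ∀ s ∈ Set.Icc (0 : ℝ) 1, ∀ t ∈ Set.Icc (0 : ℝ) 1,
    ∃ g, IsIsometry g ∧ ∀ i, Sends g (P s (σ i)) (P t (σ i))
  /-- the family is not induced by isometries of `Λ^{d+1}` -/
  flexes : ¬ ∀ t ∈ Set.Icc (0 : ℝ) 1, ∃ g, IsIsometry g ∧ ∀ j, Sends g (P 0 j) (P t j)

end Pool.Agent.W576.Ideal
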