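import Pool.Agent.W576.IdealDefs
import Pool.Agent.W867.Witt
import Pool.Agent.W409.Klein

/-!
# Ideal tetrahedra
-/

set_option linter.unusedSectionVars false

namespace Pool.Agent.W576.Ideal

open MeasureTheory Pool.Agent.W576

section triples

lemma form_eq_lor {n : ℕ} (x y : Fin (n + 1) → ℝ) : form x y = lor x y := by
  unfold form lor
  rw [Fin.sum_univ_succ]
  simp [eta]

lemma lor_add_left' {n : ℕ} (x x' y : Fin (n + 1) → ℝ) : lor (x + x') y = lor x y + lor x' y := by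
  unfold lor
  rw [← Finset.sum_add_distrib]
  exact Finset.sum_congr rfl fun i _ => by rw [Pi.add_apply]; ring

lemma lor_smul_left' {n : ℕ} (a : ℝ) (x y : Fin (n + 1) → ℝ) : lor (a • x) y = a * lor x y := by
  unfold lor
  rw [Finset.mul_sum]
  exact Finset.sum_congr rfl fun i _ => by rw [Pi.smul_apply, smul_eq_mul]; ring

lemma lor_comm'' {n : ℕ} (x y : Fin (n + 1) → ℝ) : lor x y = lor y x := by
  unfold lor
  exact Finset.sum_congr rfl fun i _ => by ring

lemma lor_lift {n : ℕ} (x y : Fin n → ℝ) : lor (lift x) (lift y) = -1 + ∑ i, x i * y i := by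
  rw [← form_eq_lor]
  unfold form lift
  simp

/-- the Gram entry of two distinct points of the absolute is negative -/
lemma dot_lt {n : ℕ} {x y : Fin n → ℝ} (hx : ∑ i, x i ^ 2 = 1) (hy : ∑ i, y i ^ 2 = 1)
    (hxy : x ≠ y) : ∑ i, x i * y i < 1 := by
  have h1 : 0 < ∑ i, (x i - y i) ^ 2 := by
    obtain ⟨i, hi⟩ := Function.ne_iff.1 hxy
    exact Finset.sum_pos' (fun _ _ => sq_nonneg _) ⟨i, Finset.mem_univ _, by
      have : x i - y i ≠ 0 := sub_ne_zero.2 hi
      positivity⟩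
  have h2 : ∑ i, (x i - y i) ^ 2 = ∑ i, x i ^ 2 + ∑ i, y i ^ 2 - 2 * ∑ i, x i * y i := by
    rw [Finset.mul_sum, ← Finset.sum_add_distrib, ← Finset.sum_sub_distrib]
    exact Finset.sum_congr rfl fun i _ => by ring
  rw [h2, hx, hy] at h1
  linarith

/-- normalised light-like lifts of three distinct ideal points -/
lemma exists_norm {n : ℕ} (a : Fin 3 → Fin n → ℝ) (ha : ∀ i, ∑ l, a i l ^ 2 = 1)
    (hd : ∀ i j, i ≠ j → a i ≠ a j) :
    ∃ r : Fin 3 → ℝ, (∀ i, 0 < r i) ∧ ∀ i j, lor (r i • lift (a i)) (r j • lift (a j)) =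
      if i = j then 0 else -1 := by
  set g : Fin 3 → Fin 3 → ℝ := fun i j => 1 - ∑ l, a i l * a j l with hg
  have hgs : ∀ i j, g i j = g j i := by
    intro i j; simp only [hg]; congr 1; exact Finset.sum_congr rfl fun l _ => by ring
  have hgp : ∀ i j, i ≠ j → 0 < g i j := by
    intro i j hij
    have := dot_lt (ha i) (ha j) (hd i j hij)
    simp only [hg]; linarith
  have hgd : ∀ i, lor (lift (a i)) (lift (a i)) = 0 := by
    intro i
    rw [lor_lift]
    have : ∑ l, a i l * a i l = ∑ l, a i l ^ 2 := Finset.sum_congr rfl fun l _ => by ring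
    rw [this, ha]; ring
  have hgl : ∀ i j, lor (lift (a i)) (lift (a j)) = - g i j := by
    intro i j; rw [lor_lift]; simp only [hg]; ring
  have h01 := hgp 0 1 (by decide)
  have h02 := hgp 0 2 (by decide)
  have h12 := hgp 1 2 (by decide)
  have key : ∀ x y z : ℝ, 0 < x → 0 < y → 0 < z →
      Real.sqrt (z / (x * y)) * Real.sqrt (y / (x * z)) = 1 / x := by
    intro x y z hx hy hz
    rw [← Real.sqrt_mul (by positivity)]
    have : z / (x * y) * (y / (x * z)) = (1 / x) ^ 2 := by field_simp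
    rw [this, Real.sqrt_sq (by positivity)]
  set r : Fin 3 → ℝ := ![Real.sqrt (g 1 2 / (g 0 1 * g 0 2)), Real.sqrt (g 0 2 / (g 0 1 * g 1 2)),
    Real.sqrt (g 0 1 / (g 0 2 * g 1 2))] with hr
  have r0 : r 0 = Real.sqrt (g 1 2 / (g 0 1 * g 0 2)) := rfl
  have r1 : r 1 = Real.sqrt (g 0 2 / (g 0 1 * g 1 2)) := rfl
  have r2 : r 2 = Real.sqrt (g 0 1 / (g 0 2 * g 1 2)) := rfl
  have e01 : r 0 * r 1 = 1 / g 0 1 := by rw [r0, r1]; exact key _ _ _ h01 h02 h12
  have e02 : r 0 * r 2 = 1 / g 0 2 := by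
    rw [r0, r2, mul_comm (g 0 1) (g 0 2)]; exact key _ _ _ h02 h01 h12
  have e12 : r 1 * r 2 = 1 / g 1 2 := by
    rw [r1, r2, mul_comm (g 0 1) (g 1 2), mul_comm (g 0 2) (g 1 2)]; exact key _ _ _ h12 h01 h02
  refine ⟨r, ?_, ?_⟩
  · intro i
    fin_cases i
    · change 0 < r 0; rw [r0]; positivity
    · change 0 < r 1; rw [r1]; positivity
    · change 0 < r 2; rw [r2]; positivity
  · intro i j
    have e : lor (r i • lift (a i)) (r j • lift (a j)) = r i * r j * lor (lift (a i)) (lift (a j)) := by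
      rw [lor_smul_left', lor_comm'', lor_smul_left', lor_comm'']; ring
    rw [e]
    by_cases hij : i = j
    · subst hij; rw [hgd, if_pos rfl, mul_zero]
    · rw [if_neg hij, hgl]
      have p01 := h01.ne'
      have p02 := h02.ne'
      have p12 := h12.ne'
      have e10 : r 1 * r 0 = 1 / g 0 1 := by rw [mul_comm]; exact e01
      have e20 : r 2 * r 0 = 1 / g 0 2 := by rw [mul_comm]; exact e02
      have e21 : r 2 * r 1 = 1 / g 1 2 := by rw [mul_comm]; exact e12
      have s10 := hgs 1 0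
      have s20 := hgs 2 0
      have s21 := hgs 2 1
      fin_cases i <;> fin_cases j
      · exact absurd rfl hij
      · change r 0 * r 1 * -g 0 1 = -1; rw [e01]; field_simp
      · change r 0 * r 2 * -g 0 2 = -1; rw [e02]; field_simp
      · change r 1 * r 0 * -g 1 0 = -1; rw [e10, s10]; field_simp
      · exact absurd rfl hij
      · change r 1 * r 2 * -g 1 2 = -1; rw [e12]; field_simp
      · change r 2 * r 0 * -g 2 0 = -1; rw [e20, s20]; field_simp
      · change r 2 * r 1 * -g 2 1 = -1; rw [e21, s21]; field_simp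
      · exact absurd rfl hij

/-- Any two triples of distinct points of the absolute of `Λ^n`, `n ≥ 3`, are congruent. -/
theorem triples_congruent {n : ℕ} (hn : 3 ≤ n) (a b : Fin 3 → Fin n → ℝ)
    (ha : ∀ i, ∑ l, a i l ^ 2 = 1) (hb : ∀ i, ∑ l, b i l ^ 2 = 1)
    (hda : ∀ i j, i ≠ j → a i ≠ a j) (hdb : ∀ i j, i ≠ j → b i ≠ b j) :
    ∃ g, IsIsometry g ∧ ∀ i, Sends g (a i) (b i) := by
  obtain ⟨r, hr, hrl⟩ := exists_norm a ha hda
  obtain ⟨r', hr', hrl'⟩ := exists_norm b hb hdb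
  set A : Fin 3 → Fin (n + 1) → ℝ := fun i => r i • lift (a i) with hA
  set B : Fin 3 → Fin (n + 1) → ℝ := fun i => r' i • lift (b i) with hB
  have hAB : ∀ i j, lor (A i) (A j) = lor (B i) (B j) := fun i j => by
    rw [hrl i j, hrl' i j]
  have sum_lor : ∀ (X : Fin 3 → Fin (n + 1) → ℝ) (i j k l : Fin 3),
      lor (X i + X j) (X k + X l) = lor (X i) (X k) + lor (X i) (X l) + lor (X j) (X k) +
        lor (X j) (X l) := by
    intro X i j k l
    rw [lor_add_left', lor_comm'' (X i), lor_comm'' (X j), lor_add_left', lor_add_left',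
      lor_comm'' (X k), lor_comm'' (X l), lor_comm'' (X k), lor_comm'' (X l)]
    ring
  set u : Fin 3 → Fin (n + 1) → ℝ := fun i => A i + A (i + 1) with hu
  set w : Fin 3 → Fin (n + 1) → ℝ := fun i => B i + B (i + 1) with hw
  have hne : ∀ i : Fin 3, i ≠ i + 1 := by decide
  have hfut : ∀ (q : Fin 3 → ℝ) (x : Fin 3 → Fin n → ℝ), (∀ i, 0 < q i) →
      (∀ i j, lor (q i • lift (x i)) (q j • lift (x j)) = if i = j then 0 else -1) →
      ∀ i, Fut (q i • lift (x i) + q (i + 1) • lift (x (i + 1))) := by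
    intro q x hq hl i
    refine ⟨?_, ?_⟩
    · simp only [Pi.add_apply, Pi.smul_apply, smul_eq_mul, lift, Fin.cons_zero, mul_one]
      have := hq i; have := hq (i + 1); linarith
    · have h1 := sum_lor (fun i => q i • lift (x i)) i (i + 1) i (i + 1)
      rw [h1, hl i i, hl i (i + 1), hl (i + 1) i, hl (i + 1) (i + 1), if_pos rfl,
        if_neg (hne i), if_neg (hne i).symm, if_pos rfl]
      norm_num
  obtain ⟨g, hg, hg0, hgu⟩ := Pool.Agent.W867.witt (n := n) (ι := Fin 3)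
    (by rw [Fintype.card_fin]; omega) u w (hfut r a hr hrl) (hfut r' b hr' hrl') (by
      intro i j
      change lor (A i + A (i + 1)) (A j + A (j + 1)) = lor (B i + B (i + 1)) (B j + B (j + 1))
      rw [sum_lor, sum_lor, hAB, hAB, hAB, hAB])
  refine ⟨g, ⟨fun x y => ?_, hg0⟩, ?_⟩
  · rw [form_eq_lor, form_eq_lor]; exact hg.1 x y
  · -- recover the single vectors
    have hgA : ∀ i, g.mulVec (A i) = B i := by
      intro i
      have e : ∀ X : Fin 3 → Fin (n + 1) → ℝ, (2 : ℝ) • X i =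
          (X i + X (i + 1)) + (X (i + 2) + X (i + 2 + 1)) - (X (i + 1) + X (i + 1 + 1)) := by
        intro X
        have h1 : i + 2 + 1 = i := by fin_cases i <;> rfl
        have h2 : i + 1 + 1 = i + 2 := by fin_cases i <;> rfl
        rw [h1, h2, two_smul]; abel
      have h3 := congrArg g.mulVec (e A)
      rw [Matrix.mulVec_sub, Matrix.mulVec_add, hgu i, hgu (i + 2), hgu (i + 1),
        Matrix.mulVec_smul] at h3
      have h4 : (2 : ℝ) • g.mulVec (A i) = (2 : ℝ) • B i := by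
        rw [h3, e B]
      exact smul_right_injective _ (two_ne_zero) h4
    intro i
    refine ⟨r' i / r i, div_pos (hr' i) (hr i), ?_⟩
    have h5 := hgA i
    simp only [hA, hB] at h5
    rw [Matrix.mulVec_smul] at h5
    have h6 : (r i)⁻¹ • (r i • g.mulVec (lift (a i))) = (r i)⁻¹ • (r' i • lift (b i)) := by rw [h5]
    rw [smul_smul, smul_smul, inv_mul_cancel₀ (hr i).ne', one_smul] at h6
    rw [h6, div_eq_inv_mul]

end triples

section volume

/-- the integrable majorant -/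
noncomputable def hh (x : ℝ) : ℝ := Set.indicator (Set.Ioo 0 1) (fun x => (x * (1 - x)) ^ (-(2 / 3 : ℝ))) x

lemma hh_integrable : Integrable hh := by
  unfold hh
  rw [integrable_indicator_iff measurableSet_Ioo]
  have h1 : IntegrableOn (fun x : ℝ => x ^ (-(2 / 3 : ℝ))) (Set.Ioo 0 1) := by
    have := (intervalIntegral.intervalIntegrable_rpow' (a := 0) (b := 1) (r := -(2/3 : ℝ))
      (by norm_num))
    rw [intervalIntegrable_iff_integrableOn_Ioo_of_le zero_le_one] at this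
    exact this
  have h2 : IntegrableOn (fun x : ℝ => (1 - x) ^ (-(2 / 3 : ℝ))) (Set.Ioo 0 1) := by
    have := (intervalIntegral.intervalIntegrable_rpow' (a := 1) (b := 0) (r := -(2/3 : ℝ))
      (by norm_num)).comp_sub_left 1
    simp only [sub_self, sub_zero] at this
    rw [intervalIntegrable_iff_integrableOn_Ioo_of_le zero_le_one] at this
    exact this
  have h3 := (h1.add h2).const_mul ((1 / 2 : ℝ) ^ (-(2 / 3 : ℝ)))
  refine Integrable.mono h3 ?_ ?_
  · exact (Measurable.aestronglyMeasurable (by fun_prop))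
  · rw [ae_restrict_iff' measurableSet_Ioo]
    refine Filter.Eventually.of_forall (fun x hx => ?_)
    obtain ⟨hx0, hx1⟩ := hx
    have hx1' : 0 < 1 - x := by linarith
    rw [Real.norm_of_nonneg (by positivity), Real.norm_of_nonneg (by
      simp only [Pi.add_apply]; positivity), Real.mul_rpow hx0.le hx1'.le]
    simp only [Pi.add_apply]
    have p1 : 0 < x ^ (-(2 / 3 : ℝ)) := Real.rpow_pos_of_pos hx0 _
    have p2 : 0 < (1 - x) ^ (-(2 / 3 : ℝ)) := Real.rpow_pos_of_pos hx1' _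
    have p3 : 0 < (1 / 2 : ℝ) ^ (-(2 / 3 : ℝ)) := by positivity
    by_cases h : x ≤ 1 / 2
    · have : (1 - x) ^ (-(2 / 3 : ℝ)) ≤ (1 / 2 : ℝ) ^ (-(2 / 3 : ℝ)) :=
        Real.rpow_le_rpow_of_nonpos (by norm_num) (by linarith) (by norm_num)
      nlinarith
    · have : x ^ (-(2 / 3 : ℝ)) ≤ (1 / 2 : ℝ) ^ (-(2 / 3 : ℝ)) :=
        Real.rpow_le_rpow_of_nonpos (by norm_num) (by linarith) (by norm_num)
      nlinarith

lemma hh_nonneg (x : ℝ) : 0 ≤ hh x := by
  unfold hh
  apply Set.indicator_nonneg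
  intro x hx
  have : 0 < 1 - x := by linarith [hx.2]
  have := hx.1
  positivity

open Pool.Agent.W409.Klein in
/-- lower bound for the denominator of the density -/
lemma QQ_bound (x : Fin 3 → Fin 3 → ℝ) (hx : ∀ i, ∑ l, x i l ^ 2 = 1)
    (hd : ∀ i j, i ≠ j → x i ≠ x j) : ∃ δ : ℝ, 0 < δ ∧ ∀ s : Fin 3 → ℝ, (∀ i, 0 < s i) →
      ∑ i, s i ≤ 1 → ∀ i, δ * (s i * (1 - s i)) ≤ 1 - QQ x s := by
  have h01 := dot_lt (hx 0) (hx 1) (hd 0 1 (by decide))
  have h02 := dot_lt (hx 0) (hx 2) (hd 0 2 (by decide))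
  have h12 := dot_lt (hx 1) (hx 2) (hd 1 2 (by decide))
  set g01 := 1 - ∑ l, x 0 l * x 1 l with hg01
  set g02 := 1 - ∑ l, x 0 l * x 2 l with hg02
  set g12 := 1 - ∑ l, x 1 l * x 2 l with hg12
  have hp01 : 0 < g01 := by rw [hg01]; linarith
  have hp02 : 0 < g02 := by rw [hg02]; linarith
  have hp12 : 0 < g12 := by rw [hg12]; linarith
  refine ⟨min 1 (min (2 * g01) (min (2 * g02) (2 * g12))), by positivity, ?_⟩
  set δ := min 1 (min (2 * g01) (min (2 * g02) (2 * g12))) with hδ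
  have d0 : 0 < δ := by positivity
  have d1 : δ ≤ 1 := min_le_left _ _
  have d2 : δ ≤ 2 * g01 := (min_le_right _ _).trans (min_le_left _ _)
  have d3 : δ ≤ 2 * g02 := (min_le_right _ _).trans ((min_le_right _ _).trans (min_le_left _ _))
  have d4 : δ ≤ 2 * g12 := (min_le_right _ _).trans ((min_le_right _ _).trans (min_le_right _ _))
  intro s hs hS
  have hs0 := hs 0
  have hs1 := hs 1
  have hs2 := hs 2
  have hQ : 1 - QQ x s = (1 - (s 0 + s 1 + s 2)) * (1 + (s 0 + s 1 + s 2)) +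
      2 * g01 * (s 0 * s 1) + 2 * g02 * (s 0 * s 2) + 2 * g12 * (s 1 * s 2) := by
    have hx0 := hx 0
    have hx1 := hx 1
    have hx2 := hx 2
    simp only [Fin.sum_univ_three] at hx0 hx1 hx2
    rw [hg01, hg02, hg12]
    change 1 - ∑ j : Fin 3, (∑ i : Fin 3, s i * x i j) ^ 2 = _
    simp only [Fin.sum_univ_three]
    linear_combination (-(s 0) ^ 2) * hx0 - (s 1) ^ 2 * hx1 - (s 2) ^ 2 * hx2
  rw [Fin.sum_univ_three] at hS
  have hu : 0 ≤ 1 - (s 0 + s 1 + s 2) := by linarith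
  have q1 : δ * (1 - (s 0 + s 1 + s 2)) ≤ (1 - (s 0 + s 1 + s 2)) * (1 + (s 0 + s 1 + s 2)) := by
    nlinarith
  have q2 : δ * (s 0 * s 1) ≤ 2 * g01 * (s 0 * s 1) :=
    mul_le_mul_of_nonneg_right d2 (by positivity)
  have q3 : δ * (s 0 * s 2) ≤ 2 * g02 * (s 0 * s 2) :=
    mul_le_mul_of_nonneg_right d3 (by positivity)
  have q4 : δ * (s 1 * s 2) ≤ 2 * g12 * (s 1 * s 2) :=
    mul_le_mul_of_nonneg_right d4 (by positivity)
  have key : δ * ((1 - (s 0 + s 1 + s 2)) + s 0 * s 1 + s 0 * s 2 + s 1 * s 2) ≤ 1 - QQ x s := by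
    rw [hQ]; linarith
  have h01' : 0 < s 0 * s 1 := by positivity
  have h02' : 0 < s 0 * s 2 := by positivity
  have h12' : 0 < s 1 * s 2 := by positivity
  intro i
  refine le_trans (mul_le_mul_of_nonneg_left ?_ d0.le) key
  fin_cases i
  · change s 0 * (1 - s 0) ≤ _
    nlinarith
  · change s 1 * (1 - s 1) ≤ _
    nlinarith
  · change s 2 * (1 - s 2) ≤ _
    nlinarith

open Pool.Agent.W409.Klein in
lemma hypVol_eq (x : Fin 3 → Fin 3 → ℝ) (hd : (Matrix.of (fun i j => x i j)).det ≠ 0) :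
    hypVol 3 (convexHull ℝ (insert 0 (Set.range (fun i => x i)))) =
      ENNReal.ofReal |Matrix.det (Matrix.of (fun i j => x i j))| *
        ∫⁻ s in DD 2, ENNReal.ofReal ((1 - QQ x s) ^ (-((2 : ℝ) + 2) / 2)) := by
  have h := vol_eq (k := 2) x hd
  simp only [Nat.cast_ofNat] at h
  refine Eq.trans ?_ h
  unfold hypVol
  congr 2
  funext y
  congr 2
  push_cast
  norm_num

open Pool.Agent.W409.Klein in
/-- finite volume of the cone over an ideal triangle -/
theorem hypVol_finite (x : Fin 3 → Fin 3 → ℝ) (hx : ∀ i, ∑ l, x i l ^ 2 = 1)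
    (hd : ∀ i j, i ≠ j → x i ≠ x j) :
    hypVol 3 (convexHull ℝ (insert 0 (Set.range (fun i => x i)))) < ⊤ := by
  by_cases hdet : (Matrix.of (fun i j => x i j)).det = 0
  · -- the cone is contained in a plane
    obtain ⟨w, hw0, hw⟩ := Matrix.exists_mulVec_eq_zero_iff.2 hdet
    set ℓ : (Fin 3 → ℝ) →ₗ[ℝ] ℝ := ∑ i, w i • (LinearMap.proj i : (Fin 3 → ℝ) →ₗ[ℝ] ℝ) with hℓ
    have hℓa : ∀ y, ℓ y = w ⬝ᵥ y := by
      intro y; simp [hℓ, dotProduct, LinearMap.sum_apply]
    have hsub : convexHull ℝ (insert 0 (Set.range (fun i => x i))) ⊆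
        (LinearMap.ker ℓ : Submodule ℝ (Fin 3 → ℝ)) := by
      apply convexHull_min
      · intro y hy
        rcases hy with rfl | ⟨i, rfl⟩
        · exact Submodule.zero_mem _
        · have := congrFun hw i
          simp only [Matrix.mulVec, Matrix.of_apply, Pi.zero_apply] at this
          change ℓ (x i) = 0
          rw [hℓa, dotProduct_comm]; exact this
      · exact Submodule.convex _
    have hne : (LinearMap.ker ℓ : Submodule ℝ (Fin 3 → ℝ)) ≠ ⊤ := by
      intro h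
      apply hw0
      funext i
      have h1 : (Pi.single i (1 : ℝ) : Fin 3 → ℝ) ∈
          (LinearMap.ker ℓ : Submodule ℝ (Fin 3 → ℝ)) := by
        rw [h]; trivial
      have h2 : ℓ (Pi.single i (1 : ℝ) : Fin 3 → ℝ) = 0 := h1
      rw [hℓa] at h2
      simpa using h2
    have h0 := Measure.addHaar_submodule (volume : Measure (Fin 3 → ℝ)) _ hne
    have h1 : hypVol 3 (convexHull ℝ (insert 0 (Set.range (fun i => x i)))) = 0 := by
      unfold hypVol
      exact withDensity_absolutelyContinuous _ _ (measure_mono_null hsub h0)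
    rw [h1]; exact ENNReal.zero_lt_top
  · rw [hypVol_eq x hdet]
    apply ENNReal.mul_lt_top ENNReal.ofReal_lt_top
    obtain ⟨δ, hδ, hb⟩ := QQ_bound x hx hd
    have hint : Integrable (fun s : Fin 3 → ℝ => ∏ i, hh (s i)) :=
      Integrable.fintype_prod (fun _ => hh_integrable)
    have h1 : ∀ s ∈ DD 2, ENNReal.ofReal ((1 - QQ x s) ^ (-((2 : ℝ) + 2) / 2)) ≤
        ENNReal.ofReal (δ ^ (-2 : ℝ) * ∏ i, hh (s i)) := by
      intro s hs
      apply ENNReal.ofReal_le_ofReal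
      have hs1 : ∀ i, 0 < s i := hs.1
      have hS : ∑ i, s i ≤ 1 := hs.2
      have hS' : s 0 + s 1 + s 2 ≤ 1 := by
        have : ∑ i : Fin 3, s i ≤ 1 := hS
        rwa [Fin.sum_univ_three] at this
      have p0 := hs1 0
      have p1 := hs1 1
      have p2 := hs1 2
      have b0 := hb s hs1 hS 0
      have b1 := hb s hs1 hS 1
      have b2 := hb s hs1 hS 2
      have u0 : 0 < 1 - s 0 := by linarith
      have u1 : 0 < 1 - s 1 := by linarith
      have u2 : 0 < 1 - s 2 := by linarith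
      have hh0 : hh (s 0) = (s 0 * (1 - s 0)) ^ (-(2 / 3 : ℝ)) := by
        unfold hh; rw [Set.indicator_of_mem (show s 0 ∈ Set.Ioo (0 : ℝ) 1 from ⟨p0, by linarith⟩)]
      have hh1 : hh (s 1) = (s 1 * (1 - s 1)) ^ (-(2 / 3 : ℝ)) := by
        unfold hh; rw [Set.indicator_of_mem (show s 1 ∈ Set.Ioo (0 : ℝ) 1 from ⟨p1, by linarith⟩)]
      have hh2 : hh (s 2) = (s 2 * (1 - s 2)) ^ (-(2 / 3 : ℝ)) := by
        unfold hh; rw [Set.indicator_of_mem (show s 2 ∈ Set.Ioo (0 : ℝ) 1 from ⟨p2, by linarith⟩)]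
      have hQ : 0 < 1 - QQ x s := lt_of_lt_of_le (by positivity) b0
      have e1 : (1 - QQ x s) ^ (-((2 : ℝ) + 2) / 2) = (1 - QQ x s) ^ (-(2 / 3 : ℝ)) *
          (1 - QQ x s) ^ (-(2 / 3 : ℝ)) * (1 - QQ x s) ^ (-(2 / 3 : ℝ)) := by
        rw [← Real.rpow_add hQ, ← Real.rpow_add hQ]; norm_num
      have e2 : δ ^ (-2 : ℝ) = δ ^ (-(2 / 3 : ℝ)) * δ ^ (-(2 / 3 : ℝ)) * δ ^ (-(2 / 3 : ℝ)) := by
        rw [← Real.rpow_add hδ, ← Real.rpow_add hδ]; norm_num
      have e3 : ∀ a, 0 < a * (1 - a) → δ * (a * (1 - a)) ≤ 1 - QQ x s →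
          (1 - QQ x s) ^ (-(2 / 3 : ℝ)) ≤ δ ^ (-(2 / 3 : ℝ)) * (a * (1 - a)) ^ (-(2 / 3 : ℝ)) := by
        intro a ha hab
        rw [← Real.mul_rpow hδ.le ha.le]
        exact Real.rpow_le_rpow_of_nonpos (by positivity) hab (by norm_num)
      have hprod : ∏ i : Fin 3, hh (s i) = hh (s 0) * hh (s 1) * hh (s 2) := Fin.prod_univ_three _
      rw [hprod, hh0, hh1, hh2, e1, e2]
      have c0 := e3 (s 0) (by positivity) b0
      have c1 := e3 (s 1) (by positivity) b1
      have c2 := e3 (s 2) (by positivity) b2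
      have n0 : 0 ≤ (1 - QQ x s) ^ (-(2 / 3 : ℝ)) := by positivity
      calc (1 - QQ x s) ^ (-(2 / 3 : ℝ)) * (1 - QQ x s) ^ (-(2 / 3 : ℝ)) *
            (1 - QQ x s) ^ (-(2 / 3 : ℝ))
          ≤ (δ ^ (-(2 / 3 : ℝ)) * (s 0 * (1 - s 0)) ^ (-(2 / 3 : ℝ))) *
            (δ ^ (-(2 / 3 : ℝ)) * (s 1 * (1 - s 1)) ^ (-(2 / 3 : ℝ))) *
            (δ ^ (-(2 / 3 : ℝ)) * (s 2 * (1 - s 2)) ^ (-(2 / 3 : ℝ))) := by gcongr
        _ = _ := by ring
    calc ∫⁻ s in DD 2, ENNReal.ofReal ((1 - QQ x s) ^ (-((2 : ℝ) + 2) / 2))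
        ≤ ∫⁻ s in DD 2, ENNReal.ofReal (δ ^ (-2 : ℝ) * ∏ i, hh (s i)) :=
          setLIntegral_mono' (measurableSet_DD 2) h1
      _ ≤ ∫⁻ s : Fin 3 → ℝ, ENNReal.ofReal (δ ^ (-2 : ℝ) * ∏ i, hh (s i)) :=
          setLIntegral_le_lintegral _ _
      _ < ⊤ := (hint.const_mul (δ ^ (-2 : ℝ))).lintegral_lt_top

open Pool.Agent.W409.Klein in
/-- positive volume of the cone over a nondegenerate triangle -/
theorem hypVol_pos (x : Fin 3 → Fin 3 → ℝ) (hx : ∀ i, ∑ l, x i l ^ 2 = 1)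
    (hd : ∀ i j, i ≠ j → x i ≠ x j) (hdet : (Matrix.of (fun i j => x i j)).det ≠ 0) :
    0 < (hypVol 3 (convexHull ℝ (insert 0 (Set.range (fun i => x i))))).toReal := by
  rw [ENNReal.toReal_pos_iff]
  refine ⟨?_, hypVol_finite x hx hd⟩
  rw [hypVol_eq x hdet]
  apply ENNReal.mul_pos
  · rw [ne_eq, ENNReal.ofReal_eq_zero, not_le]; exact abs_pos.2 hdet
  · have hDD : (volume (DD 2)) ≠ 0 := by
      have hopen : IsOpen {s : Fin 3 → ℝ | (∀ i, 0 < s i) ∧ ∑ i, s i < 1} := by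
        have h1 : IsOpen {s : Fin 3 → ℝ | ∀ i, 0 < s i} := by
          rw [Set.ofPred_forall]
          exact isOpen_iInter_of_finite (fun i => isOpen_lt continuous_const (continuous_apply i))
        have h2 : IsOpen {s : Fin 3 → ℝ | ∑ i, s i < 1} :=
          isOpen_lt (by fun_prop) continuous_const
        exact h1.inter h2
      have hne : ({s : Fin 3 → ℝ | (∀ i, 0 < s i) ∧ ∑ i, s i < 1}).Nonempty := by
        refine ⟨fun _ => 1 / 4, fun _ => by norm_num, ?_⟩
        rw [Fin.sum_univ_three]; norm_num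
      have hpos := hopen.measure_pos volume hne
      have hsub : {s : Fin 3 → ℝ | (∀ i, 0 < s i) ∧ ∑ i, s i < 1} ⊆ DD 2 :=
        fun s hs => ⟨hs.1, hs.2.le⟩
      exact (lt_of_lt_of_le hpos (measure_mono hsub)).ne'
    intro h0
    have hm : Measurable (fun s : Fin 3 → ℝ => ENNReal.ofReal ((1 - QQ x s) ^ (-((2 : ℝ) + 2) / 2))) := by
      have := (continuous_QQ x).measurable
      fun_prop
    rw [lintegral_eq_zero_iff hm] at h0
    rw [Filter.EventuallyEq, ae_restrict_iff' (measurableSet_DD 2)] at h0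
    obtain ⟨δ, hδ, hb⟩ := QQ_bound x hx hd
    apply hDD
    have h1 : ∀ᵐ s : Fin 3 → ℝ, s ∉ DD 2 := by
      filter_upwards [h0] with s hs hsD
      have h2 := hs hsD
      have hs1 : ∀ i, 0 < s i := hsD.1
      have hS : ∑ i, s i ≤ 1 := hsD.2
      have hS' : s 0 + s 1 + s 2 ≤ 1 := by
        have : ∑ i : Fin 3, s i ≤ 1 := hS
        rwa [Fin.sum_univ_three] at this
      have b0 := hb s hs1 hS 0
      have p0 := hs1 0
      have p1 := hs1 1
      have p2 := hs1 2
      have u0 : 0 < 1 - s 0 := by linarith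
      have hQ : 0 < 1 - QQ x s := lt_of_lt_of_le (by positivity) b0
      simp only [Pi.zero_apply, ENNReal.ofReal_eq_zero] at h2
      exact absurd h2 (not_le.2 (Real.rpow_pos_of_pos hQ _))
    rw [ae_iff] at h1
    simpa using h1

end volume

end Pool.Agent.W576.Ideal
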