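import Pool.Agent.W576.IdealProof

/-!
# The flexing ideal tetrahedron
-/

namespace Pool.Agent.W576.Ideal

open MeasureTheory

/-- the oriented boundary of the tetrahedron with vertices `0, 1, 2, 3` -/
def cT (σ : Fin 3 → Fin 4) : ℤ :=
  Int.sign ((((σ 1 : ℕ) : ℤ) - ((σ 0 : ℕ) : ℤ)) * (((σ 2 : ℕ) : ℤ) - ((σ 0 : ℕ) : ℤ)) *
    (((σ 2 : ℕ) : ℤ) - ((σ 1 : ℕ) : ℤ))) * (-1) ^ ((σ 0 : ℕ) + (σ 1 : ℕ) + (σ 2 : ℕ))

/-- the vertices of the flexing ideal tetrahedron -/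
noncomputable def PT (t : ℝ) : Fin 4 → Fin 3 → ℝ :=
  ![![1, 0, 0], ![-1, 0, 0], ![0, 1, 0], ![0, -Real.cos t, Real.sin t]]

/-- integer vertices -/
def QT : Fin 4 → Fin 3 → ℤ := ![![1, 0, 0], ![-1, 0, 0], ![0, 1, 0], ![0, 0, 1]]

/-- integer determinants -/
def dT (σ : Fin 3 → Fin 4) : ℤ :=
  QT (σ 0) 0 * QT (σ 1) 1 * QT (σ 2) 2 - QT (σ 0) 0 * QT (σ 1) 2 * QT (σ 2) 1 -
    QT (σ 0) 1 * QT (σ 1) 0 * QT (σ 2) 2 + QT (σ 0) 1 * QT (σ 1) 2 * QT (σ 2) 0 +
    QT (σ 0) 2 * QT (σ 1) 0 * QT (σ 2) 1 - QT (σ 0) 2 * QT (σ 1) 1 * QT (σ 2) 0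

lemma cT_values : ∀ σ, cT σ = 0 ∨ cT σ = 1 ∨ cT σ = -1 := by decide +kernel

lemma cT_alt : ∀ (σ : Fin 3 → Fin 4) (π : Equiv.Perm (Fin 3)),
    cT (σ ∘ π) = ((Equiv.Perm.sign π : ℤˣ) : ℤ) * cT σ := by decide +kernel

lemma cT_closed : ∀ τ : Fin 2 → Fin 4, (∃ q, cT (Fin.cons q τ) ≠ 0) →
    ∃ q q', cT (Fin.cons q τ) = 1 ∧ cT (Fin.cons q' τ) = -1 ∧
      ∀ q'', cT (Fin.cons q'' τ) ≠ 0 → q'' = q ∨ q'' = q' := by decide +kernel

lemma cT_pure : ∀ j : Fin 4, ∃ σ, cT σ ≠ 0 ∧ ∃ i, σ i = j := by decide +kernel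

lemma cT_image : ∀ σ, cT σ ≠ 0 → ∃ a, Finset.univ.image σ = Finset.univ.erase a := by
  decide +kernel

lemma cT_adj : ∀ a b : Fin 4, a ≠ b → ∃ (τ : Fin 2 → Fin 4) (q q' : Fin 4),
    cT (Fin.cons q τ) ≠ 0 ∧ cT (Fin.cons q' τ) ≠ 0 ∧
    Finset.univ.erase a = Finset.univ.image (Fin.cons q τ : Fin 3 → Fin 4) ∧
    Finset.univ.erase b = Finset.univ.image (Fin.cons q' τ : Fin 3 → Fin 4) := by decide +kernel

lemma cT_inj : ∀ σ, cT σ ≠ 0 → ∀ i j, i ≠ j → σ i ≠ σ j := by decide +kernel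

lemma cT_dT : ∀ σ, cT σ * Int.sign (dT σ) ≤ 0 := by decide +kernel

lemma cT_dT0 : cT ![0, 2, 3] * Int.sign (dT ![0, 2, 3]) = -1 := by decide +kernel

theorem cT_pseudomanifold : IsPseudomanifold (d := 2) cT where
  values := cT_values
  alternating := cT_alt
  closed := cT_closed
  pure := cT_pure
  connected := by
    intro σ σ' h h'
    obtain ⟨a, ha⟩ := cT_image σ h
    obtain ⟨b, hb⟩ := cT_image σ' h'
    rw [ha, hb]
    by_cases hab : a = b
    · rw [hab]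
    · obtain ⟨τ, q, q', h1, h2, h3, h4⟩ := cT_adj a b hab
      exact Relation.ReflTransGen.single ⟨τ, q, q', h1, h2, h3, h4⟩

lemma PT_unit (t : ℝ) (j : Fin 4) : ∑ i, PT t j i ^ 2 = 1 := by
  rw [Fin.sum_univ_three]
  fin_cases j
  · simp [PT]
  · simp [PT]
  · simp [PT]
  · simp [PT]

lemma cos_pos' {t : ℝ} (ht : t ∈ Set.Icc (0 : ℝ) 1) : 0 < Real.cos t := by
  apply Real.cos_pos_of_mem_Ioo
  have := Real.pi_gt_three
  constructor <;> [linarith [ht.1]; linarith [ht.2]]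

lemma PT_ne {t : ℝ} (ht : t ∈ Set.Icc (0 : ℝ) 1) (i j : Fin 4) (hij : i ≠ j) :
    PT t i ≠ PT t j := by
  have hc := cos_pos' ht
  intro h
  have h0 := congrFun h 0
  have h1 := congrFun h 1
  fin_cases i <;> fin_cases j <;> simp [PT] at h0 h1 hij <;> linarith

lemma PT_det (t : ℝ) (σ : Fin 3 → Fin 4) :
    Matrix.det (Matrix.of (fun i j => PT t (σ i) j)) = Real.sin t * (dT σ : ℝ) := by
  set M : Matrix (Fin 3) (Fin 3) ℝ :=
    !![1, 0, 0; 0, 1, 0; 0, -Real.cos t, Real.sin t] with hM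
  have hMdet : M.det = Real.sin t := by
    rw [hM, Matrix.det_fin_three]; simp
  have hrow : ∀ a : Fin 4, PT t a = Matrix.vecMul (fun j => (QT a j : ℝ)) M := by
    intro a
    funext j
    simp only [Matrix.vecMul, dotProduct, Fin.sum_univ_three]
    fin_cases a <;> fin_cases j <;> simp [PT, QT, hM]
  have hmul : Matrix.of (fun i j => PT t (σ i) j) =
      Matrix.of (fun i j => (QT (σ i) j : ℝ)) * M := by
    ext i j
    rw [Matrix.of_apply, hrow]
    rfl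
  rw [hmul, Matrix.det_mul, hMdet, Matrix.det_fin_three]
  simp only [Matrix.of_apply, dT]
  push_cast
  ring

lemma sign_mul_int {s : ℝ} (hs : 0 < s) (d : ℤ) : Real.sign (s * (d : ℝ)) = (Int.sign d : ℝ) := by
  rcases lt_trichotomy d 0 with h | h | h
  · rw [Int.sign_eq_neg_one_of_neg h, Real.sign_of_neg]
    · simp
    · exact mul_neg_of_pos_of_neg hs (by exact_mod_cast h)
  · subst h; simp
  · rw [Int.sign_eq_one_of_pos h, Real.sign_of_pos]
    · simp
    · exact mul_pos hs (by exact_mod_cast h)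

theorem PT_flexion : IsUnboundedFlexion (d := 2) cT PT where
  continuous := by
    apply Continuous.continuousOn
    refine continuous_pi (fun j => continuous_pi (fun i => ?_))
    fin_cases j <;> fin_cases i <;> simp [PT] <;> fun_prop
  closedBall := fun t _ j => (PT_unit t j).le
  unbounded := fun t _ => ⟨0, PT_unit t 0⟩
  finite := fun t ht σ hσ => hypVol_finite (fun i => PT t (σ i)) (fun i => PT_unit t _)
    (fun i j hij => PT_ne ht _ _ (cT_inj σ hσ i j hij))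
  congruent := fun σ hσ s hs t ht => triples_congruent le_rfl (fun i => PT s (σ i))
    (fun i => PT t (σ i)) (fun i => PT_unit s _) (fun i => PT_unit t _)
    (fun i j hij => PT_ne hs _ _ (cT_inj σ hσ i j hij))
    (fun i j hij => PT_ne ht _ _ (cT_inj σ hσ i j hij))
  flexes := by
    intro h
    obtain ⟨g, hg, hgs⟩ := h 1 ⟨zero_le_one, le_rfl⟩
    obtain ⟨a0, ha0, e0⟩ := hgs 0
    obtain ⟨a1, ha1, e1⟩ := hgs 1
    obtain ⟨a2, ha2, e2⟩ := hgs 2
    obtain ⟨a3, ha3, e3⟩ := hgs 3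
    have hrel : lift (PT 0 0) + lift (PT 0 1) = lift (PT 0 2) + lift (PT 0 3) := by
      funext i
      fin_cases i <;> simp [lift, PT, Fin.cons] <;> norm_num
    have h1 := congrArg g.mulVec hrel
    rw [Matrix.mulVec_add, Matrix.mulVec_add, e0, e1, e2, e3] at h1
    have h2 := congrFun h1 (Fin.succ 2)
    simp only [Pi.add_apply, Pi.smul_apply, smul_eq_mul, lift, Fin.cons_succ] at h2
    have hs : 0 < Real.sin 1 := Real.sin_pos_of_pos_of_lt_pi one_pos (by linarith [Real.pi_gt_three])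
    simp [PT] at h2
    rcases h2 with h2 | h2
    · exact ha3.ne' h2
    · exact hs.ne' h2

theorem genVol_zero : genVol (d := 2) cT (PT 0) = 0 := by
  unfold genVol
  rw [Finset.sum_eq_zero, mul_zero]
  intro σ _
  have : Matrix.det (Matrix.of (fun i j => PT 0 (σ i) j)) = 0 := by
    rw [PT_det]; simp
  change (cT σ : ℝ) * Real.sign (Matrix.det (Matrix.of (fun i j => PT 0 (σ i) j))) * _ = 0
  rw [this]; simp

theorem genVol_one : genVol (d := 2) cT (PT 1) < 0 := by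
  have hs : 0 < Real.sin 1 := Real.sin_pos_of_pos_of_lt_pi one_pos (by linarith [Real.pi_gt_three])
  have hterm : ∀ σ : Fin 3 → Fin 4, (cT σ : ℝ) *
      Real.sign (Matrix.det (Matrix.of (fun i j => PT 1 (σ i) j))) =
      ((cT σ * Int.sign (dT σ) : ℤ) : ℝ) := by
    intro σ
    rw [PT_det, sign_mul_int hs]; push_cast; ring
  unfold genVol
  apply mul_neg_of_pos_of_neg (by positivity)
  apply Finset.sum_neg'
  · intro σ _
    apply mul_nonpos_of_nonpos_of_nonneg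
    · change (cT σ : ℝ) * Real.sign (Matrix.det (Matrix.of (fun i j => PT 1 (σ i) j))) ≤ 0
      rw [hterm]; exact_mod_cast cT_dT σ
    · exact ENNReal.toReal_nonneg
  · refine ⟨![0, 2, 3], Finset.mem_univ _, ?_⟩
    have hne : cT ![0, 2, 3] ≠ 0 := by decide +kernel
    have hdet : Matrix.det (Matrix.of (fun i j => PT 1 (![0, 2, 3] i) j)) ≠ 0 := by
      rw [PT_det]
      have : dT ![0, 2, 3] = 1 := by decide +kernel
      rw [this]; simp [hs.ne']
    have hpos := hypVol_pos (fun i => PT 1 (![0, 2, 3] i)) (fun i => PT_unit 1 _)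
      (fun i j hij => PT_ne ⟨zero_le_one, le_rfl⟩ _ _ (cT_inj _ hne i j hij)) hdet
    have h1 := hterm ![0, 2, 3]
    rw [cT_dT0] at h1
    change (cT ![0, 2, 3] : ℝ) * Real.sign (Matrix.det (Matrix.of
      (fun i j => PT 1 (![0, 2, 3] i) j))) * _ < 0
    rw [h1]
    have h2 : (((-1 : ℤ) : ℝ)) < 0 := by norm_num
    exact mul_neg_of_neg_of_pos h2 hpos

end Pool.Agent.W576.Ideal
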