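import Pool.Agent.W576.Standard2
import Pool.Agent.W365.BlockDet
import Pool.Agent.W63.S11

/-!
# The translations along a line and the swap of an edge
-/

set_option linter.unusedSectionVars false

namespace Pool.Agent.W576

open Pool.Agent.W31.Bel

section moves

variable {K : Type} [Field K] [Algebra ℂ K] {κ : Type} [Field κ] (p : Place K κ)
variable {r m : ℕ}

/-- the scaling vector -/
noncomputable def scv (a : ℤ) : SI r → K :=
  Sum.elim (Sum.elim (fun _ => 1) (fun _ => p.t ^ a)) (fun _ => p.t ^ (-a))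

/-- translation along the standard line -/
noncomputable def Rm (a : ℤ) : (SI r → K) ≃ₗ[K] (SI r → K) where
  toFun X := fun i => scv p a i * X i
  invFun X := fun i => scv p (-a) i * X i
  map_add' X Y := by funext i; simp [mul_add]
  map_smul' c X := by funext i; simp; ring
  left_inv X := by
    have ht := p.t_ne
    apply ext_SI
    · intro i; simp [scv]
    · simp only [scv, Sum.elim_inl, Sum.elim_inr]
      rw [← mul_assoc, ← zpow_add₀ ht]; simp
    · simp only [scv, Sum.elim_inr]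
      rw [← mul_assoc, ← zpow_add₀ ht]; simp
  right_inv X := by
    have ht := p.t_ne
    apply ext_SI
    · intro i; simp [scv]
    · simp only [scv, Sum.elim_inl, Sum.elim_inr]
      rw [← mul_assoc, ← zpow_add₀ ht]; simp
    · simp only [scv, Sum.elim_inr]
      rw [← mul_assoc, ← zpow_add₀ ht]; simp

lemma Rm_apply (a : ℤ) (X : SI r → K) : Rm p a X = fun i => scv p a i * X i := rfl

lemma Rm_symm (a : ℤ) : (Rm p a : (SI r → K) ≃ₗ[K] (SI r → K)).symm = Rm p (-a) := by
  apply LinearEquiv.ext; intro X; rfl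

lemma Rm_toLin (a : ℤ) : ((Rm p a : (SI r → K) ≃ₗ[K] (SI r → K)) : (SI r → K) →ₗ[K] (SI r → K)) =
    Matrix.toLin' (Matrix.diagonal (scv p a)) := by
  apply LinearMap.ext; intro X
  funext i
  rw [Matrix.toLin'_apply, Matrix.mulVec_diagonal]; rfl

lemma Rm_det (a : ℤ) : LinearMap.det
    ((Rm p a : (SI r → K) ≃ₗ[K] (SI r → K)) : (SI r → K) →ₗ[K] (SI r → K)) = 1 := by
  rw [Rm_toLin, LinearMap.det_toLin', Matrix.det_diagonal, Fintype.prod_sum_type,
    Fintype.prod_sum_type]
  simp only [scv, Sum.elim_inl, Sum.elim_inr, Finset.prod_const_one, one_mul,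
    Finset.univ_unique, Finset.prod_singleton]
  rw [← zpow_add₀ p.t_ne]; simp

lemma Rm_sform (a : ℤ) (X Y : SI r → K) : sform (Rm p a X) (Rm p a Y) = sform X Y := by
  rw [Rm_apply, Rm_apply]
  unfold sform
  simp only [scv, Sum.elim_inl, Sum.elim_inr, one_mul]
  have h : p.t ^ a * p.t ^ (-a) = 1 := by rw [← zpow_add₀ p.t_ne]; simp
  linear_combination (2 * X (.inl (.inr ())) * Y (.inr ()) + 2 * X (.inr ()) * Y (.inl (.inr ()))) * h

lemma L_Rm (a b : ℤ) (X : SI r → K) : p.L b (Rm p a X) ↔ p.L (a + b) X := by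
  rw [Rm_apply]
  unfold Place.L
  simp only [scv, Sum.elim_inl, Sum.elim_inr, one_mul]
  have h1 : p.t ^ b * (p.t ^ a * X (.inl (.inr ()))) = p.t ^ (a + b) * X (.inl (.inr ())) := by
    rw [← mul_assoc, ← zpow_add₀ p.t_ne, add_comm b a]
  have h2 : p.t ^ (-b) * (p.t ^ (-a) * X (.inr ())) = p.t ^ (-(a + b)) * X (.inr ()) := by
    rw [← mul_assoc, ← zpow_add₀ p.t_ne]; congr 2; ring
  rw [h1, h2]

lemma L_Rm_symm (a b : ℤ) (X : SI r → K) : p.L b ((Rm p a).symm X) ↔ p.L (b - a) X := by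
  rw [Rm_symm, L_Rm, neg_add_eq_sub]

lemma Rm_emb (a : ℤ) (x : Fin (r + 1) → ℝ) : Rm p a (emb x) = emb x := by
  rw [Rm_apply]
  apply ext_SI
  · intro i; simp [scv]
  · simp [emb]
  · simp [emb]

lemma L_emb (a : ℤ) (x : Fin (r + 1) → ℝ) : p.L a (emb x : SI r → K) := by
  refine ⟨fun i => p.alg _, ?_, ?_⟩
  · simp [emb, p.O.zero_mem]
  · simp [emb, p.O.zero_mem]

/-- sign vector flipping the last real coordinate -/
noncomputable def flv : SI r → K :=
  Sum.elim (Sum.elim (fun i => if i = Fin.last r then -1 else 1) (fun _ => 1)) (fun _ => 1)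

/-- the swap of the two isotropic coordinates, with a flip of the last real coordinate -/
noncomputable def Sw : (SI r → K) →ₗ[K] (SI r → K) :=
  Matrix.toLin' (Matrix.diagonal flv *
    (Equiv.swap (Sum.inl (Sum.inr ()) : SI r) (Sum.inr ())).permMatrix K)

lemma Sw_apply (X : SI r → K) (i : SI r) : (Sw : (SI r → K) →ₗ[K] (SI r → K)) X i =
    flv i * X (Equiv.swap (Sum.inl (Sum.inr ()) : SI r) (Sum.inr ()) i) := by
  unfold Sw
  rw [Matrix.toLin'_apply, ← Matrix.mulVec_mulVec, Matrix.mulVec_diagonal,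
    Matrix.permMatrix_mulVec]
  rfl

lemma Sw_det : LinearMap.det (Sw : (SI r → K) →ₗ[K] (SI r → K)) = 1 := by
  unfold Sw
  rw [LinearMap.det_toLin', Matrix.det_mul, Matrix.det_diagonal, Matrix.det_permutation,
    Equiv.Perm.sign_swap (by simp), Fintype.prod_sum_type, Fintype.prod_sum_type]
  simp [flv, Finset.prod_ite_eq']

lemma Sw_xi (X : SI r → K) : (Sw : (SI r → K) →ₗ[K] (SI r → K)) X (.inl (.inr ())) = X (.inr ()) := by
  rw [Sw_apply, Equiv.swap_apply_left]; simp [flv]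

lemma Sw_ze (X : SI r → K) : (Sw : (SI r → K) →ₗ[K] (SI r → K)) X (.inr ()) = X (.inl (.inr ())) := by
  rw [Sw_apply, Equiv.swap_apply_right]; simp [flv]

lemma Sw_i (X : SI r → K) (i : Fin (r + 1)) :
    (Sw : (SI r → K) →ₗ[K] (SI r → K)) X (.inl (.inl i)) =
      (if i = Fin.last r then -1 else 1) * X (.inl (.inl i)) := by
  rw [Sw_apply, Equiv.swap_apply_of_ne_of_ne (by simp) (by simp)]; simp [flv]

lemma Sw_sform (X Y : SI r → K) :
    sform ((Sw : (SI r → K) →ₗ[K] (SI r → K)) X) ((Sw : (SI r → K) →ₗ[K] (SI r → K)) Y) =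
      sform X Y := by
  unfold sform
  rw [Sw_xi, Sw_xi, Sw_ze, Sw_ze]
  have h : ∀ i : Fin (r + 1), (eta i : K) *
      ((Sw : (SI r → K) →ₗ[K] (SI r → K)) X (.inl (.inl i)) *
        (Sw : (SI r → K) →ₗ[K] (SI r → K)) Y (.inl (.inl i))) =
      eta i * (X (.inl (.inl i)) * Y (.inl (.inl i))) := by
    intro i
    rw [Sw_i, Sw_i]
    split_ifs <;> ring
  rw [Finset.sum_congr rfl (fun i _ => h i)]
  ring

lemma flip_mem {i : Fin (r + 1)} {x : K} : (if i = Fin.last r then -1 else 1) * x ∈ p.O ↔ x ∈ p.O := by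
  split_ifs
  · rw [neg_one_mul]; exact p.O.neg_mem_iff
  · rw [one_mul]

lemma L_Sw (a : ℤ) (X : SI r → K) : p.L a ((Sw : (SI r → K) →ₗ[K] (SI r → K)) X) ↔ p.L (-a) X := by
  unfold Place.L
  rw [Sw_xi, Sw_ze, neg_neg]
  constructor
  · rintro ⟨h1, h2, h3⟩
    refine ⟨fun i => ?_, h3, h2⟩
    have := h1 i
    rwa [Sw_i, flip_mem p] at this
  · rintro ⟨h1, h2, h3⟩
    refine ⟨fun i => ?_, h3, h2⟩
    rw [Sw_i, flip_mem p]
    exact h1 i

/-- flipping the last coordinate of real vectors -/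
def flipR (x : Fin (r + 1) → ℝ) : Fin (r + 1) → ℝ := fun i => (if i = Fin.last r then -1 else 1) * x i

lemma Sw_emb (x : Fin (r + 1) → ℝ) : (Sw : (SI r → K) →ₗ[K] (SI r → K)) (emb x) = emb (flipR x) := by
  apply ext_SI
  · intro i
    rw [Sw_i]
    simp only [emb, Sum.elim_inl, flipR]
    split_ifs <;> simp
  · rw [Sw_xi]; simp [emb]
  · rw [Sw_ze]; simp [emb]

lemma det_flipR (x : Fin (r + 1) → Fin (r + 1) → ℝ) :
    (Matrix.of fun i => flipR (x i)).det = - (Matrix.of x).det := by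
  have h : (Matrix.of fun i => flipR (x i)) = Matrix.of x *
      Matrix.diagonal (fun i : Fin (r + 1) => if i = Fin.last r then (-1 : ℝ) else 1) := by
    ext i j
    rw [Matrix.mul_diagonal]
    simp only [Matrix.of_apply, flipR]; ring
  rw [h, Matrix.det_mul, Matrix.det_diagonal]
  simp [Finset.prod_ite_eq']

lemma flipR_flipR (x : Fin (r + 1) → ℝ) : flipR (flipR x) = x := by
  funext i; unfold flipR; split_ifs <;> ring

end moves

end Pool.Agent.W576
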