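import Pool.Agent.W576.PlaceSum2
import Pool.Agent.W378.B13c

/-!
# The place sum vanishes
-/

namespace Pool.Agent.W576

theorem hcycle : HCycle := by
  intro κ _ ρ r m hr v hv S V w hw Z hZalt hZS hcyc
  exact Pool.Agent.W378.B13.cycle_vol_zero ρ hr v hv S V w hw Z hZalt hZS hcyc

theorem place_sum_zero {K : Type} [Field K] [Algebra ℂ K] {κ : Type} [Field κ] (p : Place K κ)
    {r m : ℕ} (hr : 1 ≤ r)
    (v : Fin m → Fin (r+3) → ℝ) (hv : ∀ j, Fut (v j)) (c : (Fin (r+2) → Fin m) → ℤ)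
    (hcalt : ∀ (σ : Fin (r+2) → Fin m) (π : Equiv.Perm (Fin (r+2))),
      c (σ ∘ π) = ((Equiv.Perm.sign π : ℤˣ) : ℤ) * c σ)
    (hccyc : ∀ τ : Fin (r+1) → Fin m, ∑ q, c (Fin.cons q τ) = 0)
    (T : Finset (Fin (r+1) → Fin m))
    (h : (Fin (r+1) → Fin m) → Matrix (Fin (r+3)) (Fin (r+3)) ℝ)
    (x : (Fin (r+1) → Fin m) → Fin (r+1) → Fin (r+1) → ℝ)
    (ref : (Fin (r+1) → Fin m) → Finset (Fin m)) (hD : FaceData v c T h x ref)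
    (g : Finset (Fin m) → Matrix (Fin (r+3)) (Fin (r+3)) K) (hg : IsConf (reHom K) v c g)
    (n : (Fin (r+1) → Fin m) → Finset (Fin m) → ℤ)
    (hn : ∀ τ ∈ T, ∀ s ∈ supp c, (∀ i, τ i ∈ s) →
        p.t ^ (-(n τ s)) * zz (h τ) (g s) (g (ref τ)) ∈ p.O ∧
        (p.t ^ (-(n τ s)) * zz (h τ) (g s) (g (ref τ)))⁻¹ ∈ p.O) :
    ∑ τ ∈ T, I0 (gram fun i => v (τ i)) * (Matrix.of (x τ)).det *
      ((∑ q, c (Fin.cons q τ) * n τ (rng (Fin.cons q τ : Fin (r+2) → Fin m)) : ℤ) : ℝ) = 0 :=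
  place_sum_zero' p hcycle hr v hv c hcalt hccyc T h x ref hD g hg n hn

end Pool.Agent.W576
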