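import Pool.Agent.W576.Standard

/-!
# The standard position lemma, continued
-/

set_option linter.unusedSectionVars false

namespace Pool.Agent.W576

open Pool.Agent.W31.Bel

section std

variable {K : Type} [Field K] [Algebra ℂ K] {κ : Type} [Field κ] (p : Place K κ)
variable {r m : ℕ}

lemma reHom_mem (y : ℝ) : reHom K y ∈ p.O := p.alg _

lemma chi_imp (hr : 1 ≤ r) (v : Fin m → Fin (r + 3) → ℝ) (hv : ∀ j, Fut (v j))
    (c : (Fin (r + 2) → Fin m) → ℤ) (L : Finset (Fin m) → Set (SI r → K))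
    (hSD : ∀ s ∈ supp c, SelfDual p (L s)) (V : Fin m → SI r → K)
    (hVL : ∀ s ∈ supp c, ∀ j ∈ s, V j ∈ L s)
    (hVg : ∀ s ∈ supp c, ∀ i ∈ s, ∀ j ∈ s, sform (V i) (V j) = reHom K (lor (v i) (v j)))
    (ε : Fin r → Fin m) (hε : ∀ i, ε i ∈ VV p V) (hli : LinearIndependent ℝ (fun i => v (ε i)))
    (q : Fin m) (hq : q ∉ VV p V) (s s' : Finset (Fin m)) (hs : s ∈ supp c) (hs' : s' ∈ supp c)
    (hqs : q ∈ s) (hqs' : q ∈ s') (hεs : ∀ i, ε i ∈ s) (hεs' : ∀ i, ε i ∈ s')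
    (h : Chi p (L s)) : Chi p (L s') := by
  by_contra hcon
  apply hq
  -- coefficients
  have hG := gram_det_ne hr (fun i => v (ε i)) (fun i => hv _) hli
  set G := gram (fun i => v (ε i)) with hGdef
  set γ : Fin r → ℝ := fun j => lor (v q) (v (ε j)) with hγ
  set a : Fin r → ℝ := G⁻¹.mulVec γ with ha
  have hGa : G.mulVec a = γ := by
    rw [ha, Matrix.mulVec_mulVec, Matrix.mul_nonsing_inv _ (isUnit_iff_ne_zero.2 hG),
      Matrix.one_mulVec]
  have hGa' : ∀ j, ∑ i, a i * lor (v (ε i)) (v (ε j)) = lor (v q) (v (ε j)) := by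
    intro j
    have h1 := congrFun hGa j
    simp only [Matrix.mulVec, dotProduct] at h1
    rw [show γ j = lor (v q) (v (ε j)) from rfl] at h1
    rw [← h1]
    refine Finset.sum_congr rfl (fun i _ => ?_)
    rw [hGdef]
    change a i * lor (v (ε i)) (v (ε j)) = lor (v (ε j)) (v (ε i)) * a i
    rw [lor_comm' (v (ε i))]; ring
  set b : SI r → K := V q - ∑ i, reHom K (a i) • V (ε i) with hb
  have hbu : ∀ j, sform b (V (ε j)) = 0 := by
    intro j
    rw [hb, sform_sub_left, sform_sum_left, hVg s hs q hqs (ε j) (hεs j), ← hGa' j, map_sum,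
      sub_eq_zero]
    refine Finset.sum_congr rfl (fun i _ => ?_)
    rw [sform_smul_left, hVg s hs (ε i) (hεs i) (ε j) (hεs j), map_mul]
  have hbb : sform b b = algebraMap ℂ K ((lor (v q) (v q) - ∑ i, a i * lor (v (ε i)) (v q) : ℝ) : ℂ) := by
    have h1 : sform b b = sform b (V q) := by
      conv_lhs => rw [sform_comm]
      rw [hb, sform_sub_left, sform_sum_left, ← hb]
      have h2 : ∑ i, sform (reHom K (a i) • V (ε i)) b = 0 := by
        apply Finset.sum_eq_zero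
        intro i _
        rw [sform_smul_left, sform_comm, hbu i, mul_zero]
      rw [h2, sub_zero, sform_comm]
    rw [h1, hb, sform_sub_left, sform_sum_left, hVg s hs q hqs q hqs]
    have h3 : ∑ i, sform (reHom K (a i) • V (ε i)) (V q) =
        reHom K (∑ i, a i * lor (v (ε i)) (v q)) := by
      rw [map_sum]
      refine Finset.sum_congr rfl (fun i _ => ?_)
      rw [sform_smul_left, hVg s hs (ε i) (hεs i) q hqs, map_mul]
    rw [h3, ← map_sub]
    rfl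
  have hbL : ∀ s ∈ supp c, q ∈ s → (∀ i, ε i ∈ s) → b ∈ L s := by
    intro s hs hqs hεs
    have h1 : b = V q + (-1 : K) • ∑ i, reHom K (a i) • V (ε i) := by
      rw [hb]; simp [sub_eq_add_neg]
    rw [h1]
    exact (hSD s hs).add p (hVL s hs q hqs) ((hSD s hs).smul p (p.O.neg_mem p.O.one_mem)
      ((hSD s hs).sum p _ _ (fun i _ => (hSD s hs).smul p (reHom_mem p _) (hVL s hs _ (hεs i)))))
  have hkey := Pool.Agent.W377.Side.side_const p (L s) (L s') (hSD s hs) (hSD s' hs')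
    (fun i => V (ε i)) (fun i => ((mem_VV p V _).1 (hε i)).1)
    (fun i => ((mem_VV p V _).1 (hε i)).2) G
    (fun i j => hVg s hs (ε i) (hεs i) (ε j) (hεs j)) hG b hbu _ hbb (hbL s hs hqs hεs)
    (hbL s' hs' hqs' hεs') h hcon
  have hVq : V q = b + ∑ i, reHom K (a i) • V (ε i) := by rw [hb]; simp
  rw [mem_VV, hVq]
  exact ⟨L_add p hkey.1 (L_sum p _ _ (fun i _ => L_smul p (reHom_mem p _) ((mem_VV p V _).1 (hε i)).1)),
    L_add p hkey.2 (L_sum p _ _ (fun i _ => L_smul p (reHom_mem p _) ((mem_VV p V _).1 (hε i)).2))⟩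

lemma Zc_off (hr : 1 ≤ r) (v : Fin m → Fin (r + 3) → ℝ) (hv : ∀ j, Fut (v j))
    (c : (Fin (r + 2) → Fin m) → ℤ)
    (hccyc : ∀ τ : Fin (r + 1) → Fin m, ∑ q, c (Fin.cons q τ) = 0)
    (L : Finset (Fin m) → Set (SI r → K))
    (hSD : ∀ s ∈ supp c, SelfDual p (L s)) (V : Fin m → SI r → K)
    (hVL : ∀ s ∈ supp c, ∀ j ∈ s, V j ∈ L s)
    (hVg : ∀ s ∈ supp c, ∀ i ∈ s, ∀ j ∈ s, sform (V i) (V j) = reHom K (lor (v i) (v j)))
    (ε : Fin r → Fin m) (hε : ∀ i, ε i ∈ VV p V) (hli : LinearIndependent ℝ (fun i => v (ε i)))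
    (q : Fin m) (hq : q ∉ VV p V) : Zc p c L (Fin.cons q ε) = 0 := by
  classical
  unfold Zc
  by_cases hall : ∀ q', c (Fin.cons q' (Fin.cons q ε : Fin (r + 1) → Fin m)) = 0
  · apply Finset.sum_eq_zero
    intro q' _
    rw [hall q', zero_mul]
  push Not at hall
  obtain ⟨q0, hq0⟩ := hall
  set s0 := rng (Fin.cons q0 (Fin.cons q ε : Fin (r + 1) → Fin m) : Fin (r + 2) → Fin m) with hs0
  have hmem : ∀ q', c (Fin.cons q' (Fin.cons q ε : Fin (r + 1) → Fin m)) ≠ 0 →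
      rng (Fin.cons q' (Fin.cons q ε : Fin (r + 1) → Fin m) : Fin (r + 2) → Fin m) ∈ supp c :=
    fun q' h => ⟨_, h, rfl⟩
  have hq1 : ∀ q', q ∈ rng (Fin.cons q' (Fin.cons q ε : Fin (r + 1) → Fin m) : Fin (r + 2) → Fin m) := by
    intro q'
    have := mem_rng_cons' q' (Fin.cons q ε : Fin (r + 1) → Fin m) 0
    simpa using this
  have hε1 : ∀ q' i, ε i ∈
      rng (Fin.cons q' (Fin.cons q ε : Fin (r + 1) → Fin m) : Fin (r + 2) → Fin m) := by
    intro q' i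
    have := mem_rng_cons' q' (Fin.cons q ε : Fin (r + 1) → Fin m) i.succ
    simpa using this
  have hchi : ∀ q', c (Fin.cons q' (Fin.cons q ε : Fin (r + 1) → Fin m)) ≠ 0 →
      (Chi p (L (rng (Fin.cons q' (Fin.cons q ε : Fin (r + 1) → Fin m) : Fin (r + 2) → Fin m))) ↔
        Chi p (L s0)) := by
    intro q' hq'
    constructor
    · exact chi_imp p hr v hv c L hSD V hVL hVg ε hε hli q hq _ _ (hmem q' hq') (hmem q0 hq0)
        (hq1 q') (hq1 q0) (hε1 q') (hε1 q0)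
    · exact chi_imp p hr v hv c L hSD V hVL hVg ε hε hli q hq _ _ (hmem q0 hq0) (hmem q' hq')
        (hq1 q0) (hq1 q') (hε1 q0) (hε1 q')
  have h2 : ∀ q', c (Fin.cons q' (Fin.cons q ε : Fin (r + 1) → Fin m)) *
      (if Chi p (L (rng (Fin.cons q' (Fin.cons q ε : Fin (r + 1) → Fin m) : Fin (r + 2) → Fin m)))
        then (1 : ℤ) else 0) =
      c (Fin.cons q' (Fin.cons q ε : Fin (r + 1) → Fin m)) * (if Chi p (L s0) then 1 else 0) := by
    intro q'
    by_cases hq' : c (Fin.cons q' (Fin.cons q ε : Fin (r + 1) → Fin m)) = 0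
    · rw [hq', zero_mul, zero_mul]
    · rw [if_congr (hchi q' hq') rfl rfl]
  rw [Finset.sum_congr rfl (fun q' _ => h2 q'), ← Finset.sum_mul, hccyc, zero_mul]

/-- the statement of the theorem on cycles of real simplices over a big field -/
def HCycle : Prop := ∀ {κ : Type} [Field κ] (ρ : ℝ →+* κ) {r m : ℕ} (_hr : 1 ≤ r)
    (v : Fin m → Fin (r+3) → ℝ) (_hv : ∀ j, Fut (v j))
    (S : Set (Finset (Fin m))) (V : Finset (Fin m)) (w : Fin m → Fin (r+1) → κ)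
    (_hw : ∀ s ∈ S, ∀ i ∈ s, ∀ j ∈ s, i ∈ V → j ∈ V → lor (w i) (w j) = ρ (lor (v i) (v j)))
    (Z : (Fin (r+1) → Fin m) → ℤ)
    (_hZalt : ∀ (τ : Fin (r+1) → Fin m) (π : Equiv.Perm (Fin (r+1))),
      Z (τ ∘ π) = ((Equiv.Perm.sign π : ℤˣ) : ℤ) * Z τ)
    (_hZS : ∀ τ, Z τ ≠ 0 → ∃ s ∈ S, ∀ i, τ i ∈ s)
    (_hcyc : ∀ ε : Fin r → Fin m, (∀ i, ε i ∈ V) → LinearIndependent ℝ (fun i => v (ε i)) →
      ∑ q ∈ V, Z (Fin.cons q ε) = 0),
    ∑ τ ∈ (Finset.univ : Finset (Fin (r+1) → Fin m)).filter (fun τ => ∀ i, τ i ∈ V),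
      (Z τ : κ) * ρ (I0 (gram fun i => v (τ i))) * (Matrix.of fun i => w (τ i)).det = 0

theorem std_sum (HC : HCycle) (hr : 1 ≤ r) (v : Fin m → Fin (r + 3) → ℝ) (hv : ∀ j, Fut (v j))
    (c : (Fin (r + 2) → Fin m) → ℤ)
    (hcalt : ∀ (σ : Fin (r + 2) → Fin m) (π : Equiv.Perm (Fin (r + 2))),
      c (σ ∘ π) = ((Equiv.Perm.sign π : ℤˣ) : ℤ) * c σ)
    (hccyc : ∀ τ : Fin (r + 1) → Fin m, ∑ q, c (Fin.cons q τ) = 0)
    (L : Finset (Fin m) → Set (SI r → K))
    (hSD : ∀ s ∈ supp c, SelfDual p (L s)) (V : Fin m → SI r → K)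
    (hVL : ∀ s ∈ supp c, ∀ j ∈ s, V j ∈ L s)
    (hVg : ∀ s ∈ supp c, ∀ i ∈ s, ∀ j ∈ s, sform (V i) (V j) = reHom K (lor (v i) (v j))) :
    ∑ τ ∈ (Finset.univ : Finset (Fin (r+1) → Fin m)).filter (fun τ => ∀ i, τ i ∈ VV p V),
      (Zc p c L τ : κ) * p.rho (I0 (gram fun i => v (τ i))) *
        (Matrix.of fun i => resv p (V (τ i))).det = 0 := by
  apply HC p.rho hr v hv (supp c) (VV p V) (fun j => resv p (V j))
  · intro s hs i hi j hj hiV hjV
    rw [mem_VV] at hiV hjV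
    rw [lor_resv p hiV.1 hiV.2 hjV.1 hjV.2, hVg s hs i hi j hj, redv_alg]
  · intro τ π
    exact Zc_alt p c L hcalt τ π
  · intro τ hτ
    by_contra hcon
    push Not at hcon
    apply hτ
    unfold Zc
    apply Finset.sum_eq_zero
    intro q _
    by_cases hq : c (Fin.cons q τ) = 0
    · rw [hq, zero_mul]
    · exfalso
      obtain ⟨i, hi⟩ := hcon _ ⟨_, hq, rfl⟩
      exact hi (mem_rng_cons' q τ i)
  · intro ε hε hli
    have h1 := Zc_sum p c L hcalt ε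
    rw [← h1]
    refine Finset.sum_subset (Finset.subset_univ _) (fun q _ hq => ?_)
    exact Zc_off p hr v hv c hccyc L hSD V hVL hVg ε hε hli q hq

end std

end Pool.Agent.W576
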