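import Pool.Agent.W576.Edge
import Pool.Agent.W576.Standard2

/-!
# Sum over edges: the abstract statement
-/

set_option linter.unusedSectionVars false

namespace Pool.Agent.W576

open Pool.Agent.W31.Bel

section absum

variable {K : Type} [Field K] [Algebra ℂ K] {κ : Type} [Field κ] (p : Place K κ)
variable {r m : ℕ}

/-- crossing number of the link of a face -/
def zc (c : (Fin (r + 2) → Fin m) → ℤ) (P : (Fin (r + 1) → Fin m) → Finset (Fin m) → ℤ)
    (τ : Fin (r + 1) → Fin m) (a : ℤ) : ℤ :=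
  ∑ q, c (Fin.cons q τ) * (if a < P τ (rng (Fin.cons q τ : Fin (r + 2) → Fin m)) then 1 else 0)

lemma sum_Ico_ite (A P : ℤ) (h1 : -A ≤ P) (h2 : P ≤ A) :
    ∑ a ∈ Finset.Ico (-A) A, (if a < P then (1 : ℤ) else 0) = P + A := by
  rw [← Finset.sum_filter, Finset.sum_const, nsmul_eq_mul, mul_one]
  have : (Finset.Ico (-A) A).filter (fun a => a < P) = Finset.Ico (-A) P := by
    ext a; simp only [Finset.mem_filter, Finset.mem_Ico]; omega
  rw [this, Int.card_Ico]
  omega

lemma zc_sum (c : (Fin (r + 2) → Fin m) → ℤ)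
    (hccyc : ∀ τ : Fin (r + 1) → Fin m, ∑ q, c (Fin.cons q τ) = 0)
    (P : (Fin (r + 1) → Fin m) → Finset (Fin m) → ℤ) (τ : Fin (r + 1) → Fin m) (A : ℤ)
    (hA : ∀ q, -A ≤ P τ (rng (Fin.cons q τ : Fin (r + 2) → Fin m)) ∧
      P τ (rng (Fin.cons q τ : Fin (r + 2) → Fin m)) ≤ A) :
    ∑ a ∈ Finset.Ico (-A) A, zc c P τ a =
      ∑ q, c (Fin.cons q τ) * P τ (rng (Fin.cons q τ : Fin (r + 2) → Fin m)) := by
  unfold zc
  rw [Finset.sum_comm]
  have h : ∀ q, ∑ a ∈ Finset.Ico (-A) A, c (Fin.cons q τ) *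
      (if a < P τ (rng (Fin.cons q τ : Fin (r + 2) → Fin m)) then (1 : ℤ) else 0) =
      c (Fin.cons q τ) * P τ (rng (Fin.cons q τ : Fin (r + 2) → Fin m)) + c (Fin.cons q τ) * A := by
    intro q
    rw [← Finset.mul_sum, sum_Ico_ite A _ (hA q).1 (hA q).2, mul_add]
  rw [Finset.sum_congr rfl (fun q _ => h q), Finset.sum_add_distrib, ← Finset.sum_mul, hccyc,
    zero_mul, add_zero]

lemma zc_off (c : (Fin (r + 2) → Fin m) → ℤ)
    (hccyc : ∀ τ : Fin (r + 1) → Fin m, ∑ q, c (Fin.cons q τ) = 0)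
    (P : (Fin (r + 1) → Fin m) → Finset (Fin m) → ℤ) (τ : Fin (r + 1) → Fin m) (A : ℤ)
    (hA : ∀ q, -A ≤ P τ (rng (Fin.cons q τ : Fin (r + 2) → Fin m)) ∧
      P τ (rng (Fin.cons q τ : Fin (r + 2) → Fin m)) ≤ A) (a : ℤ) (ha : a ∉ Finset.Ico (-A) A) :
    zc c P τ a = 0 := by
  unfold zc
  rw [Finset.mem_Ico, not_and_or, not_le, not_lt] at ha
  rcases ha with ha | ha
  · rw [← hccyc τ]
    refine Finset.sum_congr rfl (fun q _ => ?_)
    rw [if_pos (by have := (hA q).1; omega), mul_one]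
  · apply Finset.sum_eq_zero
    intro q _
    rw [if_neg (by have := (hA q).2; omega), mul_zero]

/-- the intersection of two adjacent lattices of the line determines them -/
lemma Mset_inj (a b : ℤ) (h : ∀ X : SI r → K, (p.L a X ∧ p.L (a + 1) X) ↔
    (p.L b X ∧ p.L (b + 1) X)) : a = b := by
  have key : ∀ a b : ℤ, (∀ X : SI r → K, (p.L a X ∧ p.L (a + 1) X) ↔
    (p.L b X ∧ p.L (b + 1) X)) → a ≤ b := by
    intro a b h
    have h1 : p.L a (vξ (p.t ^ (-a)) : SI r → K) := by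
      rw [L_vξ, ← zpow_add₀ p.t_ne, p.tpow_mem_iff]; omega
    have h2 : p.L (a + 1) (vξ (p.t ^ (-a)) : SI r → K) := by
      rw [L_vξ, ← zpow_add₀ p.t_ne, p.tpow_mem_iff]; omega
    have h3 := ((h _).1 ⟨h1, h2⟩).1
    rw [L_vξ, ← zpow_add₀ p.t_ne, p.tpow_mem_iff] at h3
    omega
  exact le_antisymm (key a b h) (key b a (fun X => (h X).symm))

theorem chart_sum_zero (HC : HCycle) (hr : 1 ≤ r) (v : Fin m → Fin (r + 3) → ℝ)
    (hv : ∀ j, Fut (v j)) (c : (Fin (r + 2) → Fin m) → ℤ)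
    (hcalt : ∀ (σ : Fin (r + 2) → Fin m) (π : Equiv.Perm (Fin (r + 2))),
      c (σ ∘ π) = ((Equiv.Perm.sign π : ℤˣ) : ℤ) * c σ)
    (hccyc : ∀ τ : Fin (r + 1) → Fin m, ∑ q, c (Fin.cons q τ) = 0)
    (T : Finset (Fin (r + 1) → Fin m))
    (hT : ∀ τ, τ ∈ T ↔ LinearIndependent ℝ (fun i => v (τ i)) ∧ ∃ s ∈ supp c, ∀ i, τ i ∈ s)
    (x : (Fin (r + 1) → Fin m) → Fin (r + 1) → Fin (r + 1) → ℝ)
    (hx : ∀ τ ∈ T, (Matrix.of (x τ)).det ≠ 0)
    (V : Fin m → Fin (r + 3) → K) (Ls : Finset (Fin m) → Set (Fin (r + 3) → K))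
    (hSD : ∀ s ∈ supp c, ∀ X, X ∈ Ls s ↔ ∀ Y ∈ Ls s, lor X Y ∈ p.O)
    (hVL : ∀ s ∈ supp c, ∀ j ∈ s, V j ∈ Ls s)
    (hVg : ∀ s ∈ supp c, ∀ i ∈ s, ∀ j ∈ s, lor (V i) (V j) = reHom K (lor (v i) (v j)))
    (ψ : (Fin (r + 1) → Fin m) → (Fin (r + 3) → K) ≃ₗ[K] (SI r → K))
    (hψ : ∀ τ ∈ T, ∀ X Y, sform (ψ τ X) (ψ τ Y) = lor X Y)
    (hdet : ∀ τ ∈ T, ∀ τ' ∈ T, LinearMap.det
      (((ψ τ).symm ≪≫ₗ ψ τ' : (SI r → K) ≃ₗ[K] (SI r → K)) : (SI r → K) →ₗ[K] (SI r → K)) = 1)
    (hψV : ∀ τ ∈ T, ∀ i, ψ τ (V (τ i)) = emb (x τ i))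
    (P : (Fin (r + 1) → Fin m) → Finset (Fin m) → ℤ)
    (hP : ∀ τ ∈ T, ∀ s ∈ supp c, (∀ i, τ i ∈ s) → ∀ X, (ψ τ).symm X ∈ Ls s ↔ p.L (P τ s) X) :
    ∑ τ ∈ T, I0 (gram fun i => v (τ i)) * (Matrix.of (x τ)).det *
      ((∑ q, c (Fin.cons q τ) * P τ (rng (Fin.cons q τ : Fin (r + 2) → Fin m)) : ℤ) : ℝ) = 0 := by
  classical
  -- the bound
  obtain ⟨A, hA⟩ : ∃ A : ℤ, ∀ τ ∈ T, ∀ q, -A ≤ P τ (rng (Fin.cons q τ : Fin (r + 2) → Fin m)) ∧
      P τ (rng (Fin.cons q τ : Fin (r + 2) → Fin m)) ≤ A := by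
    refine ⟨∑ τ ∈ T, ∑ q, |P τ (rng (Fin.cons q τ : Fin (r + 2) → Fin m))|, fun τ hτ q => ?_⟩
    have h1 : |P τ (rng (Fin.cons q τ : Fin (r + 2) → Fin m))| ≤
        ∑ τ ∈ T, ∑ q, |P τ (rng (Fin.cons q τ : Fin (r + 2) → Fin m))| :=
      le_trans (Finset.single_le_sum (f := fun q => |P τ (rng (Fin.cons q τ : Fin (r + 2) → Fin m))|)
        (fun _ _ => abs_nonneg _) (Finset.mem_univ q))
        (Finset.single_le_sum
          (f := fun τ => ∑ q, |P τ (rng (Fin.cons q τ : Fin (r + 2) → Fin m))|)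
          (fun _ _ => Finset.sum_nonneg (fun _ _ => abs_nonneg _)) hτ)
    exact abs_le.1 h1
  -- the function on pairs
  set F : (Fin (r + 1) → Fin m) × ℤ → κ := fun y =>
    (zc c P y.1 y.2 : κ) * p.rho (I0 (gram fun i => v (y.1 i))) * p.rho (Matrix.of (x y.1)).det with hF
  set Ms : (Fin (r + 1) → Fin m) × ℤ → Set (Fin (r + 3) → K) := fun y =>
    {X | p.L y.2 (ψ y.1 X) ∧ p.L (y.2 + 1) (ψ y.1 X)} with hMs
  -- vanishing of each class
  have hclass : ∀ y0 : (Fin (r + 1) → Fin m) × ℤ, y0.1 ∈ T →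
      ∑ y ∈ (T ×ˢ Finset.Ico (-A) A).filter (fun y => Ms y = Ms y0), F y = 0 := by
    rintro ⟨τ0, m0⟩ hτ0
    simp only at hτ0
    set A0 : (Fin (r + 3) → K) ≃ₗ[K] (SI r → K) := ψ τ0 ≪≫ₗ Rm p m0 with hA0
    have hA0a : ∀ X, A0 X = Rm p m0 (ψ τ0 X) := fun X => rfl
    have hA0f : ∀ X Y, sform (A0 X) (A0 Y) = lor X Y := by
      intro X Y; rw [hA0a, hA0a, Rm_sform, hψ τ0 hτ0]
    have hA0L0 : ∀ X, p.L 0 (A0 X) ↔ p.L m0 (ψ τ0 X) := by
      intro X; rw [hA0a, L_Rm, add_zero]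
    have hA0L1 : ∀ X, p.L 1 (A0 X) ↔ p.L (m0 + 1) (ψ τ0 X) := by
      intro X; rw [hA0a, L_Rm]
    set L' : Finset (Fin m) → Set (SI r → K) := fun s => {Y | A0.symm Y ∈ Ls s} with hL'
    set V' : Fin m → SI r → K := fun j => A0 (V j) with hV'
    have hSD' : ∀ s ∈ supp c, SelfDual p (L' s) := by
      intro s hs X
      change A0.symm X ∈ Ls s ↔ ∀ Y, A0.symm Y ∈ Ls s → sform X Y ∈ p.O
      rw [hSD s hs]
      constructor
      · intro h Y hY
        have := h _ hY
        rw [← hA0f] at this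
        simpa using this
      · intro h Y hY
        have := h (A0 Y) (by simpa using hY)
        rw [← hA0f]
        simpa using this
    have hVL' : ∀ s ∈ supp c, ∀ j ∈ s, V' j ∈ L' s := by
      intro s hs j hj
      change A0.symm (A0 (V j)) ∈ Ls s
      rw [LinearEquiv.symm_apply_apply]; exact hVL s hs j hj
    have hVg' : ∀ s ∈ supp c, ∀ i ∈ s, ∀ j ∈ s,
        sform (V' i) (V' j) = reHom K (lor (v i) (v j)) := by
      intro s hs i hi j hj
      rw [hV']
      simp only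
      rw [hA0f]; exact hVg s hs i hi j hj
    have hstd := std_sum p HC hr v hv c hcalt hccyc L' hSD' V' hVL' hVg'
    -- members of VV
    have hVV : ∀ j, j ∈ VV p V' ↔ V j ∈ Ms (τ0, m0) := by
      intro j
      rw [mem_VV, hV']
      simp only
      rw [hA0L0, hA0L1]
      rfl
    -- the position of a face
    have hpos : ∀ τ ∈ T, (∀ i, τ i ∈ VV p V') → ∃ b : ℤ, Ms (τ, b) = Ms (τ0, m0) ∧
        F (τ, b) = (Zc p c L' τ : κ) * p.rho (I0 (gram fun i => v (τ i))) *
          (Matrix.of fun i => resv p (V' (τ i))).det := by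
      intro τ hτ hτV
      set Ω : (SI r → K) ≃ₗ[K] (SI r → K) := (ψ τ).symm ≪≫ₗ A0 with hΩd
      have hΩa : ∀ X, Ω X = A0 ((ψ τ).symm X) := fun X => rfl
      have hΩψ : ∀ X, Ω (ψ τ X) = A0 X := fun X => by rw [hΩa, LinearEquiv.symm_apply_apply]
      have hΩ : ∀ X Y, sform (Ω X) (Ω Y) = sform X Y := by
        intro X Y
        rw [hΩa, hΩa, hA0f, ← hψ τ hτ, LinearEquiv.apply_symm_apply, LinearEquiv.apply_symm_apply]
      have hΩdet : LinearMap.det (Ω : (SI r → K) →ₗ[K] (SI r → K)) = 1 := by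
        have e : (Ω : (SI r → K) →ₗ[K] (SI r → K)) =
            ((Rm p m0 : (SI r → K) ≃ₗ[K] (SI r → K)) : (SI r → K) →ₗ[K] (SI r → K)) ∘ₗ
            (((ψ τ).symm ≪≫ₗ ψ τ0 : (SI r → K) ≃ₗ[K] (SI r → K)) :
              (SI r → K) →ₗ[K] (SI r → K)) := by
          apply LinearMap.ext; intro X; rfl
        rw [e, LinearMap.det_comp, Rm_det, hdet τ hτ τ0 hτ0, one_mul]
      have hVe : ∀ i, Ω (emb (x τ i)) = V' (τ i) := by
        intro i
        rw [← hψV τ hτ i, hΩψ]
      have hVe0 : ∀ i, p.L 0 (Ω (emb (x τ i))) := fun i => by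
        rw [hVe]; exact ((mem_VV p V' _).1 (hτV i)).1
      have hVe1 : ∀ i, p.L 1 (Ω (emb (x τ i))) := fun i => by
        rw [hVe]; exact ((mem_VV p V' _).1 (hτV i)).2
      have hLP : ∀ s ∈ supp c, (∀ i, τ i ∈ s) → ∀ X, Ω X ∈ L' s ↔ p.L (P τ s) X := by
        intro s hs hsτ X
        rw [← hP τ hτ s hs hsτ]
        change A0.symm (A0 ((ψ τ).symm X)) ∈ Ls s ↔ _
        rw [LinearEquiv.symm_apply_apply]
      have hmemq : ∀ q, c (Fin.cons q τ) ≠ 0 →
          (rng (Fin.cons q τ : Fin (r + 2) → Fin m) ∈ supp c) ∧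
          (∀ i, τ i ∈ rng (Fin.cons q τ : Fin (r + 2) → Fin m)) :=
        fun q hq => ⟨⟨_, hq, rfl⟩, fun i => mem_rng_cons' q τ i⟩
      obtain ⟨b, hb | hb⟩ := coh_or_swp p Ω hΩ (x τ) (hx τ hτ) hVe0 hVe1
      · refine ⟨b, ?_, ?_⟩
        · ext X
          change (p.L b (ψ τ X) ∧ p.L (b + 1) (ψ τ X)) ↔ (p.L m0 (ψ τ0 X) ∧ p.L (m0 + 1) (ψ τ0 X))
          rw [← hA0L0, ← hA0L1, ← hΩψ, hb.1, hb.2]
        · have h1 : Zc p c L' τ = zc c P τ b := by
            unfold Zc zc
            refine Finset.sum_congr rfl (fun q _ => ?_)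
            by_cases hq : c (Fin.cons q τ) = 0
            · rw [hq, zero_mul, zero_mul]
            · obtain ⟨h2, h3⟩ := hmemq q hq
              rw [if_congr (chi_coh p Ω hb (L' _) (hLP _ h2 h3)) rfl rfl]
          have h4 := det_coh p Ω hΩ hΩdet hb (x τ)
          simp only [hVe] at h4
          rw [h1, h4]
      · refine ⟨b, ?_, ?_⟩
        · ext X
          change (p.L b (ψ τ X) ∧ p.L (b + 1) (ψ τ X)) ↔ (p.L m0 (ψ τ0 X) ∧ p.L (m0 + 1) (ψ τ0 X))
          rw [← hA0L0, ← hA0L1, ← hΩψ, hb.1, hb.2, and_comm]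
        · have h1 : Zc p c L' τ = - zc c P τ b := by
            have h5 : Zc p c L' τ = ∑ q, (c (Fin.cons q τ) - c (Fin.cons q τ) *
                (if b < P τ (rng (Fin.cons q τ : Fin (r + 2) → Fin m)) then 1 else 0)) := by
              unfold Zc
              refine Finset.sum_congr rfl (fun q _ => ?_)
              by_cases hq : c (Fin.cons q τ) = 0
              · rw [hq, zero_mul, zero_mul, sub_zero]
              · obtain ⟨h2, h3⟩ := hmemq q hq
                rw [if_congr (chi_swp p Ω hb (L' _) (hLP _ h2 h3)) rfl rfl]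
                by_cases hbP : b < P τ (rng (Fin.cons q τ : Fin (r + 2) → Fin m))
                · rw [if_neg (not_not.2 hbP), if_pos hbP]; ring
                · rw [if_pos hbP, if_neg hbP]; ring
            rw [h5, Finset.sum_sub_distrib, hccyc, zero_sub]
            rfl
          have h4 := det_swp p Ω hΩ hΩdet hb (x τ)
          simp only [hVe] at h4
          rw [h1, h4]
          simp only [hF]
          push_cast
          ring
    -- faces in the class
    have hin : ∀ τ ∈ T, ∀ a, Ms (τ, a) = Ms (τ0, m0) → ∀ i, τ i ∈ VV p V' := by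
      intro τ hτ a ha i
      rw [hVV, ← ha]
      change p.L a (ψ τ (V (τ i))) ∧ p.L (a + 1) (ψ τ (V (τ i)))
      rw [hψV τ hτ i]
      exact ⟨L_emb p _ _, L_emb p _ _⟩
    have huniq : ∀ τ ∈ T, ∀ a b, Ms (τ, a) = Ms (τ, b) → a = b := by
      intro τ hτ a b hab
      apply Mset_inj p (r := r) a b
      intro X
      have h1 := Set.ext_iff.1 hab ((ψ τ).symm X)
      change (p.L a (ψ τ ((ψ τ).symm X)) ∧ p.L (a + 1) (ψ τ ((ψ τ).symm X))) ↔
        (p.L b (ψ τ ((ψ τ).symm X)) ∧ p.L (b + 1) (ψ τ ((ψ τ).symm X))) at h1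
      simpa only [LinearEquiv.apply_symm_apply] using h1
    -- reduce the filtered sum
    have hL : ∑ y ∈ (T ×ˢ Finset.Ico (-A) A).filter (fun y => Ms y = Ms (τ0, m0)), F y =
        ∑ τ ∈ T.filter (fun τ => ∀ i, τ i ∈ VV p V'),
          (Zc p c L' τ : κ) * p.rho (I0 (gram fun i => v (τ i))) *
          (Matrix.of fun i => resv p (V' (τ i))).det := by
      rw [Finset.sum_filter, Finset.sum_product, Finset.sum_filter]
      refine Finset.sum_congr rfl (fun τ hτ => ?_)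
      by_cases hτV : ∀ i, τ i ∈ VV p V'
      · rw [if_pos hτV]
        obtain ⟨b, hb1, hb2⟩ := hpos τ hτ hτV
        rw [← hb2]
        have h1 : ∀ a ∈ Finset.Ico (-A) A, (if Ms (τ, a) = Ms (τ0, m0) then F (τ, a) else 0) =
            if b = a then F (τ, b) else 0 := by
          intro a _
          by_cases hab : b = a
          · subst hab; rw [if_pos hb1, if_pos rfl]
          · rw [if_neg hab, if_neg]
            intro h2
            exact hab (huniq τ hτ b a (hb1.trans h2.symm))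
        rw [Finset.sum_congr rfl h1, Finset.sum_ite_eq]
        split_ifs with hbA
        · rfl
        · have := zc_off c hccyc P τ A (hA τ hτ) b hbA
          simp only [hF]
          rw [this]; simp
      · rw [if_neg hτV]
        apply Finset.sum_eq_zero
        intro a _
        rw [if_neg]
        intro h2
        exact hτV (hin τ hτ a h2)
    rw [hL, ← hstd]
    refine Finset.sum_subset_zero_on_sdiff (Finset.filter_subset_filter _ (Finset.subset_univ _))
      (fun τ hτ => ?_) (fun _ _ => rfl)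
    rw [Finset.mem_sdiff, Finset.mem_filter, Finset.mem_filter] at hτ
    obtain ⟨⟨_, hτV⟩, hτn⟩ := hτ
    have hτT : τ ∉ T := fun h => hτn ⟨h, hτV⟩
    by_cases hs : ∃ s ∈ supp c, ∀ i, τ i ∈ s
    · have hli : ¬ LinearIndependent ℝ (fun i => v (τ i)) := fun h => hτT ((hT τ).2 ⟨h, hs⟩)
      obtain ⟨s, hs, hsτ⟩ := hs
      have hd0 : (Matrix.of fun i => resv p (V' (τ i))).det = 0 := by
        have hg0 : (gram (fun i => v (τ i))).det = 0 := by
          rw [Fintype.not_linearIndependent_iff] at hli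
          obtain ⟨b, hb, i0, hi0⟩ := hli
          apply Matrix.exists_mulVec_eq_zero_iff.1
          refine ⟨b, fun h => hi0 (congrFun h i0), ?_⟩
          funext j
          simp only [Matrix.mulVec, dotProduct, gram, Pi.zero_apply]
          have h1 : lor (∑ i, b i • v (τ i)) (v (τ j)) = 0 := by
            rw [hb]; simp [lor]
          rw [lor_sum_left] at h1
          rw [← h1]
          refine Finset.sum_congr rfl (fun i _ => ?_)
          rw [lor_smul_left, lor_comm' (v (τ i))]; ring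
        have hgm : gram (fun i => resv p (V' (τ i))) =
            (gram (fun i => v (τ i))).map p.rho := by
          ext i j
          change lor (resv p (V' (τ i))) (resv p (V' (τ j))) = p.rho (lor (v (τ i)) (v (τ j)))
          have h1 := (mem_VV p V' _).1 (hτV i)
          have h2 := (mem_VV p V' _).1 (hτV j)
          rw [lor_resv p h1.1 h1.2 h2.1 h2.2, hVg' s hs _ (hsτ i) _ (hsτ j), redv_alg]
        have hgf : gram (fun i => resv p (V' (τ i))) =
            (Matrix.of fun i => resv p (V' (τ i))) * Matrix.diagonal eta *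
              (Matrix.of fun i => resv p (V' (τ i))).transpose := by
          ext i j
          rw [Matrix.mul_apply]
          simp only [Matrix.mul_diagonal, Matrix.of_apply, Matrix.transpose_apply, gram, lor]
          refine Finset.sum_congr rfl (fun l _ => ?_)
          ring
        have h3 : (gram (fun i => resv p (V' (τ i)))).det = 0 := by
          rw [hgm, ← RingHom.mapMatrix_apply, ← RingHom.map_det, hg0, map_zero]
        rw [hgf, Matrix.det_mul, Matrix.det_mul, Matrix.det_transpose, Matrix.det_diagonal] at h3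
        have heta : (∏ i : Fin (r + 1), (eta i : κ)) ≠ 0 := by
          apply Finset.prod_ne_zero_iff.2
          intro i _
          intro h0
          have := eta_mul_eta (R := κ) i
          rw [h0, mul_zero] at this
          exact zero_ne_one this
        rcases mul_eq_zero.1 h3 with h4 | h4
        · rcases mul_eq_zero.1 h4 with h5 | h5
          · exact h5
          · exact absurd h5 heta
        · exact h4
      rw [hd0, mul_zero]
    · have hZ0 : Zc p c L' τ = 0 := by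
        unfold Zc
        apply Finset.sum_eq_zero
        intro q _
        by_cases hq : c (Fin.cons q τ) = 0
        · rw [hq, zero_mul]
        · exact absurd ⟨_, ⟨_, hq, rfl⟩, fun i => mem_rng_cons' q τ i⟩ hs
      rw [hZ0]; simp
  -- total sum
  have htot : ∑ y ∈ T ×ˢ Finset.Ico (-A) A, F y = 0 := by
    rw [← Finset.sum_fiberwise_of_maps_to (s := T ×ˢ Finset.Ico (-A) A)
      (t := (T ×ˢ Finset.Ico (-A) A).image Ms) (g := Ms)
      (fun y hy => Finset.mem_image_of_mem _ hy)]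
    apply Finset.sum_eq_zero
    intro M hM
    obtain ⟨y0, hy0, rfl⟩ := Finset.mem_image.1 hM
    exact hclass y0 (Finset.mem_product.1 hy0).1
  apply p.rho.injective
  rw [map_zero, map_sum, ← htot, Finset.sum_product]
  refine Finset.sum_congr rfl (fun τ hτ => ?_)
  rw [← zc_sum c hccyc P τ A (hA τ hτ), map_mul, map_mul, map_intCast, Int.cast_sum,
    Finset.mul_sum]
  refine Finset.sum_congr rfl (fun a _ => ?_)
  simp only [hF]
  ring

end absum

end Pool.Agent.W576
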