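import Pool.Agent.W576.PlaceSum1
import Pool.Agent.W365.ConfRot

/-!
# Sum over edges: the concrete statement
-/

set_option linter.unusedSectionVars false

namespace Pool.Agent.W576

open Pool.Agent.W31.Bel

section conc

variable {K : Type} [Field K] [Algebra ℂ K] {κ : Type} [Field κ] (p : Place K κ)
variable {r m : ℕ}

lemma spl_pad (x : Fin (r + 1) → ℝ) :
    spl r (fun l => reHom K ((pad x : Fin (r + 3) → ℝ) l)) = (emb x : SI r → K) := by
  have h1 : ∀ i : Fin (r + 1), (pad x : Fin (r + 3) → ℝ) (Fin.castLE (by omega) i) = x i := by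
    intro i
    unfold pad
    rw [dif_pos (by simpa using i.2)]; rfl
  have h2 : (pad x : Fin (r + 3) → ℝ) (ia r) = 0 := by
    unfold pad ia; simp
  have h3 : (pad x : Fin (r + 3) → ℝ) (ib r) = 0 := by
    unfold pad ib; simp
  rw [spl_apply]
  apply ext_SI
  · intro i
    simp only [splFun, Sum.elim_inl, h1, emb]
    rfl
  · simp only [splFun, Sum.elim_inl, Sum.elim_inr, h2, h3, emb]; simp
  · simp only [splFun, Sum.elim_inr, h2, h3, emb]; simp

lemma reHom_lor {d : ℕ} (x y : Fin d → ℝ) :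
    lor (fun i => reHom K (x i)) (fun i => reHom K (y i)) = reHom K (lor x y) := by
  unfold lor
  rw [map_sum]
  refine Finset.sum_congr rfl (fun i _ => ?_)
  rw [map_mul, map_mul]
  congr 1
  unfold eta; split_ifs <;> simp

/-- the lattice of a frame -/
def Lg (g : Matrix (Fin (r + 3)) (Fin (r + 3)) K) : Set (Fin (r + 3) → K) :=
  {X | ∀ i, (g⁻¹.mulVec X) i ∈ p.O}

lemma lor_mem {d : ℕ} {x y : Fin d → K} (hx : ∀ i, x i ∈ p.O) (hy : ∀ i, y i ∈ p.O) :
    lor x y ∈ p.O :=
  p.O.sum_mem (fun i _ => p.O.mul_mem (eta_mem' p i) (p.O.mul_mem (hx i) (hy i)))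

lemma Lg_sd {g : Matrix (Fin (r + 3)) (Fin (r + 3)) K} (hg : IsSO g) (X : Fin (r + 3) → K) :
    X ∈ Lg p g ↔ ∀ Y ∈ Lg p g, lor X Y ∈ p.O := by
  constructor
  · intro hX Y hY
    rw [← hg.inv.1]
    exact lor_mem p hX hY
  · intro h i
    have h1 := h (g.mulVec (Pi.single i 1)) (by
      intro j
      rw [hg.inv_mulVec]
      by_cases hj : j = i
      · subst hj; simp [p.O.one_mem]
      · simp [Pi.single_eq_of_ne hj, p.O.zero_mem])
    rw [← hg.inv.1, hg.inv_mulVec, lor_single_right] at h1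
    have h2 := p.O.mul_mem (eta_mem' p i) h1
    rwa [← mul_assoc, eta_mul_eta, one_mul] at h2

lemma Lg_mulVec {g : Matrix (Fin (r + 3)) (Fin (r + 3)) K} (hg : IsSO g) {X : Fin (r + 3) → K}
    (hX : ∀ i, X i ∈ p.O) : g.mulVec X ∈ Lg p g := by
  intro i; rw [hg.inv_mulVec]; exact hX i

open Classical in
/-- the chart -/
noncomputable def chart (G : Matrix (Fin (r + 3)) (Fin (r + 3)) K) :
    (Fin (r + 3) → K) ≃ₗ[K] (SI r → K) :=
  if hG : IsSO G then (soEquiv G hG).symm ≪≫ₗ spl r else spl r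

lemma chart_apply {G : Matrix (Fin (r + 3)) (Fin (r + 3)) K} (hG : IsSO G)
    (X : Fin (r + 3) → K) : chart G X = spl r (G⁻¹.mulVec X) := by
  unfold chart; rw [dif_pos hG]; rfl

lemma chart_mul {g H : Matrix (Fin (r + 3)) (Fin (r + 3)) K} (hG : IsSO (g * H))
    (X : Fin (r + 3) → K) : chart (g * H) (g.mulVec (H.mulVec X)) = spl r X := by
  rw [chart_apply hG, Matrix.mulVec_mulVec X g H, hG.inv_mulVec]

lemma chart_sform {G : Matrix (Fin (r + 3)) (Fin (r + 3)) K} (hG : IsSO G)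
    (X Y : Fin (r + 3) → K) : sform (chart G X) (chart G Y) = lor X Y := by
  rw [chart_apply hG, chart_apply hG, sform_spl, hG.inv.1]

lemma chart_symm_sform {G : Matrix (Fin (r + 3)) (Fin (r + 3)) K} (hG : IsSO G)
    (X Y : SI r → K) : lor ((chart G).symm X) ((chart G).symm Y) = sform X Y := by
  rw [← chart_sform hG, LinearEquiv.apply_symm_apply, LinearEquiv.apply_symm_apply]

lemma chart_det {G G' : Matrix (Fin (r + 3)) (Fin (r + 3)) K} (hG : IsSO G) (hG' : IsSO G') :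
    LinearMap.det
      (((chart G).symm ≪≫ₗ chart G' : (SI r → K) ≃ₗ[K] (SI r → K)) :
        (SI r → K) →ₗ[K] (SI r → K)) = 1 := by
  have e : (((chart G).symm ≪≫ₗ chart G' : (SI r → K) ≃ₗ[K] (SI r → K)) :
        (SI r → K) →ₗ[K] (SI r → K)) =
      ((spl r : (Fin (r + 3) → K) ≃ₗ[K] (SI r → K)) : (Fin (r + 3) → K) →ₗ[K] (SI r → K)) ∘ₗ
        Matrix.toLin' (G'⁻¹ * G) ∘ₗ
        (((spl r : (Fin (r + 3) → K) ≃ₗ[K] (SI r → K)).symm : (SI r → K) ≃ₗ[K] (Fin (r + 3) → K)) :
          (SI r → K) →ₗ[K] (Fin (r + 3) → K)) := by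
    apply LinearMap.ext
    intro X
    change chart G' ((chart G).symm X) = spl r ((G'⁻¹ * G).mulVec ((spl r).symm X))
    rw [chart_apply hG', ← Matrix.mulVec_mulVec]
    congr 2
    unfold chart
    rw [dif_pos hG]
    rfl
  rw [e, LinearMap.det_conj, LinearMap.det_toLin', Matrix.det_mul, hG'.inv.2, hG.2, one_mul]

lemma spl_ab (a b : K) : spl r (fun l => if l = ia r then a else if l = ib r then b else 0) =
    (Sum.elim (Sum.elim (fun _ => 0) (fun _ => hf K * (a - II K * b)))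
      (fun _ => hf K * (a + II K * b)) : SI r → K) := by
  rw [spl_apply]
  have hne : ib r ≠ ia r := by intro h; have := congrArg Fin.val h; simp [ia, ib] at this
  apply ext_SI
  · intro i
    simp only [splFun, Sum.elim_inl]
    rw [if_neg, if_neg]
    · intro h; have := congrArg Fin.val h; have := i.2; simp [ib] at *; omega
    · intro h; have := congrArg Fin.val h; have := i.2; simp [ia] at *; omega
  · simp only [splFun, Sum.elim_inl, Sum.elim_inr, if_pos, if_neg hne]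
  · simp only [splFun, Sum.elim_inr, if_pos, if_neg hne]

lemma epl_eq (h : Matrix (Fin (r + 3)) (Fin (r + 3)) ℝ) :
    (epl h : Fin (r + 3) → K) = (h.map (reHom K)).mulVec
      (fun l => if l = ia r then 1 else if l = ib r then II K else 0) := by
  have hne : ib r ≠ ia r := by intro h; have := congrArg Fin.val h; simp [ia, ib] at this
  funext i
  simp only [Matrix.mulVec, dotProduct, Matrix.map_apply]
  rw [sum_split]
  have h0 : ∀ j : Fin (r + 1), reHom K (h i (Fin.castLE (by omega) j)) *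
      (if (Fin.castLE (by omega : r + 1 ≤ r + 3) j) = ia r then (1 : K) else
        if (Fin.castLE (by omega : r + 1 ≤ r + 3) j) = ib r then II K else 0) = 0 := by
    intro j
    rw [if_neg, if_neg, mul_zero]
    · intro h; have := congrArg Fin.val h; have := j.2; simp [ib] at *; omega
    · intro h; have := congrArg Fin.val h; have := j.2; simp [ia] at *; omega
  rw [Finset.sum_congr rfl (fun j _ => h0 j), Finset.sum_const_zero, zero_add, if_pos rfl,
    if_neg hne, if_pos rfl]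
  simp only [epl, map_add, map_mul, reHom, II, RingHom.comp_apply]
  simp only [Complex.ofRealHom_eq_coe]
  ring

lemma emi_eq (h : Matrix (Fin (r + 3)) (Fin (r + 3)) ℝ) :
    (emi h : Fin (r + 3) → K) = (h.map (reHom K)).mulVec
      (fun l => if l = ia r then 1 else if l = ib r then - II K else 0) := by
  have hne : ib r ≠ ia r := by intro h; have := congrArg Fin.val h; simp [ia, ib] at this
  funext i
  simp only [Matrix.mulVec, dotProduct, Matrix.map_apply]
  rw [sum_split]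
  have h0 : ∀ j : Fin (r + 1), reHom K (h i (Fin.castLE (by omega) j)) *
      (if (Fin.castLE (by omega : r + 1 ≤ r + 3) j) = ia r then (1 : K) else
        if (Fin.castLE (by omega : r + 1 ≤ r + 3) j) = ib r then - II K else 0) = 0 := by
    intro j
    rw [if_neg, if_neg, mul_zero]
    · intro h; have := congrArg Fin.val h; have := j.2; simp [ib] at *; omega
    · intro h; have := congrArg Fin.val h; have := j.2; simp [ia] at *; omega
  rw [Finset.sum_congr rfl (fun j _ => h0 j), Finset.sum_const_zero, zero_add, if_pos rfl,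
    if_neg hne, if_pos rfl]
  simp only [emi, map_sub, map_mul, reHom, II, RingHom.comp_apply]
  simp only [Complex.ofRealHom_eq_coe]
  ring

lemma spl_epl {h : Matrix (Fin (r + 3)) (Fin (r + 3)) ℝ}
    {g : Matrix (Fin (r + 3)) (Fin (r + 3)) K} (hG : IsSO (g * h.map (reHom K))) :
    chart (g * h.map (reHom K)) (g.mulVec (epl h)) = vξ 1 := by
  rw [epl_eq, chart_mul hG, spl_ab]
  unfold vξ
  rw [II_mul]
  apply ext_SI
  · intro i; rfl
  · simp only [Sum.elim_inl, Sum.elim_inr]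
    linear_combination two_hf (K := K)
  · simp only [Sum.elim_inr]; simp

lemma spl_emi {h : Matrix (Fin (r + 3)) (Fin (r + 3)) ℝ}
    {g : Matrix (Fin (r + 3)) (Fin (r + 3)) K} (hG : IsSO (g * h.map (reHom K))) :
    chart (g * h.map (reHom K)) (g.mulVec (emi h)) = vζ 1 := by
  rw [emi_eq, chart_mul hG, spl_ab]
  unfold vζ
  rw [mul_neg, II_mul]
  apply ext_SI
  · intro i; rfl
  · simp only [Sum.elim_inl, Sum.elim_inr]; simp
  · simp only [Sum.elim_inr]
    linear_combination two_hf (K := K)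

lemma epl_mem (h : Matrix (Fin (r + 3)) (Fin (r + 3)) ℝ) (i : Fin (r + 3)) :
    (epl h : Fin (r + 3) → K) i ∈ p.O := p.alg _

lemma emi_mem (h : Matrix (Fin (r + 3)) (Fin (r + 3)) ℝ) (i : Fin (r + 3)) :
    (emi h : Fin (r + 3) → K) i ∈ p.O := p.alg _

lemma smul_vξ (z : K) : z • (vξ 1 : SI r → K) = vξ z := by
  unfold vξ; apply ext_SI <;> simp

lemma smul_vζ (z : K) : z • (vζ 1 : SI r → K) = vζ z := by
  unfold vζ; apply ext_SI <;> simp

/-- position of the lattice of a simplex in the chart of a face -/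
lemma position (x : Fin (r + 1) → Fin (r + 1) → ℝ) (h : Matrix (Fin (r + 3)) (Fin (r + 3)) ℝ)
    (hh : IsSO h) (hx : (Matrix.of x).det ≠ 0)
    (g g' : Matrix (Fin (r + 3)) (Fin (r + 3)) K) (hg : IsSO g) (hg' : IsSO g')
    (hinc : ∀ i, g.mulVec (fun l => reHom K (h.mulVec (pad (x i)) l)) =
      g'.mulVec (fun l => reHom K (h.mulVec (pad (x i)) l)))
    (n : ℤ) (hn : p.t ^ (-n) * zz h g g' ∈ p.O ∧ (p.t ^ (-n) * zz h g g')⁻¹ ∈ p.O)
    (X : SI r → K) :
    (chart (g' * h.map (reHom K))).symm X ∈ Lg p g ↔ p.L (-n) X := by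
  have hG : IsSO (g' * h.map (reHom K)) := hg'.mul (hh.map _)
  set ψ := chart (g' * h.map (reHom K)) with hψ
  set Lp : Set (SI r → K) := {X | ψ.symm X ∈ Lg p g} with hLp
  have hSD : SelfDual p Lp := by
    intro X
    change ψ.symm X ∈ Lg p g ↔ ∀ Y, ψ.symm Y ∈ Lg p g → sform X Y ∈ p.O
    rw [Lg_sd p hg]
    constructor
    · intro h1 Y hY
      have := h1 _ hY
      rwa [chart_symm_sform hG] at this
    · intro h1 Y hY
      have := h1 (ψ Y) (by simpa using hY)
      rw [← chart_symm_sform hG, ← hψ, LinearEquiv.symm_apply_apply] at this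
      exact this
  have hAb : Absorb p Lp := by
    intro X
    obtain ⟨a, ha⟩ := Pool.Agent.W377.Side.exists_pow_all p (g⁻¹.mulVec (ψ.symm X))
    refine ⟨a, ?_⟩
    intro i
    rw [map_smul, Matrix.mulVec_smul, Pi.smul_apply, smul_eq_mul]
    exact ha i
  have hem : ∀ i, emb (x i) ∈ Lp := by
    intro i
    have h1 : ψ.symm (emb (x i)) = g'.mulVec (fun l => reHom K (h.mulVec (pad (x i)) l)) := by
      rw [LinearEquiv.symm_apply_eq, hψ, ← map_mulVec, chart_mul hG, spl_pad]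
    change ψ.symm (emb (x i)) ∈ Lg p g
    rw [h1, ← hinc]
    exact Lg_mulVec p hg (fun j => reHom_mem p _)
  obtain ⟨P, hP⟩ := Pool.Agent.W63.S11.lattice_class p Lp hSD hAb x hx hem
  obtain ⟨hz1, hz2, hz3⟩ := Pool.Agent.W365.ConfRot.conf_rot (m := 0) Fin.elim0 x h hh hx g g' hg
    hg' hinc
  set z := zz h g g' with hz
  set z' := zz h g' g with hz'
  have hz0 : z ≠ 0 := left_ne_zero_of_mul_eq_one hz1
  have hzi : z⁻¹ = z' := inv_eq_of_mul_eq_one_right hz1
  have k1 : (vξ z : SI r → K) ∈ Lp := by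
    have h1 : ψ.symm (vξ z) = g.mulVec (epl h) := by
      rw [LinearEquiv.symm_apply_eq, hz2, map_smul, hψ, spl_epl hG, smul_vξ]
    change ψ.symm (vξ z) ∈ Lg p g
    rw [h1]
    exact Lg_mulVec p hg (epl_mem p h)
  have k2 : (vζ z' : SI r → K) ∈ Lp := by
    have h1 : ψ.symm (vζ z') = g.mulVec (emi h) := by
      rw [LinearEquiv.symm_apply_eq, hz3, map_smul, hψ, spl_emi hG, smul_vζ]
    change ψ.symm (vζ z') ∈ Lg p g
    rw [h1]
    exact Lg_mulVec p hg (emi_mem p h)
  rw [hP, L_vξ] at k1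
  rw [hP, L_vζ] at k2
  have hPn : P = -n := by
    refine p.order_unique hz0 k1 ?_ hn.1 hn.2
    rw [mul_inv, hzi, ← zpow_neg]; exact k2
  rw [← hPn]
  exact hP X

theorem place_sum_zero' (HC : HCycle) (hr : 1 ≤ r)
    (v : Fin m → Fin (r+3) → ℝ) (hv : ∀ j, Fut (v j)) (c : (Fin (r+2) → Fin m) → ℤ)
    (hcalt : ∀ (σ : Fin (r+2) → Fin m) (π : Equiv.Perm (Fin (r+2))),
      c (σ ∘ π) = ((Equiv.Perm.sign π : ℤˣ) : ℤ) * c σ)
    (hccyc : ∀ τ : Fin (r+1) → Fin m, ∑ q, c (Fin.cons q τ) = 0)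
    (T : Finset (Fin (r+1) → Fin m))
    (h : (Fin (r+1) → Fin m) → Matrix (Fin (r+3)) (Fin (r+3)) ℝ)
    (x : (Fin (r+1) → Fin m) → Fin (r+1) → Fin (r+1) → ℝ)
    (ref : (Fin (r+1) → Fin m) → Finset (Fin m)) (hD : FaceData v c T h x ref)
    (g : Finset (Fin m) → Matrix (Fin (r+3)) (Fin (r+3)) K) (hg : IsConf (reHom K) v c g)
    (n : (Fin (r+1) → Fin m) → Finset (Fin m) → ℤ)
    (hn : ∀ τ ∈ T, ∀ s ∈ supp c, (∀ i, τ i ∈ s) →
        p.t ^ (-(n τ s)) * zz (h τ) (g s) (g (ref τ)) ∈ p.O ∧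
        (p.t ^ (-(n τ s)) * zz (h τ) (g s) (g (ref τ)))⁻¹ ∈ p.O) :
    ∑ τ ∈ T, I0 (gram fun i => v (τ i)) * (Matrix.of (x τ)).det *
      ((∑ q, c (Fin.cons q τ) * n τ (rng (Fin.cons q τ : Fin (r+2) → Fin m)) : ℤ) : ℝ) = 0 := by
  classical
  set V : Fin m → Fin (r + 3) → K := fun j =>
    if hj : ∃ s ∈ supp c, j ∈ s then (g hj.choose).mulVec (fun i => reHom K (v j i)) else 0 with hV
  have hVs : ∀ s ∈ supp c, ∀ j ∈ s, V j = (g s).mulVec (fun i => reHom K (v j i)) := by
    intro s hs j hj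
    have hex : ∃ s ∈ supp c, j ∈ s := ⟨s, hs, hj⟩
    rw [hV]
    simp only
    rw [dif_pos hex]
    exact hg.inc _ hex.choose_spec.1 s hs j hex.choose_spec.2 hj
  have hGso : ∀ τ ∈ T, IsSO (g (ref τ) * (h τ).map (reHom K)) := fun τ hτ =>
    (hg.so _ (hD.ref_mem τ hτ)).mul ((hD.so τ hτ).map _)
  have key := chart_sum_zero p HC hr v hv c hcalt hccyc T hD.mem_T x
    (fun τ hτ => (hD.det_pos τ hτ).ne') V (fun s => Lg p (g s))
    (fun s hs X => Lg_sd p (hg.so s hs) X)
    (fun s hs j hj => by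
      rw [hVs s hs j hj]; exact Lg_mulVec p (hg.so s hs) (fun i => reHom_mem p _))
    (fun s hs i hi j hj => by
      rw [hVs s hs i hi, hVs s hs j hj, (hg.so s hs).1, reHom_lor])
    (fun τ => chart (g (ref τ) * (h τ).map (reHom K)))
    (fun τ hτ X Y => chart_sform (hGso τ hτ) X Y)
    (fun τ hτ τ' hτ' => chart_det (hGso τ hτ) (hGso τ' hτ'))
    (fun τ hτ i => by
      rw [hVs _ (hD.ref_mem τ hτ) _ (hD.ref_sub τ hτ i), hD.coord τ hτ i, ← map_mulVec,
        chart_mul (hGso τ hτ), spl_pad])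
    (fun τ s => - n τ s)
    (fun τ hτ s hs hτs X => by
      refine position p (x τ) (h τ) (hD.so τ hτ) (hD.det_pos τ hτ).ne' (g s) (g (ref τ))
        (hg.so s hs) (hg.so _ (hD.ref_mem τ hτ)) (fun i => ?_) (n τ s) (hn τ hτ s hs hτs) X
      rw [← hD.coord τ hτ i]
      exact hg.inc s hs _ (hD.ref_mem τ hτ) _ (hτs i) (hD.ref_sub τ hτ i))
  rw [← neg_eq_zero, ← Finset.sum_neg_distrib, ← key]
  refine Finset.sum_congr rfl (fun τ _ => ?_)
  push_cast
  rw [← mul_neg, ← Finset.sum_neg_distrib]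
  congr 1
  refine Finset.sum_congr rfl (fun q _ => ?_)
  ring

end conc

end Pool.Agent.W576
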