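import Pool.Agent.W576.Defs3
import Pool.Agent.W31.BelSV

/-!
# Split coordinates, places and charts
-/

set_option linter.unusedSectionVars false

namespace Pool.Agent.W576

open Pool.Agent.W31.Bel

section place

variable {K : Type*} [Field K] [Algebra ℂ K] {κ : Type*} [Field κ] (p : Place K κ)

lemma Place.tnat_mem (a : ℕ) : p.t ^ a ∈ p.O := p.O.pow_mem p.t_mem a

lemma Place.tpow_mem {a : ℤ} (ha : 0 ≤ a) : p.t ^ a ∈ p.O := by
  lift a to ℕ using ha
  rw [zpow_natCast]; exact p.tnat_mem a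

lemma Place.tpow_mem_iff {a : ℤ} : p.t ^ a ∈ p.O ↔ 0 ≤ a := by
  refine ⟨fun h => ?_, p.tpow_mem⟩
  by_contra hn
  apply p.t_inv
  have h1 : p.t⁻¹ = p.t ^ (-1 - a) * p.t ^ a := by
    rw [← zpow_add₀ p.t_ne]; simp
  rw [h1]
  exact p.O.mul_mem (p.tpow_mem (by omega)) h

lemma Place.order_unique {x : K} (hx : x ≠ 0) {a b : ℤ} (ha : p.t ^ a * x ∈ p.O)
    (ha' : (p.t ^ a * x)⁻¹ ∈ p.O) (hb : p.t ^ b * x ∈ p.O) (hb' : (p.t ^ b * x)⁻¹ ∈ p.O) :
    a = b := by
  have h1 : p.t ^ (a - b) = (p.t ^ a * x) * (p.t ^ b * x)⁻¹ := by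
    rw [zpow_sub₀ p.t_ne]; field_simp
  have h2 : p.t ^ (b - a) = (p.t ^ b * x) * (p.t ^ a * x)⁻¹ := by
    rw [zpow_sub₀ p.t_ne]; field_simp
  have h3 := p.O.mul_mem ha hb'
  have h4 := p.O.mul_mem hb ha'
  rw [← h1, p.tpow_mem_iff] at h3
  rw [← h2, p.tpow_mem_iff] at h4
  omega

end place

section spl

variable {K : Type*} [Field K] [Algebra ℂ K]

/-- the imaginary unit -/
noncomputable def II (K : Type*) [Field K] [Algebra ℂ K] : K := algebraMap ℂ K Complex.I

/-- one half -/
noncomputable def hf (K : Type*) [Field K] [Algebra ℂ K] : K := algebraMap ℂ K (1 / 2)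

lemma II_mul : II K * II K = -1 := by
  unfold II; rw [← map_mul, Complex.I_mul_I]; simp

lemma two_hf : 2 * hf K = 1 := by
  unfold hf
  have : (2 : K) = algebraMap ℂ K 2 := (map_ofNat _ 2).symm
  rw [this, ← map_mul]; norm_num

lemma sum_split {M : Type*} [AddCommMonoid M] {r : ℕ} (f : Fin (r + 3) → M) :
    ∑ j, f j = (∑ i : Fin (r + 1), f (Fin.castLE (by omega) i)) + f (ia r) + f (ib r) := by
  rw [Fin.sum_univ_castSucc, Fin.sum_univ_castSucc]
  rfl

/-- split coordinates -/
noncomputable def splFun {r : ℕ} (y : Fin (r + 3) → K) : SI r → K :=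
  Sum.elim (Sum.elim (fun i => y (Fin.castLE (by omega) i))
    (fun _ => hf K * (y (ia r) - II K * y (ib r)))) (fun _ => hf K * (y (ia r) + II K * y (ib r)))

/-- inverse of the split coordinates -/
noncomputable def unsplFun {r : ℕ} (Y : SI r → K) : Fin (r + 3) → K := fun j =>
  if h : (j : ℕ) < r + 1 then Y (.inl (.inl ⟨j, h⟩)) else
    if (j : ℕ) = r + 1 then Y (.inl (.inr ())) + Y (.inr ()) else
      II K * (Y (.inl (.inr ())) - Y (.inr ()))

lemma unspl_lt {r : ℕ} (Y : SI r → K) (i : Fin (r + 1)) :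
    unsplFun Y (Fin.castLE (by omega) i) = Y (.inl (.inl i)) := by
  unfold unsplFun
  rw [dif_pos (by have := i.2; simp; omega)]; rfl

lemma unspl_ia {r : ℕ} (Y : SI r → K) : unsplFun Y (ia r) = Y (.inl (.inr ())) + Y (.inr ()) := by
  unfold unsplFun ia
  simp

lemma unspl_ib {r : ℕ} (Y : SI r → K) :
    unsplFun Y (ib r) = II K * (Y (.inl (.inr ())) - Y (.inr ())) := by
  unfold unsplFun ib
  simp

lemma ext_fin {r : ℕ} {M : Type*} {x y : Fin (r + 3) → M}
    (h1 : ∀ i : Fin (r + 1), x (Fin.castLE (by omega) i) = y (Fin.castLE (by omega) i))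
    (h2 : x (ia r) = y (ia r)) (h3 : x (ib r) = y (ib r)) : x = y := by
  funext j
  by_cases hj : (j : ℕ) < r + 1
  · exact h1 ⟨j, hj⟩
  · by_cases hj2 : (j : ℕ) = r + 1
    · have : j = ia r := Fin.ext hj2
      rw [this]; exact h2
    · have : j = ib r := Fin.ext (by simp [ib]; omega)
      rw [this]; exact h3

lemma ext_SI {r : ℕ} {M : Type*} {x y : SI r → M}
    (h1 : ∀ i, x (.inl (.inl i)) = y (.inl (.inl i)))
    (h2 : x (.inl (.inr ())) = y (.inl (.inr ()))) (h3 : x (.inr ()) = y (.inr ())) : x = y := by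
  funext j
  rcases j with (j | j) | j
  · exact h1 j
  · cases j; exact h2
  · cases j; exact h3

/-- split coordinates as a linear equivalence -/
noncomputable def spl (r : ℕ) : (Fin (r + 3) → K) ≃ₗ[K] (SI r → K) where
  toFun := splFun
  invFun := unsplFun
  map_add' x y := by
    apply ext_SI
    · intro i; simp [splFun]
    · simp [splFun]; ring
    · simp [splFun]; ring
  map_smul' c x := by
    apply ext_SI
    · intro i; simp [splFun]
    · simp [splFun]; ring
    · simp [splFun]; ring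
  left_inv x := by
    apply ext_fin
    · intro i; rw [unspl_lt]; rfl
    · rw [unspl_ia]; simp only [splFun, Sum.elim_inl, Sum.elim_inr]
      linear_combination (x (ia r)) * (two_hf (K := K))
    · rw [unspl_ib]; simp only [splFun, Sum.elim_inl, Sum.elim_inr]
      linear_combination (x (ib r)) * (two_hf (K := K)) - 2 * hf K * x (ib r) * (II_mul (K := K))
  right_inv Y := by
    apply ext_SI
    · intro i; simp only [splFun, Sum.elim_inl]; rw [unspl_lt]
    · simp only [splFun, Sum.elim_inl, Sum.elim_inr]; rw [unspl_ia, unspl_ib]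
      linear_combination (Y (.inl (.inr ()))) * (two_hf (K := K)) -
        hf K * (Y (.inl (.inr ())) - Y (.inr ())) * (II_mul (K := K))
    · simp only [splFun, Sum.elim_inr]; rw [unspl_ia, unspl_ib]
      linear_combination (Y (.inr ())) * (two_hf (K := K)) +
        hf K * (Y (.inl (.inr ())) - Y (.inr ())) * (II_mul (K := K))

lemma spl_apply {r : ℕ} (y : Fin (r + 3) → K) : spl r y = splFun y := rfl
lemma spl_symm_apply {r : ℕ} (Y : SI r → K) : (spl r).symm Y = unsplFun Y := rfl

lemma eta_castLE {r : ℕ} (i : Fin (r + 1)) :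
    (eta (Fin.castLE (by omega : r + 1 ≤ r + 3) i) : K) = eta i := by
  simp [eta]

lemma eta_ia {r : ℕ} : (eta (ia r) : K) = 1 := by simp [eta, ia]
lemma eta_ib {r : ℕ} : (eta (ib r) : K) = 1 := by simp [eta, ib]

lemma sform_spl {r : ℕ} (x y : Fin (r + 3) → K) : sform (spl r x) (spl r y) = lor x y := by
  rw [spl_apply, spl_apply]
  unfold sform lor
  rw [sum_split, eta_ia, eta_ib]
  simp only [splFun, Sum.elim_inl, Sum.elim_inr, eta_castLE]
  linear_combination (x (ia r) * y (ia r) * (2 * hf K + 1) + x (ib r) * y (ib r) * (2 * hf K + 1)) *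
    (two_hf (K := K)) - 4 * hf K * hf K * x (ib r) * y (ib r) * (II_mul (K := K))

end spl

end Pool.Agent.W576
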