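import Pool.Agent.W576.Chart
import Pool.Agent.W377.Side
import Pool.Agent.W867.Witt

/-!
# The standard position lemma
-/

set_option linter.unusedSectionVars false

namespace Pool.Agent.W576

open Pool.Agent.W31.Bel

section basic

variable {K : Type} [Field K] [Algebra ℂ K] {κ : Type} [Field κ] (p : Place K κ)

/-- the side of a lattice relative to the standard edge -/
def Chi {r : ℕ} (L : Set (SI r → K)) : Prop := ∀ x ∈ L, p.Ms x → p.L 1 x

open Classical in
/-- residue of an element of the field (zero if it is not integral) -/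
noncomputable def redv (x : K) : κ := if h : x ∈ p.O then p.red ⟨x, h⟩ else 0

lemma redv_mem {x : K} (h : x ∈ p.O) : redv p x = p.red ⟨x, h⟩ := by
  unfold redv; rw [dif_pos h]

lemma redv_add {x y : K} (hx : x ∈ p.O) (hy : y ∈ p.O) : redv p (x + y) = redv p x + redv p y := by
  rw [redv_mem p hx, redv_mem p hy, redv_mem p (p.O.add_mem hx hy), ← map_add]; rfl

lemma redv_mul {x y : K} (hx : x ∈ p.O) (hy : y ∈ p.O) : redv p (x * y) = redv p x * redv p y := by
  rw [redv_mem p hx, redv_mem p hy, redv_mem p (p.O.mul_mem hx hy), ← map_mul]; rfl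

lemma redv_sum {ι : Type*} (s : Finset ι) (f : ι → K) (hf : ∀ i ∈ s, f i ∈ p.O) :
    redv p (∑ i ∈ s, f i) = ∑ i ∈ s, redv p (f i) := by
  classical
  induction s using Finset.induction_on with
  | empty => simp [redv_mem p p.O.zero_mem]; exact map_zero p.red
  | insert a s ha ih =>
    rw [Finset.sum_insert ha, Finset.sum_insert ha, redv_add p (hf a (Finset.mem_insert_self _ _))
      (p.O.sum_mem (fun i hi => hf i (Finset.mem_insert_of_mem hi))),
      ih (fun i hi => hf i (Finset.mem_insert_of_mem hi))]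

lemma redv_zero_of {x : K} (hx : x ∈ p.O) (h : p.t⁻¹ * x ∈ p.O) : redv p x = 0 := by
  rw [redv_mem p hx]; exact (p.red_ker ⟨x, hx⟩).2 h

lemma redv_alg (y : ℝ) : redv p (reHom K y) = p.rho y := by
  have h : reHom K y ∈ p.O := p.alg _
  rw [redv_mem p h]; rfl

lemma redv_eta {d : ℕ} (i : Fin d) : redv p (eta i : K) = eta i := by
  unfold eta
  split_ifs
  · have h : (-1 : K) ∈ p.O := p.O.neg_mem p.O.one_mem
    rw [redv_mem p h]
    have : (⟨-1, h⟩ : p.O) = -1 := rfl
    rw [this, map_neg, map_one]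
  · rw [redv_mem p p.O.one_mem]; exact map_one p.red

lemma eta_mem' {d : ℕ} (i : Fin d) : (eta i : K) ∈ p.O := Pool.Agent.W377.Side.eta_mem p i

/-- the residue vector of a vector in split coordinates -/
noncomputable def resv {r : ℕ} (X : SI r → K) : Fin (r + 1) → κ := fun i => redv p (X (.inl (.inl i)))

lemma L0_iff {r : ℕ} (X : SI r → K) : p.L 0 X ↔
    (∀ i, X (.inl (.inl i)) ∈ p.O) ∧ X (.inl (.inr ())) ∈ p.O ∧ X (.inr ()) ∈ p.O :=
  Pool.Agent.W377.Side.L_zero p X

lemma L1_iff {r : ℕ} (X : SI r → K) : p.L 1 X ↔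
    (∀ i, X (.inl (.inl i)) ∈ p.O) ∧ p.t * X (.inl (.inr ())) ∈ p.O ∧ p.t⁻¹ * X (.inr ()) ∈ p.O :=
  Pool.Agent.W377.Side.L_one p X

lemma lor_resv {r : ℕ} {X Y : SI r → K} (hX0 : p.L 0 X) (hX1 : p.L 1 X) (hY0 : p.L 0 Y)
    (hY1 : p.L 1 Y) : lor (resv p X) (resv p Y) = redv p (sform X Y) := by
  rw [L0_iff] at hX0 hY0
  rw [L1_iff] at hX1 hY1
  obtain ⟨hXi, hXa, hXb⟩ := hX0
  obtain ⟨hYi, hYa, hYb⟩ := hY0
  have htwo : (2 : K) ∈ p.O := by
    have := p.O.add_mem p.O.one_mem p.O.one_mem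
    rwa [one_add_one_eq_two] at this
  have h1 : ∀ i, (eta i : K) * (X (.inl (.inl i)) * Y (.inl (.inl i))) ∈ p.O := fun i =>
    p.O.mul_mem (eta_mem' p i) (p.O.mul_mem (hXi i) (hYi i))
  have h2 : X (.inl (.inr ())) * Y (.inr ()) + X (.inr ()) * Y (.inl (.inr ())) ∈ p.O :=
    p.O.add_mem (p.O.mul_mem hXa hYb) (p.O.mul_mem hXb hYa)
  unfold sform
  rw [redv_add p (p.O.sum_mem (fun i _ => h1 i)) (p.O.mul_mem htwo h2),
    redv_sum p _ _ (fun i _ => h1 i)]
  have h3 : redv p (2 * (X (.inl (.inr ())) * Y (.inr ()) + X (.inr ()) * Y (.inl (.inr ())))) = 0 := by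
    apply redv_zero_of p (p.O.mul_mem htwo h2)
    have e : p.t⁻¹ * (2 * (X (.inl (.inr ())) * Y (.inr ()) + X (.inr ()) * Y (.inl (.inr ())))) =
      2 * (X (.inl (.inr ())) * (p.t⁻¹ * Y (.inr ())) + (p.t⁻¹ * X (.inr ())) * Y (.inl (.inr ()))) := by
      ring
    rw [e]
    exact p.O.mul_mem htwo (p.O.add_mem (p.O.mul_mem hXa hY1.2.2) (p.O.mul_mem hX1.2.2 hYa))
  rw [h3, add_zero]
  unfold lor
  refine Finset.sum_congr rfl (fun i _ => ?_)
  rw [redv_mul p (eta_mem' p i) (p.O.mul_mem (hXi i) (hYi i)), redv_mul p (hXi i) (hYi i),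
    redv_eta]
  rfl

end basic

section forms

variable {K : Type} [Field K] [Algebra ℂ K] {r : ℕ}

lemma sform_comm (x y : SI r → K) : sform x y = sform y x :=
  Pool.Agent.W377.Side.sform_comm x y

lemma sform_add_left (x x' y : SI r → K) : sform (x + x') y = sform x y + sform x' y := by
  unfold sform
  simp only [Pi.add_apply]
  rw [show ∀ a b c d : K, a + b + (c + d) = (a + c) + (b + d) by intros; ring,
    ← Finset.sum_add_distrib]
  congr 1
  · exact Finset.sum_congr rfl (fun i _ => by ring)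
  · ring

lemma sform_smul_left (c : K) (x y : SI r → K) : sform (c • x) y = c * sform x y :=
  Pool.Agent.W377.Side.sform_smul c x y

lemma sform_sub_left (x x' y : SI r → K) : sform (x - x') y = sform x y - sform x' y := by
  have h : x - x' = x + (-1 : K) • x' := by simp [sub_eq_add_neg]
  rw [h, sform_add_left, sform_smul_left]; ring

lemma sform_sum_left {ι : Type*} (s : Finset ι) (f : ι → SI r → K) (y : SI r → K) :
    sform (∑ i ∈ s, f i) y = ∑ i ∈ s, sform (f i) y := by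
  classical
  induction s using Finset.induction_on with
  | empty => simp [sform]
  | insert a s ha ih => rw [Finset.sum_insert ha, Finset.sum_insert ha, sform_add_left, ih]

end forms

section std

variable {K : Type} [Field K] [Algebra ℂ K] {κ : Type} [Field κ] (p : Place K κ)
variable {r m : ℕ}

lemma L_add {a : ℤ} {x y : SI r → K} (hx : p.L a x) (hy : p.L a y) : p.L a (x + y) := by
  obtain ⟨h1, h2, h3⟩ := hx
  obtain ⟨h1', h2', h3'⟩ := hy
  refine ⟨fun i => p.O.add_mem (h1 i) (h1' i), ?_, ?_⟩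
  · rw [Pi.add_apply, mul_add]; exact p.O.add_mem h2 h2'
  · rw [Pi.add_apply, mul_add]; exact p.O.add_mem h3 h3'

lemma L_smul {a : ℤ} {c : K} (hc : c ∈ p.O) {x : SI r → K} (hx : p.L a x) : p.L a (c • x) := by
  obtain ⟨h1, h2, h3⟩ := hx
  refine ⟨fun i => p.O.mul_mem hc (h1 i), ?_, ?_⟩
  · rw [Pi.smul_apply, smul_eq_mul, mul_left_comm]; exact p.O.mul_mem hc h2
  · rw [Pi.smul_apply, smul_eq_mul, mul_left_comm]; exact p.O.mul_mem hc h3

lemma L_zero' {a : ℤ} : p.L a (0 : SI r → K) := by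
  refine ⟨fun i => p.O.zero_mem, ?_, ?_⟩ <;> simp [p.O.zero_mem]

lemma L_sum {a : ℤ} {ι : Type*} (s : Finset ι) (f : ι → SI r → K) (hf : ∀ i ∈ s, p.L a (f i)) :
    p.L a (∑ i ∈ s, f i) := by
  classical
  induction s using Finset.induction_on with
  | empty => simpa using L_zero' p
  | insert a s ha ih =>
    rw [Finset.sum_insert ha]
    exact L_add p (hf a (Finset.mem_insert_self _ _))
      (ih (fun i hi => hf i (Finset.mem_insert_of_mem hi)))

lemma SelfDual.add {L : Set (SI r → K)} (h : SelfDual p L) {x y : SI r → K} (hx : x ∈ L)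
    (hy : y ∈ L) : x + y ∈ L := by
  rw [h]
  intro z hz
  rw [sform_add_left]
  exact p.O.add_mem ((h x).1 hx z hz) ((h y).1 hy z hz)

lemma SelfDual.smul {L : Set (SI r → K)} (h : SelfDual p L) {c : K} (hc : c ∈ p.O) {x : SI r → K}
    (hx : x ∈ L) : c • x ∈ L := by
  rw [h]
  intro z hz
  rw [sform_smul_left]
  exact p.O.mul_mem hc ((h x).1 hx z hz)

lemma SelfDual.zero {L : Set (SI r → K)} (h : SelfDual p L) : (0 : SI r → K) ∈ L := by
  rw [h]
  intro z _
  have : sform (0 : SI r → K) z = 0 := by simp [sform]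
  rw [this]; exact p.O.zero_mem

lemma SelfDual.sum {L : Set (SI r → K)} (h : SelfDual p L) {ι : Type*} (s : Finset ι)
    (f : ι → SI r → K) (hf : ∀ i ∈ s, f i ∈ L) : ∑ i ∈ s, f i ∈ L := by
  classical
  induction s using Finset.induction_on with
  | empty => simpa using h.zero p
  | insert a s ha ih =>
    rw [Finset.sum_insert ha]
    exact h.add p (hf a (Finset.mem_insert_self _ _))
      (ih (fun i hi => hf i (Finset.mem_insert_of_mem hi)))

/-- the Gram determinant of independent future vectors is nonzero -/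
lemma gram_det_ne {a n : ℕ} (ha : 1 ≤ a) (u : Fin a → Fin (n + 1) → ℝ) (hu : ∀ i, Fut (u i))
    (hli : LinearIndependent ℝ u) : (gram u).det ≠ 0 := by
  intro h0
  obtain ⟨b, hb, hb0⟩ := Matrix.exists_mulVec_eq_zero_iff.2 h0
  set w : Fin (n + 1) → ℝ := ∑ i, b i • u i with hw
  have h1 : ∀ i, lor (u i) w = 0 := by
    intro i
    have h2 := congrFun hb0 i
    simp only [Matrix.mulVec, dotProduct, gram, Pi.zero_apply] at h2
    rw [hw, lor_comm', lor_sum_left]
    rw [← h2]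
    refine Finset.sum_congr rfl (fun j _ => ?_)
    rw [lor_smul_left, lor_comm' (u j)]; ring
  have hw0 : w ≠ 0 := by
    intro h3
    apply hb
    funext i
    exact Fintype.linearIndependent_iff.1 hli b h3 i
  have h4 := Pool.Agent.W867.Witt.spacelike (hu ⟨0, ha⟩).2 (h1 ⟨0, ha⟩) hw0
  have h5 : lor w w = 0 := by
    conv_lhs => rw [hw]
    rw [lor_sum_left]
    apply Finset.sum_eq_zero
    intro i _
    rw [lor_smul_left, h1 i, mul_zero]
  linarith

lemma rng_comp {a : ℕ} (σ : Fin a → Fin m) (π : Equiv.Perm (Fin a)) : rng (σ ∘ π) = rng σ := by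
  unfold rng
  ext j
  simp only [Finset.mem_image, Finset.mem_univ, true_and, Function.comp]
  exact ⟨fun ⟨i, hi⟩ => ⟨π i, hi⟩, fun ⟨i, hi⟩ => ⟨π.symm i, by simpa using hi⟩⟩

lemma mem_rng {a : ℕ} (σ : Fin a → Fin m) (i : Fin a) : σ i ∈ rng σ :=
  Finset.mem_image_of_mem _ (Finset.mem_univ i)

lemma mem_rng_cons {a : ℕ} (q : Fin m) (τ : Fin a → Fin m) :
    q ∈ rng (Fin.cons q τ : Fin (a + 1) → Fin m) := by
  have := mem_rng (Fin.cons q τ : Fin (a + 1) → Fin m) 0
  simpa using this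

lemma mem_rng_cons' {a : ℕ} (q : Fin m) (τ : Fin a → Fin m) (i : Fin a) :
    τ i ∈ rng (Fin.cons q τ : Fin (a + 1) → Fin m) := by
  have := mem_rng (Fin.cons q τ : Fin (a + 1) → Fin m) i.succ
  simpa using this

/-- extension of a permutation to `Fin (a+1)` fixing `0` -/
def extPerm {a : ℕ} (π : Equiv.Perm (Fin a)) : Equiv.Perm (Fin (a + 1)) :=
  Equiv.Perm.decomposeFin.symm (0, π)

lemma cons_comp {a : ℕ} (q : Fin m) (τ : Fin a → Fin m) (π : Equiv.Perm (Fin a)) :
    (Fin.cons q (τ ∘ π) : Fin (a + 1) → Fin m) = (Fin.cons q τ : Fin (a + 1) → Fin m) ∘ extPerm π := by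
  funext i
  refine Fin.cases ?_ (fun i => ?_) i
  · simp [extPerm]
  · simp [extPerm]

lemma sign_extPerm {a : ℕ} (π : Equiv.Perm (Fin a)) :
    Equiv.Perm.sign (extPerm π) = Equiv.Perm.sign π := by
  simp [extPerm, Equiv.Perm.decomposeFin.symm_sign]

lemma c_cons_comp (c : (Fin (r + 2) → Fin m) → ℤ)
    (hcalt : ∀ (σ : Fin (r + 2) → Fin m) (π : Equiv.Perm (Fin (r + 2))),
      c (σ ∘ π) = ((Equiv.Perm.sign π : ℤˣ) : ℤ) * c σ)
    (q : Fin m) (τ : Fin (r + 1) → Fin m) (π : Equiv.Perm (Fin (r + 1))) :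
    c (Fin.cons q (τ ∘ π)) = ((Equiv.Perm.sign π : ℤˣ) : ℤ) * c (Fin.cons q τ) := by
  rw [cons_comp, hcalt, sign_extPerm]

open Classical in
/-- the crossing chain -/
noncomputable def Zc (c : (Fin (r + 2) → Fin m) → ℤ) (L : Finset (Fin m) → Set (SI r → K))
    (τ : Fin (r + 1) → Fin m) : ℤ :=
  ∑ q, c (Fin.cons q τ) * (if Chi p (L (rng (Fin.cons q τ : Fin (r + 2) → Fin m))) then 1 else 0)

open Classical in
/-- the vertices in the standard edge lattice -/
noncomputable def VV (V : Fin m → SI r → K) : Finset (Fin m) :=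
  Finset.univ.filter (fun j => p.L 0 (V j) ∧ p.L 1 (V j))

lemma mem_VV (V : Fin m → SI r → K) (j : Fin m) : j ∈ VV p V ↔ p.L 0 (V j) ∧ p.L 1 (V j) := by
  unfold VV; simp

lemma Zc_alt (c : (Fin (r + 2) → Fin m) → ℤ) (L : Finset (Fin m) → Set (SI r → K))
    (hcalt : ∀ (σ : Fin (r + 2) → Fin m) (π : Equiv.Perm (Fin (r + 2))),
      c (σ ∘ π) = ((Equiv.Perm.sign π : ℤˣ) : ℤ) * c σ)
    (τ : Fin (r + 1) → Fin m) (π : Equiv.Perm (Fin (r + 1))) :
    Zc p c L (τ ∘ π) = ((Equiv.Perm.sign π : ℤˣ) : ℤ) * Zc p c L τ := by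
  unfold Zc
  rw [Finset.mul_sum]
  refine Finset.sum_congr rfl (fun q _ => ?_)
  rw [c_cons_comp c hcalt, cons_comp, rng_comp]; ring

lemma swap_cons (p q : Fin m) (ε : Fin r → Fin m) :
    (Fin.cons q (Fin.cons p ε : Fin (r + 1) → Fin m) : Fin (r + 2) → Fin m) =
      (Fin.cons p (Fin.cons q ε : Fin (r + 1) → Fin m) : Fin (r + 2) → Fin m) ∘
        (Equiv.swap (0 : Fin (r + 2)) 1) := by
  funext i
  refine Fin.cases ?_ (fun i => ?_) i
  · simp only [Function.comp, Equiv.swap_apply_left, Fin.cons_zero]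
    rfl
  · refine Fin.cases ?_ (fun i => ?_) i
    · simp only [Function.comp]
      have : (Fin.succ (0 : Fin (r + 1))) = (1 : Fin (r + 2)) := rfl
      rw [this, Equiv.swap_apply_right]
      rfl
    · simp only [Function.comp]
      rw [Equiv.swap_apply_of_ne_of_ne (Fin.succ_ne_zero _)
        (by intro h; exact Fin.succ_ne_zero i (Fin.succ_injective _ h))]
      rfl

lemma c_swap (c : (Fin (r + 2) → Fin m) → ℤ)
    (hcalt : ∀ (σ : Fin (r + 2) → Fin m) (π : Equiv.Perm (Fin (r + 2))),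
      c (σ ∘ π) = ((Equiv.Perm.sign π : ℤˣ) : ℤ) * c σ) (a b : Fin m) (ε : Fin r → Fin m) :
    c (Fin.cons b (Fin.cons a ε : Fin (r + 1) → Fin m)) =
      - c (Fin.cons a (Fin.cons b ε : Fin (r + 1) → Fin m)) := by
  rw [swap_cons, hcalt, Equiv.Perm.sign_swap (by simp)]; simp

lemma rng_swap (a b : Fin m) (ε : Fin r → Fin m) :
    rng (Fin.cons b (Fin.cons a ε : Fin (r + 1) → Fin m) : Fin (r + 2) → Fin m) =
      rng (Fin.cons a (Fin.cons b ε : Fin (r + 1) → Fin m) : Fin (r + 2) → Fin m) := by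
  rw [swap_cons, rng_comp]

lemma Zc_sum (c : (Fin (r + 2) → Fin m) → ℤ) (L : Finset (Fin m) → Set (SI r → K))
    (hcalt : ∀ (σ : Fin (r + 2) → Fin m) (π : Equiv.Perm (Fin (r + 2))),
      c (σ ∘ π) = ((Equiv.Perm.sign π : ℤˣ) : ℤ) * c σ) (ε : Fin r → Fin m) :
    ∑ q, Zc p c L (Fin.cons q ε) = 0 := by
  unfold Zc
  have h : ∑ q, ∑ q', c (Fin.cons q' (Fin.cons q ε : Fin (r + 1) → Fin m)) *
      (open Classical in if Chi p (L (rng (Fin.cons q' (Fin.cons q ε : Fin (r + 1) → Fin m) :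
        Fin (r + 2) → Fin m))) then (1 : ℤ) else 0) =
      - ∑ q, ∑ q', c (Fin.cons q' (Fin.cons q ε : Fin (r + 1) → Fin m)) *
      (open Classical in if Chi p (L (rng (Fin.cons q' (Fin.cons q ε : Fin (r + 1) → Fin m) :
        Fin (r + 2) → Fin m))) then (1 : ℤ) else 0) := by
    conv_lhs => rw [Finset.sum_comm]
    rw [← Finset.sum_neg_distrib]
    refine Finset.sum_congr rfl (fun q _ => ?_)
    rw [← Finset.sum_neg_distrib]
    refine Finset.sum_congr rfl (fun q' _ => ?_)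
    rw [c_swap c hcalt q' q, rng_swap q' q]; ring
  linarith

end std

end Pool.Agent.W576
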